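import Pool.Agent.Y981.L2.PolyL
import Pool.Agent.Y981.L2.Rf

/-!
The width of the self-avoiding polygons: large deviations, exponents and the mean width.
-/

set_option autoImplicit false

namespace Pool.Agent.Y981.L2

open Pool.Agent.TH795.EP Pool.Agent.TH795.EP2 Pool.Agent.TH795.SE2 Pool.Agent.TH262.SawL H981 Finset Filter Topology

/-- the width (horizontal extent) of a loop -/
noncomputable def width (m : ℕ) (f : ZMod m → ℤ × ℤ) : ℕ :=
  sSup {w : ℕ | ∃ i j, w = ((f i).1 - (f j).1).natAbs}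

theorem loops_finite {n : ℕ} (hn : 1 ≤ n) : {f : ZMod (2 * n) → ℤ × ℤ | IsLoop (2 * n) f}.Finite := by
  have : NeZero (2 * n) := ⟨by omega⟩
  apply Set.Finite.subset (Set.Finite.image
    (fun (w : List St) => fun i : ZMod (2 * n) => path w i.val) (fin_words Saw (2 * n - 1)))
  intro f hf
  obtain ⟨w, h1, h2, h3⟩ := loop_word (by omega) hf 0
  refine ⟨w, ⟨h1, h2⟩, ?_⟩
  funext i
  simp only
  rw [h3 _ (ZMod.val_lt i), ZMod.natCast_zmod_val, zero_add, hf.1]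
  simp

theorem diff_le {n : ℕ} (hn : 1 ≤ n) {f : ZMod (2 * n) → ℤ × ℤ} (hf : IsLoop (2 * n) f)
    (i j : ZMod (2 * n)) : (f i).1 - (f j).1 ≤ 2 * n := by
  have : NeZero (2 * n) := ⟨by omega⟩
  obtain ⟨w, h1, h2, h3⟩ := loop_word (by omega) hf j
  have h4 := h3 (i - j).val (ZMod.val_lt _)
  rw [ZMod.natCast_zmod_val, add_sub_cancel] at h4
  have h5 := congrArg Prod.fst h4
  simp only at h5
  have h6 : (path w (i - j).val).1 ≤ (w.take (i - j).val).length := by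
    have := abs_add_abs_le (w.take (i - j).val)
    have h7 := le_abs_self (dx (w.take (i - j).val))
    have h8 := abs_nonneg (dy (w.take (i - j).val))
    have h9 : (path w (i - j).val).1 = dx (w.take (i - j).val) := rfl
    omega
  have h7 : (w.take (i - j).val).length ≤ w.length := by
    rw [List.length_take]; exact min_le_right _ _
  omega

theorem width_set {n : ℕ} (hn : 1 ≤ n) {f : ZMod (2 * n) → ℤ × ℤ} (hf : IsLoop (2 * n) f) :
    BddAbove {w : ℕ | ∃ i j, w = ((f i).1 - (f j).1).natAbs} := by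
  refine ⟨2 * n, ?_⟩
  rintro w ⟨i, j, rfl⟩
  have h1 := diff_le hn hf i j
  have h2 := diff_le hn hf j i
  omega

theorem le_width {n : ℕ} (hn : 1 ≤ n) {f : ZMod (2 * n) → ℤ × ℤ} (hf : IsLoop (2 * n) f)
    {k : ℕ} (hk : 1 ≤ k) : k ≤ width (2 * n) f ↔ Wd k f := by
  unfold width Wd
  constructor
  · intro h
    have h1 := Nat.sSup_mem (s := {w : ℕ | ∃ i j, w = ((f i).1 - (f j).1).natAbs})
      ⟨_, 0, 0, rfl⟩ (width_set hn hf)
    obtain ⟨i, j, hij⟩ := h1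
    rcases le_total 0 ((f i).1 - (f j).1) with h2 | h2
    · exact ⟨i, j, by omega⟩
    · exact ⟨j, i, by omega⟩
  · rintro ⟨i, j, h⟩
    have h1 : ((f i).1 - (f j).1).natAbs ≤ sSup {w : ℕ | ∃ i j, w = ((f i).1 - (f j).1).natAbs} :=
      le_csSup (width_set hn hf) ⟨i, j, rfl⟩
    omega

theorem width_le {n : ℕ} (hn : 1 ≤ n) {f : ZMod (2 * n) → ℤ × ℤ} (hf : IsLoop (2 * n) f) :
    width (2 * n) f ≤ 2 * n := by
  unfold width
  refine csSup_le (s := {w : ℕ | ∃ i j, w = ((f i).1 - (f j).1).natAbs}) ⟨_, 0, 0, rfl⟩ ?_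
  rintro w ⟨i, j, rfl⟩
  have h1 := diff_le hn hf i j
  have h2 := diff_le hn hf j i
  omega

/-- the proportion of the polygons with width at least `r` -/
noncomputable def pw (n : ℕ) (r : ℝ) : ℝ :=
  ({f : ZMod (2 * n) → ℤ × ℤ | IsLoop (2 * n) f ∧ r ≤ width (2 * n) f}.ncard : ℝ) /
    ({f : ZMod (2 * n) → ℤ × ℤ | IsLoop (2 * n) f}.ncard : ℝ)

/-- the mean width -/
noncomputable def mw (n : ℕ) : ℝ :=
  (∑ᶠ f ∈ {f : ZMod (2 * n) → ℤ × ℤ | IsLoop (2 * n) f}, (width (2 * n) f : ℝ)) /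
    ({f : ZMod (2 * n) → ℤ × ℤ | IsLoop (2 * n) f}.ncard : ℝ)

theorem pw_anti {n : ℕ} (hn : 1 ≤ n) {r r' : ℝ} (h : r ≤ r') : pw n r' ≤ pw n r := by
  unfold pw
  apply div_le_div_of_nonneg_right _ (Nat.cast_nonneg _)
  have h1 : {f : ZMod (2 * n) → ℤ × ℤ | IsLoop (2 * n) f ∧ r' ≤ width (2 * n) f}.ncard ≤
      {f : ZMod (2 * n) → ℤ × ℤ | IsLoop (2 * n) f ∧ r ≤ width (2 * n) f}.ncard := by
    apply Set.ncard_le_ncard
    · intro f hf
      exact ⟨hf.1, h.trans hf.2⟩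
    · exact (loops_finite hn).subset (fun f hf => hf.1)
  exact_mod_cast h1

theorem pw_nat {n : ℕ} (hn : 1 ≤ n) {k : ℕ} (hk : 1 ≤ k) : pw n k = (wn n k : ℝ) / ln n := by
  unfold pw wn ln
  congr 2
  congr 1
  ext f
  simp only [Set.mem_ofPred_eq]
  constructor
  · rintro ⟨h1, h2⟩
    exact ⟨h1, (le_width hn h1 hk).1 (by exact_mod_cast h2)⟩
  · rintro ⟨h1, h2⟩
    exact ⟨h1, by exact_mod_cast (le_width hn h1 hk).2 h2⟩

theorem pw_ceil {n : ℕ} {r : ℝ} : pw n r = pw n (⌈r⌉₊ : ℕ) := by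
  unfold pw
  congr 2
  congr 1
  ext f
  simp only [Set.mem_ofPred_eq]
  constructor
  · rintro ⟨h1, h2⟩
    exact ⟨h1, by exact_mod_cast Nat.ceil_le.2 h2⟩
  · rintro ⟨h1, h2⟩
    exact ⟨h1, Nat.ceil_le.1 (by exact_mod_cast h2)⟩

/-- the law on the axis -/
theorem axis_ldp : ∃ K : ℝ, 0 ≤ K ∧ ∀ n : ℕ, 2 ≤ n → ∀ k : ℕ, 1 ≤ k → k ≤ n →
    0 < (a (2 * n) (2 * k) 0 : ℝ) / c (2 * n) ∧
    |Real.log ((a (2 * n) (2 * k) 0 : ℝ) / c (2 * n)) + 2 * (n * R ((k : ℝ) / n))| ≤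
      K * Real.log n ^ 2 := by
  obtain ⟨K, hK, h⟩ := ldp_words
  refine ⟨16 * K, by positivity, ?_⟩
  intro n hn k hk hkn
  have hne : ((2 * (k : ℤ), 0) : ℤ × ℤ) ≠ (0, 0) := by
    intro h
    have := (Prod.mk.inj h).1
    omega
  have hle : |2 * (k : ℤ)| + |(0 : ℤ)| ≤ (2 * n : ℕ) := by
    rw [abs_zero, abs_of_nonneg (by omega : (0 : ℤ) ≤ 2 * k)]
    push_cast
    omega
  have hpar : (2 * (k : ℤ) + 0 - (2 * n : ℕ)) % 2 = 0 := by push_cast; omega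
  have h1 := h (2 * n) (by omega) (2 * k) 0 hne hpar hle
  have ha1 := one_le_a hne hpar hle
  have ha : (0 : ℝ) < a (2 * n) (2 * k) 0 := by exact_mod_cast ha1
  refine ⟨div_pos ha (c_pos _), ?_⟩
  have hn0 : (0 : ℝ) < n := by exact_mod_cast (by omega : 0 < n)
  have e1 : (((2 * (k : ℤ) : ℤ) : ℝ) / ((2 * n : ℕ) : ℝ), ((0 : ℤ) : ℝ) / ((2 * n : ℕ) : ℝ)) =
      ((k : ℝ) / n, 0) := by
    push_cast
    rw [zero_div, mul_div_mul_left _ _ (by norm_num : (2 : ℝ) ≠ 0)]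
  rw [e1] at h1
  have e2 : (((2 * n : ℕ) : ℝ)) * Rate ((k : ℝ) / n, 0) = 2 * (n * R ((k : ℝ) / n)) := by
    unfold R
    push_cast
    ring
  rw [e2] at h1
  refine h1.trans ?_
  have h2 := pow_le_pow_left₀ (log_pos' (show 2 ≤ 2 * n by omega)).le (log_two_mul hn) 2
  calc K * Real.log ((2 * n : ℕ) : ℝ) ^ 2 ≤ K * (2 * Real.log n) ^ 2 :=
        mul_le_mul_of_nonneg_left h2 hK
    _ ≤ _ := by nlinarith [mul_nonneg hK (sq_nonneg (Real.log (n : ℝ)))]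

/-- **Large deviations of the width.** -/
theorem pw_ldp : ∃ K : ℝ, 0 ≤ K ∧ ∀ n : ℕ, 2 ≤ n → ∀ k : ℕ, 1 ≤ k → k < n →
    Real.exp (-(2 * (n * R ((k : ℝ) / n)) + K * Real.log n ^ 2)) ≤ pw n k ∧
    pw n k ≤ Real.exp (-(2 * (n * R ((k : ℝ) / n))) + K * Real.log n ^ 2) := by
  obtain ⟨K1, hK1, h1⟩ := width_law
  obtain ⟨K2, hK2, h2⟩ := axis_ldp
  refine ⟨K1 + K2, by positivity, ?_⟩
  intro n hn k hk hkn
  obtain ⟨-, -, g3, g4⟩ := h1 n hn k (by omega) (by omega)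
  obtain ⟨g5, g6⟩ := h2 n hn k hk hkn.le
  rw [← pw_nat (by omega) hk] at g3 g4
  obtain ⟨g7, g8⟩ := abs_le.1 g6
  have hQ := q4_pos n K1
  constructor
  · have h3 : Real.exp (-(2 * (n * R ((k : ℝ) / n)) + K2 * Real.log n ^ 2)) ≤
        (a (2 * n) (2 * k) 0 : ℝ) / c (2 * n) := by
      rw [← Real.le_log_iff_exp_le g5]
      linarith
    have h4 := h3.trans g4
    have h5 : Real.exp (-(2 * (n * R ((k : ℝ) / n)) + (K1 + K2) * Real.log n ^ 2)) * q4 n K1 =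
        Real.exp (-(2 * (n * R ((k : ℝ) / n)) + K2 * Real.log n ^ 2)) := by
      unfold q4
      rw [← Real.exp_add]
      congr 1
      ring
    rw [← h5, mul_comm (q4 n K1)] at h4
    exact le_of_mul_le_mul_right h4 hQ
  · refine g3.trans ?_
    have h3 : (a (2 * n) (2 * k) 0 : ℝ) / c (2 * n) ≤
        Real.exp (-(2 * (n * R ((k : ℝ) / n))) + K2 * Real.log n ^ 2) := by
      rw [← Real.log_le_iff_le_exp g5]
      linarith
    refine (mul_le_mul_of_nonneg_left h3 hQ.le).trans ?_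
    unfold q4
    rw [← Real.exp_add]
    apply Real.exp_le_exp.2
    linarith

/-- the comparison with the law of the end point -/
theorem log_pw : ∃ K : ℝ, ∀ n : ℕ, 2 ≤ n → ∀ k : ℕ, 1 ≤ k → k < n →
    |Real.log (pw n k) - Real.log ((a (2 * n) (2 * k) 0 : ℝ) / c (2 * n))| ≤
      K * Real.log n ^ 2 := by
  obtain ⟨K1, hK1, h1⟩ := width_law
  obtain ⟨K2, hK2, h2⟩ := axis_ldp
  refine ⟨K1, ?_⟩
  intro n hn k hk hkn
  obtain ⟨-, -, g3, g4⟩ := h1 n hn k (by omega) (by omega)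
  obtain ⟨g5, -⟩ := h2 n hn k hk hkn.le
  rw [← pw_nat (by omega) hk] at g3 g4
  have hQ := q4_pos n K1
  have hp : 0 < pw n k := by
    by_contra hcon
    push Not at hcon
    have : q4 n K1 * pw n k ≤ 0 := by nlinarith
    linarith
  rw [abs_le]
  constructor
  · have h3 := Real.log_le_log g5 g4
    rw [Real.log_mul hQ.ne' hp.ne'] at h3
    unfold q4 at h3
    rw [Real.log_exp] at h3
    linarith
  · have h3 := Real.log_le_log hp g3
    rw [Real.log_mul hQ.ne' g5.ne'] at h3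
    unfold q4 at h3
    rw [Real.log_exp] at h3
    linarith

/-- the upper half of the width exponent -/
def PolyUp (θ : ℝ) : Prop := ∀ ε : ℝ, 0 < ε → ∃ δ : ℝ, 0 < δ ∧ ∀ᶠ n : ℕ in atTop,
  pw n ((n : ℝ) ^ (θ + ε)) ≤ Real.exp (-(n : ℝ) ^ δ)

/-- the lower half of the width exponent -/
def PolyLow (θ : ℝ) : Prop := ∀ ε : ℝ, 0 < ε → ∀ δ : ℝ, 0 < δ → ∀ᶠ n : ℕ in atTop,
  Real.exp (-(n : ℝ) ^ δ) ≤ pw n ((n : ℝ) ^ (θ - ε))

theorem rUp_polyUp {θ : ℝ} (hθ1 : θ < 1) (A : RUp θ) : PolyUp θ := by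
  intro ε hε
  obtain ⟨ε', hε'⟩ : ∃ ε', ε' = min ε ((1 - θ) / 2) := ⟨_, rfl⟩
  have h0 : 0 < ε' := by rw [hε']; exact lt_min hε (by linarith)
  have h1 : θ + ε' < 1 := by
    have : ε' ≤ (1 - θ) / 2 := by rw [hε']; exact min_le_right _ _
    linarith
  have h2 : ε' ≤ ε := by rw [hε']; exact min_le_left _ _
  obtain ⟨δ, hδ, hA⟩ := A ε' h0
  obtain ⟨K, hK, hldp⟩ := pw_ldp
  refine ⟨δ, hδ, ?_⟩
  filter_upwards [hA, ev_log K 0 hδ, ev_pow 4 h1, ev_pow 4 (show (0 : ℝ) < 1 by norm_num),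
    eventually_ge_atTop 2] with n hn1 hn2 hn3 hn4 hn5
  have hn0 : (0 : ℝ) < n := by exact_mod_cast (by omega : 0 < n)
  have hn1' : (1 : ℝ) ≤ n := by exact_mod_cast (by omega : 1 ≤ n)
  rw [Real.rpow_one] at hn3 hn4
  rw [Real.rpow_zero, mul_one] at hn4
  obtain ⟨k, hk⟩ : ∃ k, k = ⌈(n : ℝ) ^ (θ + ε')⌉₊ := ⟨_, rfl⟩
  have hpos : 0 < (n : ℝ) ^ (θ + ε') := Real.rpow_pos_of_pos hn0 _
  have hk1 : (n : ℝ) ^ (θ + ε') ≤ k := by rw [hk]; exact Nat.le_ceil _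
  have hk2 : (k : ℝ) < (n : ℝ) ^ (θ + ε') + 1 := by rw [hk]; exact Nat.ceil_lt_add_one hpos.le
  have hk3 : 1 ≤ k := by
    have : (0 : ℝ) < k := hpos.trans_le hk1
    exact_mod_cast this
  have hkn : k < n := by
    have : (k : ℝ) < n := by linarith
    exact_mod_cast this
  have h3 : pw n ((n : ℝ) ^ (θ + ε)) ≤ pw n k := by
    refine (pw_anti (by omega) (Real.rpow_le_rpow_of_exponent_le hn1'
      (by linarith : θ + ε' ≤ θ + ε))).trans ?_
    rw [pw_ceil (r := (n : ℝ) ^ (θ + ε')), ← hk]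
  refine h3.trans ((hldp n hn5 k hk3 hkn).2.trans (Real.exp_le_exp.2 ?_))
  have h4 := hn1 k hk1 hkn
  linarith

theorem polyUp_rUp {θ : ℝ} (A : PolyUp θ) : RUp θ := by
  intro ε hε
  obtain ⟨δ, hδ, hA⟩ := A ε hε
  obtain ⟨K, hK, hldp⟩ := pw_ldp
  refine ⟨δ / 2, by linarith, ?_⟩
  filter_upwards [hA, ev_log (2 * K) 0 hδ, ev_pow 4 (show δ / 2 < δ by linarith),
    eventually_ge_atTop 2] with n hn1 hn2 hn3 hn5
  intro k hk hkn
  have hn0 : (0 : ℝ) < n := by exact_mod_cast (by omega : 0 < n)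
  have hpos : 0 < (n : ℝ) ^ (θ + ε) := Real.rpow_pos_of_pos hn0 _
  have hk3 : 1 ≤ k := by
    have : (0 : ℝ) < k := hpos.trans_le hk
    exact_mod_cast this
  have h1 := (hldp n hn5 k hk3 hkn).1.trans ((pw_anti (by omega) hk).trans hn1)
  have h2 := Real.exp_le_exp.1 h1
  linarith

theorem rLow_polyLow {θ : ℝ} (B : RLow θ) : PolyLow θ := by
  intro ε hε δ hδ
  obtain ⟨K, hK, hldp⟩ := pw_ldp
  filter_upwards [B ε hε (δ / 2) (by linarith), ev_log (2 * K) 0 hδ,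
    ev_pow 4 (show δ / 2 < δ by linarith), eventually_ge_atTop 2] with n hn1 hn2 hn3 hn5
  obtain ⟨k, hk, hkn, hR⟩ := hn1
  have hn0 : (0 : ℝ) < n := by exact_mod_cast (by omega : 0 < n)
  have hpos : 0 < (n : ℝ) ^ (θ - ε) := Real.rpow_pos_of_pos hn0 _
  have hk3 : 1 ≤ k := by
    have : (0 : ℝ) < k := hpos.trans_le hk
    exact_mod_cast this
  refine le_trans (Real.exp_le_exp.2 ?_) ((hldp n hn5 k hk3 hkn).1.trans (pw_anti (by omega) hk))
  linarith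

theorem polyLow_rLow {θ : ℝ} (hθ1 : θ < 1) (B : PolyLow θ) : RLow θ := by
  intro ε hε δ hδ
  obtain ⟨K, hK, hldp⟩ := pw_ldp
  filter_upwards [B ε hε (δ / 2) (by linarith), ev_log K 0 hδ,
    ev_pow 1 (show δ / 2 < δ by linarith), ev_pow 4 (show θ - ε < 1 by linarith),
    ev_pow 4 (show (0 : ℝ) < 1 by norm_num), eventually_ge_atTop 2] with n hn1 hn2 hn3 hn4 hn4' hn5
  have hn0 : (0 : ℝ) < n := by exact_mod_cast (by omega : 0 < n)
  rw [Real.rpow_one] at hn4 hn4'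
  rw [Real.rpow_zero, mul_one] at hn4'
  obtain ⟨k, hk⟩ : ∃ k, k = ⌈(n : ℝ) ^ (θ - ε)⌉₊ := ⟨_, rfl⟩
  have hpos : 0 < (n : ℝ) ^ (θ - ε) := Real.rpow_pos_of_pos hn0 _
  have hk1 : (n : ℝ) ^ (θ - ε) ≤ k := by rw [hk]; exact Nat.le_ceil _
  have hk2 : (k : ℝ) < (n : ℝ) ^ (θ - ε) + 1 := by rw [hk]; exact Nat.ceil_lt_add_one hpos.le
  have hk3 : 1 ≤ k := by
    have : (0 : ℝ) < k := hpos.trans_le hk1
    exact_mod_cast this
  have hkn : k < n := by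
    have : (k : ℝ) < n := by linarith
    exact_mod_cast this
  refine ⟨k, hk1, hkn, ?_⟩
  rw [pw_ceil, ← hk] at hn1
  have h1 := Real.exp_le_exp.1 (hn1.trans (hldp n hn5 k hk3 hkn).2)
  linarith

/-- the mean width against the tail -/
theorem mw_le {n : ℕ} (hn : 1 ≤ n) {r : ℝ} (hr : 0 ≤ r)
    (hl : 0 < ({f : ZMod (2 * n) → ℤ × ℤ | IsLoop (2 * n) f}.ncard : ℝ)) :
    mw n ≤ r + 2 * n * pw n r := by
  have hfin := loops_finite hn
  unfold mw pw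
  rw [div_le_iff₀ hl, finsum_mem_eq_finite_toFinset_sum _ hfin]
  have h1 : ∀ f ∈ hfin.toFinset, (width (2 * n) f : ℝ) ≤
      r + (if r ≤ width (2 * n) f then 2 * (n : ℝ) else 0) := by
    intro f hf
    rw [Set.Finite.mem_toFinset] at hf
    have h2 := width_le hn hf
    split_ifs with h3
    · have : (width (2 * n) f : ℝ) ≤ 2 * n := by exact_mod_cast h2
      linarith
    · push Not at h3
      linarith
  refine (Finset.sum_le_sum h1).trans ?_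
  rw [Finset.sum_add_distrib, Finset.sum_const, nsmul_eq_mul, ← Finset.sum_filter,
    Finset.sum_const, nsmul_eq_mul]
  have e1 : (hfin.toFinset.card : ℝ) =
      ({f : ZMod (2 * n) → ℤ × ℤ | IsLoop (2 * n) f}.ncard : ℝ) := by
    rw [Set.ncard_eq_toFinset_card _ hfin]
  have e2 : ((hfin.toFinset.filter (fun f => r ≤ (width (2 * n) f : ℝ))).card : ℝ) =
      ({f : ZMod (2 * n) → ℤ × ℤ | IsLoop (2 * n) f ∧ r ≤ width (2 * n) f}.ncard : ℝ) := by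
    rw [← Set.ncard_coe_finset]
    congr 2
    ext f
    simp
  rw [e1, e2]
  apply le_of_eq
  field_simp

theorem polyUp_mw {θ : ℝ} (hθ : 0 < θ) (A : PolyUp θ) :
    ∀ ε : ℝ, 0 < ε → ∀ᶠ n : ℕ in atTop, mw n ≤ (n : ℝ) ^ (θ + ε) := by
  intro ε hε
  obtain ⟨δ, hδ, hA⟩ := A (ε / 2) (by linarith)
  obtain ⟨K0, -, hw⟩ := width_law
  have hlog : ∀ᶠ n : ℕ in atTop, Real.log n ≤ (n : ℝ) ^ δ := by
    have h1 := (isLittleO_log_rpow_atTop hδ).bound (show (0 : ℝ) < 1 by norm_num)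
    have h2 := tendsto_natCast_atTop_atTop (R := ℝ) |>.eventually h1
    filter_upwards [h2, eventually_ge_atTop 1] with n hn hn1
    rw [one_mul, Real.norm_eq_abs, Real.norm_eq_abs] at hn
    have hn0 : (0 : ℝ) ≤ n := Nat.cast_nonneg _
    rw [abs_of_nonneg (Real.rpow_nonneg hn0 _)] at hn
    exact (le_abs_self _).trans hn
  filter_upwards [hA, hlog, ev_pow 2 (show θ + ε / 2 < θ + ε by linarith),
    ev_pow 4 (show (0 : ℝ) < θ + ε by linarith), eventually_ge_atTop 2] with n hn1 hn2 hn3 hn4 hn5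
  have hn0 : (0 : ℝ) < n := by exact_mod_cast (by omega : 0 < n)
  obtain ⟨hl, -⟩ := hw n hn5 1 le_rfl (by omega)
  have h1 := mw_le (n := n) (by omega) (r := (n : ℝ) ^ (θ + ε / 2)) (Real.rpow_nonneg hn0.le _) hl
  have h2 : pw n ((n : ℝ) ^ (θ + ε / 2)) ≤ 1 / n := by
    refine hn1.trans ?_
    rw [one_div, ← Real.exp_log (inv_pos.2 hn0), Real.log_inv]
    exact Real.exp_le_exp.2 (by linarith)
  have h3 : 2 * (n : ℝ) * pw n ((n : ℝ) ^ (θ + ε / 2)) ≤ 2 := by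
    calc 2 * (n : ℝ) * pw n ((n : ℝ) ^ (θ + ε / 2)) ≤ 2 * n * (1 / n) :=
          mul_le_mul_of_nonneg_left h2 (by positivity)
      _ = 2 := by field_simp
  rw [Real.rpow_zero, mul_one] at hn4
  linarith

end Pool.Agent.Y981.L2
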