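import Pool.Agent.Y981.L2.Area3

/-!
The tail of the area of the self-avoiding polygons.
-/

set_option autoImplicit false

namespace Pool.Agent.Y981.L2

open Pool.Agent.TH795.EP Pool.Agent.TH795.EP2 Pool.Agent.TH795.SE2 Pool.Agent.TH262.SawL H981 Finset Filter Topology

theorem cs_odd {k m : ℕ} (h : 0 < cs k m) : m % 2 = 1 := by
  unfold cs at h
  obtain ⟨w, hw⟩ := Finset.card_pos.1 h
  rw [mem_fs] at hw
  obtain ⟨⟨-, hadj, -⟩, hl⟩ := hw
  have h1 := parity w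
  rcases abs_cases (dx w) with h2 | h2 <;> rcases abs_cases (dy w) with h3 | h3 <;> omega

/-- pairs of left half loops -/
theorem pair_bound : ∃ K : ℝ, 0 ≤ K ∧ ∀ n : ℕ, 1 ≤ n → ∀ k : ℕ, 1 ≤ k → ∀ m m' : ℕ,
    m + m' ≤ 2 * n →
    (ll k m : ℝ) * ll k m' * mu ^ (2 * n - (m + m')) ≤ q (2 * n) K * cs' k (2 * n - 1) := by
  obtain ⟨K, hK, hup, hlow⟩ := exists_K
  refine ⟨4 * K + (K + 21) + 36, by positivity, ?_⟩
  intro n hn k hk m m' hmm
  obtain ⟨N, hN⟩ : ∃ N, N = 2 * n := ⟨_, rfl⟩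
  rw [← hN] at hmm ⊢
  have hN2 : 2 ≤ N := by omega
  have hmu := mu_pos
  have hpair : (ll k m : ℝ) * ll k m' ≤ ∑ p ∈ Ix m m', (cs k (p.2.2 + p.1.2) : ℝ) *
      ((c p.1.1 * c (m - p.1.1 - p.1.2)) * (c p.2.1 * c (m' - p.2.1 - p.2.2))) := by
    exact_mod_cast pair_le hk m m'
  have hA : (0 : ℝ) ≤ cs' k (N - 1) := Nat.cast_nonneg _
  have hterm : ∀ p ∈ Ix m m', (cs k (p.2.2 + p.1.2) : ℝ) *
      ((c p.1.1 * c (m - p.1.1 - p.1.2)) * (c p.2.1 * c (m' - p.2.1 - p.2.2))) *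
      mu ^ (N - (m + m')) ≤ q N (4 * K) * (4 * (q N (K + 21) * cs' k (N - 1))) := by
    rintro ⟨⟨j1, m2⟩, ⟨j3, m1⟩⟩ hp
    unfold Ix at hp
    rw [Finset.mem_filter] at hp
    obtain ⟨-, h1, h2⟩ := hp
    simp only at h1 h2 ⊢
    rcases Nat.eq_zero_or_pos (cs k (m1 + m2)) with h0 | h0
    · rw [h0, Nat.cast_zero, zero_mul, zero_mul]
      have := q_pos N (4 * K)
      have := q_pos N (K + 21)
      positivity
    · have hodd := cs_odd h0
      obtain ⟨j, hj⟩ : ∃ j, m1 + m2 + 2 * j = N - 1 := ⟨(N - 1 - (m1 + m2)) / 2, by omega⟩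
      have g1 := cs_lengthen hN2 hK (hlow N hN2) (k := k) (m := m1 + m2) (j := j) (by omega)
      rw [hj] at g1
      have hc : ∀ i ≤ N, (c i : ℝ) ≤ mu ^ i * q N K := fun i hi => hup N hN2 i hi
      have hc0 : ∀ i, (0 : ℝ) ≤ c i := fun i => Nat.cast_nonneg _
      have hq := q_pos N K
      have g2 : ((c j1 : ℝ) * c (m - j1 - m2)) * (c j3 * c (m' - j3 - m1)) ≤
          mu ^ (m + m' - (m1 + m2)) * q N (4 * K) := by
        calc ((c j1 : ℝ) * c (m - j1 - m2)) * (c j3 * c (m' - j3 - m1))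
            ≤ ((mu ^ j1 * q N K) * (mu ^ (m - j1 - m2) * q N K)) *
              ((mu ^ j3 * q N K) * (mu ^ (m' - j3 - m1) * q N K)) := by
              apply mul_le_mul _ _ (mul_nonneg (hc0 _) (hc0 _)) (by positivity)
              · exact mul_le_mul (hc _ (by omega)) (hc _ (by omega)) (hc0 _) (by positivity)
              · exact mul_le_mul (hc _ (by omega)) (hc _ (by omega)) (hc0 _) (by positivity)
          _ = (mu ^ j1 * mu ^ (m - j1 - m2) * mu ^ j3 * mu ^ (m' - j3 - m1)) *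
              ((q N K * q N K) * (q N K * q N K)) := by ring
          _ = _ := by
              rw [← pow_add, ← pow_add, ← pow_add, q_mul, q_mul]
              congr 2
              · omega
              · ring
      have h4 := mu_le_four
      calc (cs k (m1 + m2) : ℝ) * ((c j1 * c (m - j1 - m2)) * (c j3 * c (m' - j3 - m1))) *
            mu ^ (N - (m + m'))
          ≤ (cs k (m1 + m2) : ℝ) * (mu ^ (m + m' - (m1 + m2)) * q N (4 * K)) *
            mu ^ (N - (m + m')) := by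
            apply mul_le_mul_of_nonneg_right _ (pow_pos hmu _).le
            exact mul_le_mul_of_nonneg_left g2 (Nat.cast_nonneg _)
        _ = q N (4 * K) * ((cs k (m1 + m2) : ℝ) *
            (mu ^ (m + m' - (m1 + m2)) * mu ^ (N - (m + m')))) := by ring
        _ = q N (4 * K) * (((cs k (m1 + m2) : ℝ) * mu ^ (2 * j)) * mu) := by
            have e1 : m + m' - (m1 + m2) + (N - (m + m')) = 2 * j + 1 := by omega
            rw [← pow_add, mul_assoc (cs k (m1 + m2) : ℝ), ← pow_succ, e1]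
        _ ≤ q N (4 * K) * ((q N (K + 21) * cs' k (N - 1)) * 4) := by
            apply mul_le_mul_of_nonneg_left _ (q_pos _ _).le
            exact mul_le_mul g1 h4 hmu.le (mul_nonneg (q_pos _ _).le hA)
        _ = _ := by ring
  have hsum := Finset.sum_le_card_nsmul _ _ _ hterm
  rw [nsmul_eq_mul, ← Finset.sum_mul] at hsum
  have hn0 : (2 : ℝ) ≤ N := by exact_mod_cast hN2
  have hcard : (4 : ℝ) * ((Ix m m').card : ℝ) ≤ q N 36 := by
    have h1 : (Ix m m').card ≤ (N + 1) ^ 4 := by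
      unfold Ix
      refine (Finset.card_filter_le _ _).trans ?_
      rw [Finset.card_product, Finset.card_product, Finset.card_product, Finset.card_range,
        Finset.card_range]
      calc (m + 1) * (m + 1) * ((m' + 1) * (m' + 1)) ≤
            (N + 1) * (N + 1) * ((N + 1) * (N + 1)) := by gcongr <;> omega
        _ = _ := by ring
    have h2 : ((Ix m m').card : ℝ) ≤ ((N : ℝ) + 1) ^ 4 := by exact_mod_cast h1
    have h3 : (N : ℝ) + 1 ≤ (N : ℝ) ^ 2 := by nlinarith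
    have h4 : ((N : ℝ) + 1) ^ 4 ≤ (N : ℝ) ^ 8 := by
      calc ((N : ℝ) + 1) ^ 4 ≤ ((N : ℝ) ^ 2) ^ 4 := pow_le_pow_left₀ (by positivity) h3 4
        _ = _ := by ring
    have h5 : (4 : ℝ) ≤ (N : ℝ) ^ 2 := by nlinarith
    have h6 := pow_le_q hN2 12
    norm_num at h6
    calc (4 : ℝ) * ((Ix m m').card : ℝ) ≤ (N : ℝ) ^ 2 * (N : ℝ) ^ 8 :=
          mul_le_mul h5 (h2.trans h4) (Nat.cast_nonneg _) (by positivity)
      _ = (N : ℝ) ^ 10 := by ring
      _ ≤ (N : ℝ) ^ 12 := pow_le_pow_right₀ (by linarith) (by norm_num)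
      _ ≤ _ := h6
  have hQ1 := q_pos N (4 * K)
  have hQ2 := q_pos N (K + 21)
  calc (ll k m : ℝ) * ll k m' * mu ^ (N - (m + m')) ≤ _ :=
        (mul_le_mul_of_nonneg_right hpair (pow_pos hmu _).le).trans hsum
    _ = (4 * ((Ix m m').card : ℝ)) * ((q N (4 * K) * q N (K + 21)) * cs' k (N - 1)) := by ring
    _ ≤ q N 36 * ((q N (4 * K) * q N (K + 21)) * cs' k (N - 1)) :=
        mul_le_mul_of_nonneg_right hcard (by positivity)
    _ = ((q N (4 * K) * q N (K + 21)) * q N 36) * cs' k (N - 1) := by ring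
    _ = _ := by rw [q_mul, q_mul]

/-- four half-plane walks make a polygon around a square -/
theorem four_bound : ∃ K : ℝ, 0 ≤ K ∧ ∀ n : ℕ, 1 ≤ n → ∀ k : ℕ, 1 ≤ k → ∀ m : ℕ,
    4 * m ≤ 2 * n →
    (la m k 0 : ℝ) ^ 4 * mu ^ (2 * n - 4 * m) ≤ q (2 * n) K * cs' k (2 * n - 1) := by
  obtain ⟨K1, hK1, hpb⟩ := pair_bound
  obtain ⟨K, hK, hup, hlow⟩ := exists_K
  refine ⟨4 * K + K1 + 24, by positivity, ?_⟩
  intro n hn k hk m hm
  obtain ⟨N, hN⟩ : ∃ N, N = 2 * n := ⟨_, rfl⟩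
  have hpb' := hpb n hn k hk
  rw [← hN] at hm hpb' ⊢
  have hN2 : 2 ≤ N := by omega
  have hmu := mu_pos
  have hA : (0 : ℝ) ≤ cs' k (N - 1) := Nat.cast_nonneg _
  have hq := q_pos N K
  have hc : ∀ i ≤ N, (c i : ℝ) ≤ mu ^ i * q N K := fun i hi => hup N hN2 i hi
  have hc0 : ∀ i, (0 : ℝ) ≤ c i := fun i => Nat.cast_nonneg _
  obtain ⟨S, hS⟩ : ∃ S, S = range (m + 1) ×ˢ range (m + 1) := ⟨_, rfl⟩
  have h1 : (la m k 0 : ℝ) ^ 2 ≤ ∑ p ∈ S, (ll k (p.1 + (m - p.2)) : ℝ) *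
      (mu ^ (m - p.1 + p.2) * q N (2 * K)) := by
    have h2 : (la m k 0 : ℝ) * la m k 0 ≤ ∑ p ∈ S,
        (ll k (p.1 + (m - p.2)) : ℝ) * (c (m - p.1) * c p.2) := by
      rw [hS]; exact_mod_cast sq_la_le m k
    rw [sq]
    refine h2.trans (Finset.sum_le_sum ?_)
    intro p hp
    rw [hS, Finset.mem_product, Finset.mem_range, Finset.mem_range] at hp
    apply mul_le_mul_of_nonneg_left _ (Nat.cast_nonneg _)
    calc (c (m - p.1) : ℝ) * c p.2 ≤ (mu ^ (m - p.1) * q N K) * (mu ^ p.2 * q N K) :=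
          mul_le_mul (hc _ (by omega)) (hc _ (by omega)) (hc0 _) (by positivity)
      _ = (mu ^ (m - p.1) * mu ^ p.2) * (q N K * q N K) := by ring
      _ = _ := by rw [← pow_add, q_mul, two_mul]
  have h3 : (la m k 0 : ℝ) ^ 4 * mu ^ (N - 4 * m) ≤ ∑ p ∈ S, ∑ p' ∈ S,
      (((ll k (p.1 + (m - p.2)) : ℝ) * (mu ^ (m - p.1 + p.2) * q N (2 * K))) *
      ((ll k (p'.1 + (m - p'.2)) : ℝ) * (mu ^ (m - p'.1 + p'.2) * q N (2 * K)))) *
      mu ^ (N - 4 * m) := by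
    have h4 : (la m k 0 : ℝ) ^ 4 = (la m k 0 : ℝ) ^ 2 * (la m k 0 : ℝ) ^ 2 := by ring
    rw [h4]
    have h5 := mul_le_mul h1 h1 (by positivity) ((sq_nonneg _).trans h1)
    refine (mul_le_mul_of_nonneg_right h5 (pow_pos hmu _).le).trans (le_of_eq ?_)
    rw [Finset.sum_mul_sum, Finset.sum_mul]
    apply Finset.sum_congr rfl
    intro p _
    rw [Finset.sum_mul]
  have hterm : ∀ p ∈ S, ∀ p' ∈ S,
      (((ll k (p.1 + (m - p.2)) : ℝ) * (mu ^ (m - p.1 + p.2) * q N (2 * K))) *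
      ((ll k (p'.1 + (m - p'.2)) : ℝ) * (mu ^ (m - p'.1 + p'.2) * q N (2 * K)))) *
      mu ^ (N - 4 * m) ≤ q N (4 * K) * (q N K1 * cs' k (N - 1)) := by
    intro p hp p' hp'
    rw [hS, Finset.mem_product, Finset.mem_range, Finset.mem_range] at hp hp'
    obtain ⟨e, he⟩ : ∃ e, e = p.1 + (m - p.2) := ⟨_, rfl⟩
    obtain ⟨e', he'⟩ : ∃ e', e' = p'.1 + (m - p'.2) := ⟨_, rfl⟩
    rw [← he, ← he']
    have h6 := hpb' e e' (by omega)
    have h7 : mu ^ (m - p.1 + p.2) * mu ^ (m - p'.1 + p'.2) * mu ^ (N - 4 * m) =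
        mu ^ (N - (e + e')) := by
      rw [← pow_add, ← pow_add]
      congr 1
      omega
    calc (((ll k e : ℝ) * (mu ^ (m - p.1 + p.2) * q N (2 * K))) *
          ((ll k e' : ℝ) * (mu ^ (m - p'.1 + p'.2) * q N (2 * K)))) * mu ^ (N - 4 * m)
        = (q N (2 * K) * q N (2 * K)) * ((ll k e : ℝ) * ll k e' *
          (mu ^ (m - p.1 + p.2) * mu ^ (m - p'.1 + p'.2) * mu ^ (N - 4 * m))) := by ring
      _ = q N (4 * K) * ((ll k e : ℝ) * ll k e' * mu ^ (N - (e + e'))) := by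
          rw [h7, q_mul]
          congr 2
          ring
      _ ≤ _ := mul_le_mul_of_nonneg_left h6 (q_pos _ _).le
  have h8 : ∑ p ∈ S, ∑ p' ∈ S,
      (((ll k (p.1 + (m - p.2)) : ℝ) * (mu ^ (m - p.1 + p.2) * q N (2 * K))) *
      ((ll k (p'.1 + (m - p'.2)) : ℝ) * (mu ^ (m - p'.1 + p'.2) * q N (2 * K)))) *
      mu ^ (N - 4 * m) ≤ S.card • (S.card • (q N (4 * K) * (q N K1 * cs' k (N - 1)))) := by
    apply Finset.sum_le_card_nsmul
    intro p hp
    apply Finset.sum_le_card_nsmul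
    intro p' hp'
    exact hterm p hp p' hp'
  rw [nsmul_eq_mul, nsmul_eq_mul] at h8
  have hn0 : (2 : ℝ) ≤ N := by exact_mod_cast hN2
  have hcard : ((S.card : ℝ)) * S.card ≤ q N 24 := by
    have g1 : S.card ≤ (N + 1) ^ 2 := by
      rw [hS, Finset.card_product, Finset.card_range, sq]
      apply Nat.mul_le_mul <;> omega
    have g2 : (S.card : ℝ) ≤ ((N : ℝ) + 1) ^ 2 := by exact_mod_cast g1
    have g3 : (N : ℝ) + 1 ≤ (N : ℝ) ^ 2 := by nlinarith
    have g4 : (S.card : ℝ) ≤ (N : ℝ) ^ 4 := by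
      refine g2.trans ?_
      calc ((N : ℝ) + 1) ^ 2 ≤ ((N : ℝ) ^ 2) ^ 2 := pow_le_pow_left₀ (by positivity) g3 2
        _ = _ := by ring
    have g5 := pow_le_q hN2 8
    norm_num at g5
    calc (S.card : ℝ) * S.card ≤ (N : ℝ) ^ 4 * (N : ℝ) ^ 4 :=
          mul_le_mul g4 g4 (Nat.cast_nonneg _) (by positivity)
      _ = (N : ℝ) ^ 8 := by ring
      _ ≤ _ := g5
  have hQ1 := q_pos N (4 * K)
  have hQ2 := q_pos N K1
  calc (la m k 0 : ℝ) ^ 4 * mu ^ (N - 4 * m) ≤ _ := h3.trans h8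
    _ = ((S.card : ℝ) * S.card) * ((q N (4 * K) * q N K1) * cs' k (N - 1)) := by ring
    _ ≤ q N 24 * ((q N (4 * K) * q N K1) * cs' k (N - 1)) :=
        mul_le_mul_of_nonneg_right hcard (by positivity)
    _ = ((q N (4 * K) * q N K1) * q N 24) * cs' k (N - 1) := by ring
    _ = _ := by rw [q_mul, q_mul]

/-- the number of loops against `mu` -/
theorem ln_le : ∃ K : ℝ, 0 ≤ K ∧ ∀ n : ℕ, 2 ≤ n → 0 < (ln n : ℝ) ∧
    (ln n : ℝ) ≤ mu ^ (2 * n) * q n K := by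
  obtain ⟨K3, hK3, hPP⟩ := Pool.Agent.TH508.LT.sq_PP2
  refine ⟨K3 + 9, by positivity, ?_⟩
  intro n hn
  have hn0 : (0 : ℝ) < n := by exact_mod_cast (by omega : 0 < n)
  have hn2 : (2 : ℝ) ≤ n := by exact_mod_cast hn
  have hmu := mu_pos
  obtain ⟨p1, p2⟩ := hPP n hn
  have hmun : 0 < mu ^ (2 * n) := pow_pos hmu _
  have hln := ln_eq (show 1 ≤ n by omega)
  have hP0 : 0 < PP n := lt_of_lt_of_le (by positivity) p1
  have hl0 : (0 : ℝ) < ln n := by rw [hln]; positivity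
  refine ⟨hl0, ?_⟩
  have h1 : (4 : ℝ) * n ≤ q n 9 := by
    have h2 := pow_le_q hn 3
    norm_num at h2
    refine le_trans ?_ h2
    nlinarith [sq_nonneg ((n : ℝ) - 2)]
  rw [hln]
  calc (4 * n : ℝ) * PP n ≤ q n 9 * (mu ^ (2 * n) * q n K3) := by
        apply mul_le_mul h1 _ hP0.le (q_pos _ _).le
        exact p2
    _ = mu ^ (2 * n) * (q n K3 * q n 9) := by ring
    _ = _ := by rw [q_mul]

/-- the proportion of the polygons with area at least `r` -/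
noncomputable def par (n : ℕ) (r : ℝ) : ℝ :=
  ({f : ZMod (2 * n) → ℤ × ℤ | IsLoop (2 * n) f ∧ r ≤ area (2 * n) f}.ncard : ℝ) /
    ({f : ZMod (2 * n) → ℤ × ℤ | IsLoop (2 * n) f}.ncard : ℝ)

theorem par_nat (n A : ℕ) : par n A = (an n A : ℝ) / ln n := by
  unfold par an ln
  simp only [Nat.cast_le]

/-- **lower bound for the tail of the area** -/
theorem area_lower : ∃ K : ℝ, 0 ≤ K ∧ ∀ n : ℕ, 2 ≤ n → ∀ k : ℕ, 1 ≤ k → 2 * k < n →
    Real.exp (-(2 * (n * R (2 * k / n)) + K * Real.log n ^ 2)) ≤ par n ((k : ℝ) ^ 2) := by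
  obtain ⟨K1, hK1, hfour⟩ := four_bound
  obtain ⟨K2, hK2, hla⟩ := a_le_la
  obtain ⟨K3, hK3, hsh⟩ := shorten
  obtain ⟨K4, hK4, hldp⟩ := ldp_words
  obtain ⟨K5, hK5, hln⟩ := ln_le
  refine ⟨16 * (K1 + 4 * K2 + 4 * K3) + 64 * K4 + 2 * K5, by positivity, ?_⟩
  intro n hn k hk hkn
  obtain ⟨h, hh1, hh2, hh3⟩ : ∃ h : ℕ, n ≤ 2 * h ∧ 2 * h < n + 4 ∧ (h + k) % 2 = 0 := by
    rcases Nat.even_or_odd ((n + 1) / 2 + k) with he | he
    · rw [Nat.even_iff] at he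
      exact ⟨(n + 1) / 2, by omega, by omega, he⟩
    · rw [Nat.odd_iff] at he
      exact ⟨(n + 1) / 2 + 1, by omega, by omega, by omega⟩
  have hh4 : k < h := by omega
  have hN2 : 2 ≤ 2 * n := by omega
  have hmu := mu_pos
  have hmu1 := one_le_mu
  have hn0 : (0 : ℝ) < n := by exact_mod_cast (by omega : 0 < n)
  have hk0 : (0 : ℝ) < k := by exact_mod_cast hk
  have hlog := log_pos' hn
  have hne : (((k : ℤ), 0) : ℤ × ℤ) ≠ (0, 0) := by
    intro h
    have := (Prod.mk.inj h).1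
    omega
  -- four pieces
  have s1 := hfour n (by omega) k hk (h - 2) (by omega)
  have s2 := hla (2 * n) hN2 (h - 2) (by omega) k (by omega)
  have s3 := hsh (2 * n) hN2 h (by omega) k 0 hne (by
    rw [abs_zero, abs_of_nonneg (by omega : (0 : ℤ) ≤ k)]; omega)
  have hq2 := q_pos (2 * n) K2
  have hq3 := q_pos (2 * n) K3
  have hq1 := q_pos (2 * n) K1
  have s4 : (a h k 0 : ℝ) ≤ q (2 * n) (K2 + K3) * la (h - 2) k 0 := by
    calc (a h k 0 : ℝ) ≤ q (2 * n) K3 * (q (2 * n) K2 * la (h - 2) k 0) :=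
          s3.trans (mul_le_mul_of_nonneg_left s2 hq3.le)
      _ = (q (2 * n) K2 * q (2 * n) K3) * la (h - 2) k 0 := by ring
      _ = _ := by rw [q_mul]
  -- large deviations
  have hlead : mu ^ h * Real.exp (-(h * R ((k : ℝ) / h) + K4 * Real.log h ^ 2)) ≤ a h k 0 := by
    have h2 : 2 ≤ h := by omega
    have g1 := hldp h h2 k 0 hne (by omega) (by
      rw [abs_zero, abs_of_nonneg (by omega : (0 : ℤ) ≤ k)]; omega)
    have g2 := one_le_a (n := h) (x := k) (y := 0) hne (by omega) (by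
      rw [abs_zero, abs_of_nonneg (by omega : (0 : ℤ) ≤ k)]; omega)
    have g3 : (0 : ℝ) < a h k 0 := by exact_mod_cast g2
    have g4 := c_pos h
    have g5 := (abs_le.1 g1).1
    have g6 : Real.exp (-(h * R ((k : ℝ) / h) + K4 * Real.log h ^ 2)) ≤ (a h k 0 : ℝ) / c h := by
      rw [← Real.le_log_iff_exp_le (div_pos g3 g4)]
      unfold R
      push_cast at g5
      rw [zero_div] at g5
      linarith
    rw [le_div_iff₀ g4] at g6
    have g7 : mu ^ h ≤ c h := by rw [c_eq]; exact mu_pow_le h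
    calc mu ^ h * Real.exp (-(h * R ((k : ℝ) / h) + K4 * Real.log h ^ 2))
        ≤ c h * Real.exp (-(h * R ((k : ℝ) / h) + K4 * Real.log h ^ 2)) :=
          mul_le_mul_of_nonneg_right g7 (Real.exp_pos _).le
      _ ≤ _ := by linarith
  -- the exponent
  have hh0 : (0 : ℝ) < h := by exact_mod_cast (by omega : 0 < h)
  have hhn : (n : ℝ) ≤ 2 * h := by exact_mod_cast hh1
  have hkn' : 2 * (k : ℝ) / n ≤ 1 := by
    rw [div_le_one hn0]
    exact_mod_cast hkn.le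
  have hR : h * R ((k : ℝ) / h) ≤ (n : ℝ) / 2 * R (2 * k / n) := by
    have g1 := R_smul (v := 2 * (k : ℝ) / n) (t := (n : ℝ) / (2 * h)) (by positivity) hkn'
      (by positivity) (by rw [div_le_one (by positivity)]; exact hhn)
    have e1 : (n : ℝ) / (2 * h) * (2 * k / n) = k / h := by field_simp
    rw [e1] at g1
    calc h * R ((k : ℝ) / h) ≤ h * ((n : ℝ) / (2 * h) * R (2 * k / n)) :=
          mul_le_mul_of_nonneg_left g1 hh0.le
      _ = _ := by field_simp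
  have hlogh : Real.log h ≤ 2 * Real.log n := by
    have : (h : ℝ) ≤ (2 * n : ℕ) := by exact_mod_cast (by omega : h ≤ 2 * n)
    exact (Real.log_le_log hh0 this).trans (log_two_mul hn)
  have hlogh0 : 0 ≤ Real.log h := (log_pos' (show 2 ≤ h by omega)).le
  have hlogh4 : Real.log h ^ 2 ≤ 16 * Real.log n ^ 2 := by
    calc Real.log h ^ 2 ≤ (2 * Real.log n) ^ 2 := pow_le_pow_left₀ hlogh0 hlogh 2
      _ ≤ _ := by nlinarith [sq_nonneg (Real.log (n : ℝ))]
  obtain ⟨E, hE⟩ : ∃ E : ℝ, E = 2 * (n * R (2 * k / n)) + 64 * K4 * Real.log n ^ 2 := ⟨_, rfl⟩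
  have t1 : mu ^ (4 * h) * Real.exp (-E) ≤ (a h k 0 : ℝ) ^ 4 := by
    have g1 := pow_le_pow_left₀ (by positivity) hlead 4
    refine le_trans ?_ g1
    rw [mul_pow, ← pow_mul, mul_comm h 4, ← Real.exp_nat_mul]
    apply mul_le_mul_of_nonneg_left _ (pow_pos hmu _).le
    apply Real.exp_le_exp.2
    rw [hE]
    push_cast
    have g2 := mul_le_mul_of_nonneg_left hlogh4 hK4
    linarith
  have t2 : (a h k 0 : ℝ) ^ 4 * mu ^ (2 * n - 4 * (h - 2)) ≤
      q (2 * n) (K1 + 4 * K2 + 4 * K3) * cs' k (2 * n - 1) := by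
    have g1 := pow_le_pow_left₀ (Nat.cast_nonneg _) s4 4
    have g2 : q (2 * n) (K2 + K3) ^ 4 = q (2 * n) (4 * (K2 + K3)) := by
      unfold q
      rw [← Real.exp_nat_mul]
      congr 1
      push_cast
      ring
    calc (a h k 0 : ℝ) ^ 4 * mu ^ (2 * n - 4 * (h - 2))
        ≤ (q (2 * n) (K2 + K3) * la (h - 2) k 0) ^ 4 * mu ^ (2 * n - 4 * (h - 2)) :=
          mul_le_mul_of_nonneg_right g1 (pow_pos hmu _).le
      _ = q (2 * n) (4 * (K2 + K3)) * ((la (h - 2) k 0 : ℝ) ^ 4 * mu ^ (2 * n - 4 * (h - 2))) := by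
          rw [mul_pow, g2]; ring
      _ ≤ q (2 * n) (4 * (K2 + K3)) * (q (2 * n) K1 * cs' k (2 * n - 1)) :=
          mul_le_mul_of_nonneg_left s1 (q_pos _ _).le
      _ = (q (2 * n) (4 * (K2 + K3)) * q (2 * n) K1) * cs' k (2 * n - 1) := by ring
      _ = _ := by rw [q_mul]; congr 2; ring
  have t3 : mu ^ (2 * n) * Real.exp (-E) ≤
      q (2 * n) (K1 + 4 * K2 + 4 * K3) * cs' k (2 * n - 1) := by
    refine le_trans ?_ t2
    calc mu ^ (2 * n) * Real.exp (-E) ≤ mu ^ (4 * h + (2 * n - 4 * (h - 2))) * Real.exp (-E) := by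
          apply mul_le_mul_of_nonneg_right _ (Real.exp_pos _).le
          exact pow_le_pow_right₀ hmu1 (by omega)
      _ = (mu ^ (4 * h) * Real.exp (-E)) * mu ^ (2 * n - 4 * (h - 2)) := by rw [pow_add]; ring
      _ ≤ _ := mul_le_mul_of_nonneg_right t1 (pow_pos hmu _).le
  have t4 : (cs' k (2 * n - 1) : ℝ) ≤ an n (k ^ 2) := by exact_mod_cast cs_le_an (by omega) k
  obtain ⟨l0, l1⟩ := hln n hn
  have e1 : ((k : ℝ) ^ 2) = ((k ^ 2 : ℕ) : ℝ) := by push_cast; ring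
  rw [e1, par_nat, le_div_iff₀ l0]
  have q1 : q (2 * n) (K1 + 4 * K2 + 4 * K3) ≤ q4 n (16 * (K1 + 4 * K2 + 4 * K3)) := by
    unfold q q4
    apply Real.exp_le_exp.2
    have g1 := pow_le_pow_left₀ (log_pos' hN2).le (log_two_mul hn) 2
    have g2 : Real.log (n : ℝ) ^ 2 ≤ 2 * Real.log n ^ 2 := (pow_le_four hn).1
    have g3 : Real.log ((2 * n : ℕ) : ℝ) ^ 2 ≤ 16 * Real.log n ^ 2 := by
      refine g1.trans ?_
      calc (2 * Real.log (n : ℝ)) ^ 2 = 4 * Real.log n ^ 2 := by ring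
        _ ≤ _ := by nlinarith [sq_nonneg (Real.log (n : ℝ))]
    have g4 := mul_le_mul_of_nonneg_left g3 (by positivity : 0 ≤ K1 + 4 * K2 + 4 * K3)
    linarith
  have q2 : q n K5 ≤ q4 n (2 * K5) := q_le_q4 hn hK5
  have hQ1 := q4_pos n (16 * (K1 + 4 * K2 + 4 * K3))
  have hX : Real.exp (-(2 * (n * R (2 * k / n)) +
      (16 * (K1 + 4 * K2 + 4 * K3) + 64 * K4 + 2 * K5) * Real.log n ^ 2)) =
      Real.exp (-E) * Real.exp (-((16 * (K1 + 4 * K2 + 4 * K3)) * Real.log n ^ 2)) *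
      Real.exp (-(2 * K5 * Real.log n ^ 2)) := by
    rw [hE, ← Real.exp_add, ← Real.exp_add]
    congr 1
    ring
  rw [hX]
  have c1 : Real.exp (-(2 * K5 * Real.log n ^ 2)) * (ln n : ℝ) ≤ mu ^ (2 * n) := by
    calc Real.exp (-(2 * K5 * Real.log n ^ 2)) * (ln n : ℝ)
        ≤ Real.exp (-(2 * K5 * Real.log n ^ 2)) * (mu ^ (2 * n) * q4 n (2 * K5)) := by
          apply mul_le_mul_of_nonneg_left _ (Real.exp_pos _).le
          exact l1.trans (mul_le_mul_of_nonneg_left q2 (pow_pos hmu _).le)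
      _ = (Real.exp (-(2 * K5 * Real.log n ^ 2)) * q4 n (2 * K5)) * mu ^ (2 * n) := by ring
      _ = _ := by
          unfold q4
          rw [← Real.exp_add, neg_add_cancel, Real.exp_zero, one_mul]
  have c2 : Real.exp (-((16 * (K1 + 4 * K2 + 4 * K3)) * Real.log n ^ 2)) *
      (mu ^ (2 * n) * Real.exp (-E)) ≤ cs' k (2 * n - 1) := by
    calc Real.exp (-((16 * (K1 + 4 * K2 + 4 * K3)) * Real.log n ^ 2)) *
          (mu ^ (2 * n) * Real.exp (-E))
        ≤ Real.exp (-((16 * (K1 + 4 * K2 + 4 * K3)) * Real.log n ^ 2)) *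
          (q4 n (16 * (K1 + 4 * K2 + 4 * K3)) * cs' k (2 * n - 1)) := by
          apply mul_le_mul_of_nonneg_left _ (Real.exp_pos _).le
          exact t3.trans (mul_le_mul_of_nonneg_right q1 (Nat.cast_nonneg _))
      _ = (Real.exp (-((16 * (K1 + 4 * K2 + 4 * K3)) * Real.log n ^ 2)) *
          q4 n (16 * (K1 + 4 * K2 + 4 * K3))) * cs' k (2 * n - 1) := by ring
      _ = _ := by
          unfold q4
          rw [← Real.exp_add, neg_add_cancel, Real.exp_zero, one_mul]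
  calc Real.exp (-E) * Real.exp (-((16 * (K1 + 4 * K2 + 4 * K3)) * Real.log n ^ 2)) *
        Real.exp (-(2 * K5 * Real.log n ^ 2)) * (ln n : ℝ)
      = (Real.exp (-E) * Real.exp (-((16 * (K1 + 4 * K2 + 4 * K3)) * Real.log n ^ 2))) *
        (Real.exp (-(2 * K5 * Real.log n ^ 2)) * (ln n : ℝ)) := by ring
    _ ≤ (Real.exp (-E) * Real.exp (-((16 * (K1 + 4 * K2 + 4 * K3)) * Real.log n ^ 2))) *
        mu ^ (2 * n) := mul_le_mul_of_nonneg_left c1 (by positivity)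
    _ = Real.exp (-((16 * (K1 + 4 * K2 + 4 * K3)) * Real.log n ^ 2)) *
        (mu ^ (2 * n) * Real.exp (-E)) := by ring
    _ ≤ _ := c2.trans t4

end Pool.Agent.Y981.L2
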