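import Pool.Agent.Y981.L2.Cut

/-!
The number of self-avoiding words with given ends is log-concave up to quasi-polynomial factors.
-/

set_option autoImplicit false

namespace Pool.Agent.Y981.L2

open Pool.Agent.TH795.EP Pool.Agent.TH795.EP2 Pool.Agent.TH795.SE2 Pool.Agent.TH262.SawL H981 Finset

theorem clog_le {n : ℕ} (hn : 2 ≤ n) : (6 * (Nat.clog 2 n : ℝ) + 2) ≤ 21 * Real.log n := by
  have h1 : Real.log 2 ≤ Real.log n := log_ge hn
  have h2 := Real.log_two_gt_d9
  have hc : 1 ≤ Nat.clog 2 n := Nat.clog_pos (by norm_num) hn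
  have h3 : 2 ^ (Nat.clog 2 n - 1) < n := Nat.pow_pred_clog_lt_self (by norm_num) (by omega)
  have h4 : Real.log ((2 : ℝ) ^ (Nat.clog 2 n - 1)) ≤ Real.log n := by
    apply Real.log_le_log (by positivity)
    exact_mod_cast h3.le
  rw [Real.log_pow, Nat.cast_sub hc] at h4
  push_cast at h4
  nlinarith

theorem log_two_n {n : ℕ} (hn : 2 ≤ n) : Real.log (2 * (n : ℝ) + 1) ≤ 3 * Real.log n := by
  have hn0 : (2 : ℝ) ≤ n := by exact_mod_cast hn
  have h1 : Real.log ((n : ℝ) ^ 3) = 3 * Real.log n := by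
    rw [Real.log_pow]; norm_num
  rw [← h1]
  apply Real.log_le_log (by linarith)
  nlinarith [mul_le_mul hn0 hn0 (by norm_num) (by linarith : (0 : ℝ) ≤ n)]

/-- **Quasi-log-concavity.** -/
theorem near_concave_cube : ∃ K : ℝ, 0 ≤ K ∧ ∀ n : ℕ, 2 ≤ n → ∀ (ι : Type) (_ : DecidableEq ι)
    (s : Finset ι) (y : ι → ℤ × ℤ) (α : ι → ℝ) (X Y : ℤ), (∀ i ∈ s, 0 < a n (y i).1 (y i).2) →
    (∀ i ∈ s, 0 ≤ α i) → ∑ i ∈ s, α i = 1 → ∑ i ∈ s, α i * ((y i).1 : ℝ) = X →
    ∑ i ∈ s, α i * ((y i).2 : ℝ) = Y → (X, Y) ≠ (0, 0) → (X + Y - n) % 2 = 0 →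
    0 < a n X Y ∧
    ∑ i ∈ s, α i * Real.log (a n (y i).1 (y i).2) ≤ Real.log (a n X Y) + K * Real.log n ^ 3 := by
  obtain ⟨K1, hK1, -, hlow⟩ := exists_K
  obtain ⟨K2, hK2, hglue⟩ := a_glue
  refine ⟨21 * K2 + 2 * K1 + 400, by positivity, ?_⟩
  intro n hn ι _ s y α X Y hpos hα hα1 hX hY hXY hpar
  have hlog := log_pos' hn
  have hlog2 : Real.log 2 ≤ Real.log n := log_ge hn
  have hl2 := Real.log_two_gt_d9
  set p : ι → ℕ × ℤ × ℤ := fun i => (n, (y i).1, (y i).2) with hp
  have hα2 : ∀ i ∈ s, 0 ≤ α i ∧ α i ≤ 1 := by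
    intro i hi
    refine ⟨hα i hi, ?_⟩
    rw [← hα1]
    exact Finset.single_le_sum (fun j hj => hα j hj) hi
  have hV : ∑ i ∈ s, α i • vec (p i) = ((n : ℝ), (X : ℝ), (Y : ℝ)) := by
    ext
    · simp only [Prod.fst_sum, vec, hp, Prod.smul_mk, smul_eq_mul]
      rw [← Finset.sum_mul, hα1, one_mul]
    · simp only [Prod.fst_sum, Prod.snd_sum, vec, hp, Prod.smul_mk, smul_eq_mul]
      exact hX
    · simp only [Prod.snd_sum, vec, hp, Prod.smul_mk, smul_eq_mul]
      exact hY
  obtain ⟨T, R, w', hT, hR, hR3, hw', hV', hF'⟩ := reduce (fun i => vec (p i))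
      (fun i => lg (p i)) _ s rfl α hα2
  rw [hV] at hV'
  have hokp : ∀ i ∈ s, Ok (p i) := hpos
  have hTc : T.card ≤ 1 := by
    have h1 := congrArg Prod.fst hV'
    simp only [Prod.fst_add, Prod.fst_sum, Prod.smul_fst, vec, hp, smul_eq_mul, Finset.sum_const,
      nsmul_eq_mul] at h1
    have h2 : 0 ≤ ∑ i ∈ R, w' i * (n : ℝ) :=
      Finset.sum_nonneg fun i hi => mul_nonneg (hw' i hi).1 (Nat.cast_nonneg _)
    have h3 : (T.card : ℝ) * n ≤ 1 * n := by linarith
    have hn0 : (0 : ℝ) < n := by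
      have : (2 : ℝ) ≤ n := by exact_mod_cast hn
      linarith
    have h4 := le_of_mul_le_mul_right h3 hn0
    exact_mod_cast h4
  have hparT : (2 : ℤ) ∣ ∑ z ∈ T, ((p z).2.1 + (p z).2.2 - (p z).1) := by
    apply Finset.dvd_sum
    intro z hz
    have := (hokp z (hT hz)).par
    omega
  rw [Finset.sum_sub_distrib, Finset.sum_add_distrib] at hparT
  have hVT : ∑ z ∈ R, w' z • vec (p z) = ((((n : ℤ) - ∑ z ∈ T, ((p z).1 : ℤ) : ℤ) : ℝ),
      ((X - ∑ z ∈ T, (p z).2.1 : ℤ) : ℝ), ((Y - ∑ z ∈ T, (p z).2.2 : ℤ) : ℝ)) := by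
    have e1 := eq_sub_of_add_eq' hV'
    rw [e1]
    push_cast
    ext
    · simp [Prod.fst_sum, vec]
    · simp [Prod.fst_sum, Prod.snd_sum, vec]
    · simp [Prod.snd_sum, vec]
  obtain ⟨L, r, e1, e2, c1, c2, c3, c4, c5, c6, c7, c8, c9⟩ := cut (n := n) (Nat.clog 2 n) ι
    inferInstance R p w'
    ((n : ℤ) - ∑ z ∈ T, ((p z).1 : ℤ)) (X - ∑ z ∈ T, (p z).2.1) (Y - ∑ z ∈ T, (p z).2.2) hR3
    (fun z hz => ⟨hokp z (hR hz), Nat.le_pow_clog (by norm_num) n, le_rfl⟩) hw' hVT (by
      have e : X - ∑ z ∈ T, (p z).2.1 + (Y - ∑ z ∈ T, (p z).2.2) -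
          ((n : ℤ) - ∑ z ∈ T, ((p z).1 : ℤ)) =
        (X + Y - n) - (∑ z ∈ T, (p z).2.1 + ∑ z ∈ T, (p z).2.2 - ∑ z ∈ T, ((p z).1 : ℤ)) := by
        ring
      rw [e]
      exact dvd_sub (Int.dvd_of_emod_eq_zero hpar) hparT)
  -- the list of all pieces without the remainder
  obtain ⟨M, hM⟩ : ∃ M, M = T.toList.map p ++ L := ⟨_, rfl⟩
  have hMlen : M.length ≤ 6 * Nat.clog 2 n + 1 := by
    rw [hM, List.length_append, List.length_map, Finset.length_toList]
    omega
  have hMok : ∀ q ∈ M, Ok q := by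
    intro q hq
    rw [hM, List.mem_append, List.mem_map] at hq
    rcases hq with ⟨z, hz, rfl⟩ | hq
    · exact hokp z (hT (Finset.mem_toList.1 hz))
    · exact c2 q hq
  have m1 : (((M.map (fun p => p.1)).sum : ℕ) : ℤ) + r = n := by
    rw [hM, List.map_append, List.map_map, List.sum_append, Finset.sum_map_toList, Nat.cast_add,
      Nat.cast_sum]
    simp only [Function.comp]
    linarith
  have m2 : (M.map (fun p => p.2.1)).sum + e1 = X := by
    rw [hM, List.map_append, List.map_map, List.sum_append, Finset.sum_map_toList]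
    simp only [Function.comp]
    linarith
  have m3 : (M.map (fun p => p.2.2)).sum + e2 = Y := by
    rw [hM, List.map_append, List.map_map, List.sum_append, Finset.sum_map_toList]
    simp only [Function.comp]
    linarith
  have m4 : ∑ i ∈ s, α i * Real.log (a n (y i).1 (y i).2) ≤ (M.map lg).sum +
      (6 * Nat.clog 2 n + 6) * Real.log (2 * (n : ℝ) + 1) := by
    rw [hM, List.map_append, List.map_map, List.sum_append, Finset.sum_map_toList]
    simp only [Function.comp]
    have : ∑ i ∈ s, α i * Real.log (a n (y i).1 (y i).2) = ∑ i ∈ s, α i * lg (p i) := rfl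
    rw [this]
    linarith
  have hrpar : (e1 + e2 - r) % 2 = 0 := by
    have h1 : (2 : ℤ) ∣ ((M.map (fun p => p.2.1)).sum + (M.map (fun p => p.2.2)).sum -
        (((M.map (fun p => p.1)).sum : ℕ) : ℤ)) := by
      clear m1 m2 m3 m4 hM hMlen
      induction M with
      | nil => simp
      | cons q M ih =>
        have h2 := ih (fun q' hq' => hMok q' (List.mem_cons_of_mem _ hq'))
        have h3 := (hMok q List.mem_cons_self).par
        simp only [List.map_cons, List.sum_cons]
        push_cast at h2 ⊢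
        omega
    omega
  have hcl := clog_le hn
  have hl3 := log_two_n hn
  have hsq : 1 ≤ 4 * Real.log n ^ 2 := by nlinarith
  have hsq4 : Real.log n ^ 2 ≤ 4 * Real.log n ^ 3 := by
    nlinarith [mul_le_mul_of_nonneg_left (by linarith : (1 : ℝ) ≤ 4 * Real.log n)
      (sq_nonneg (Real.log n))]
  have hcu4 : Real.log n ^ 2 ≤ 2 * Real.log n ^ 3 := by
    have h1 : 1 ≤ 2 * Real.log n := by linarith
    have h2 := pow_pos hlog 2
    nlinarith
  have herr : (6 * (Nat.clog 2 n : ℝ) + 6) * Real.log (2 * (n : ℝ) + 1) ≤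
      330 * Real.log n ^ 3 := by
    have h1 : 6 * (Nat.clog 2 n : ℝ) + 6 ≤ 27 * Real.log n := by linarith
    have h2 : 0 ≤ Real.log (2 * (n : ℝ) + 1) :=
      Real.log_nonneg (by have : (0 : ℝ) ≤ n := Nat.cast_nonneg _; linarith)
    calc (6 * (Nat.clog 2 n : ℝ) + 6) * Real.log (2 * (n : ℝ) + 1)
        ≤ (27 * Real.log n) * (3 * Real.log n) := by
          apply mul_le_mul h1 hl3 h2 (by positivity)
      _ = 81 * Real.log n ^ 2 := by ring
      _ ≤ _ := by nlinarith
  have hG := fun m1 m2 (h : m1 + m2 ≤ n) => hglue n hn m1 m2 h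
  rcases eq_or_ne (e1, e2) (0, 0) with he | he
  · -- no displacement left
    obtain ⟨he1, he2⟩ := Prod.mk.inj he
    rw [he1, add_zero] at m2
    rw [he2, add_zero] at m3
    have hz : ((M.map (fun p => p.2.1)).sum, (M.map (fun p => p.2.2)).sum) ≠ (0, 0) := by
      rw [m2, m3]; exact hXY
    obtain ⟨g1, g2⟩ := glue_list hn hK2 hG _ M rfl hMok (by omega) hz
    rw [m2, m3] at g1 g2
    have hr : r = 0 ∨ r = 2 := by rw [he1, he2] at hrpar; omega
    obtain ⟨l, hl⟩ : ∃ l, l = (M.map (fun p => p.1)).sum := ⟨_, rfl⟩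
    rw [← hl] at g1 g2 m1
    have g3 : (0 : ℝ) < a l X Y := by exact_mod_cast g1
    have hll : 1 ≤ l := by
      by_contra hcon
      have h0 : l = 0 := by omega
      obtain ⟨w, hw, hx, hy, hwl⟩ := g1.word
      simp only at hx hy hwl
      rw [h0] at hwl
      have : w = [] := List.length_eq_zero_iff.1 hwl
      subst this
      apply hXY
      rw [← hx, ← hy]
      simp
    have hfin : 0 < a n X Y ∧ Real.log (a l X Y) ≤ Real.log (a n X Y) +
        (K1 + 21) * Real.log n ^ 2 := by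
      rcases hr with hr | hr
      · have : l = n := by omega
        rw [this]
        rw [this] at g1
        refine ⟨g1, ?_⟩
        have := pow_pos hlog 2
        nlinarith [mul_nonneg (by linarith : (0 : ℝ) ≤ K1 + 21) this.le]
      · have h1 := lengthen hn hK1 (hlow n hn) (m := l) (j := 1) hll (by omega) X Y
        have h2 : l + 2 * 1 = n := by omega
        rw [h2] at h1
        have h3 : 1 ≤ mu ^ (2 * 1) := one_le_pow₀ one_le_mu
        have h4 : (a l X Y : ℝ) ≤ q n (K1 + 21) * a n X Y := by nlinarith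
        have h5 : (0 : ℝ) < a n X Y := by
          by_contra hcon
          push Not at hcon
          have := mul_nonpos_of_nonneg_of_nonpos (q_pos n (K1 + 21)).le hcon
          linarith
        refine ⟨by exact_mod_cast h5, ?_⟩
        have h6 := Real.log_le_log g3 h4
        rw [Real.log_mul (q_pos _ _).ne' h5.ne'] at h6
        have h7 : Real.log (q n (K1 + 21)) = (K1 + 21) * Real.log n ^ 2 := by
          unfold q
          rw [Real.log_exp]
        linarith
    refine ⟨hfin.1, ?_⟩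
    have h8 : (M.length : ℝ) * (K2 * Real.log n ^ 2) ≤ 21 * K2 * Real.log n ^ 3 := by
      have h9 : (M.length : ℝ) ≤ 6 * (Nat.clog 2 n : ℝ) + 1 := by exact_mod_cast hMlen
      calc (M.length : ℝ) * (K2 * Real.log n ^ 2) ≤ (21 * Real.log n) * (K2 * Real.log n ^ 2) := by
            apply mul_le_mul_of_nonneg_right _ (by positivity)
            linarith
        _ = _ := by ring
    have h10 : lg (l, X, Y) = Real.log (a l X Y) := rfl
    rw [h10] at g2
    have h11 : (K1 + 21) * Real.log n ^ 2 ≤ 2 * (K1 + 21) * Real.log n ^ 3 := by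
      nlinarith [mul_le_mul_of_nonneg_left hcu4 (by linarith : (0 : ℝ) ≤ K1 + 21)]
    have h12 : 0 ≤ Real.log n ^ 3 := by positivity
    have h13 := hfin.2
    linarith
  · -- one more piece
    obtain ⟨rn, hrn⟩ : ∃ rn : ℕ, (rn : ℤ) = r := ⟨r.toNat, Int.toNat_of_nonneg c3⟩
    have hok0 : Ok (rn, e1, e2) := by
      have := one_le_a (n := rn) he (by rw [hrn]; exact hrpar) (by rw [hrn]; exact c5)
      exact this
    have hMok' : ∀ q ∈ ((rn, e1, e2) :: M), Ok q := by
      intro q hq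
      rcases List.mem_cons.1 hq with rfl | hq
      · exact hok0
      · exact hMok q hq
    have n1 : (((rn, e1, e2) :: M).map (fun p => p.1)).sum = n := by
      rw [List.map_cons, List.sum_cons]
      simp only
      omega
    have n2 : (((rn, e1, e2) :: M).map (fun p => p.2.1)).sum = X := by
      rw [List.map_cons, List.sum_cons]
      simp only
      omega
    have n3 : (((rn, e1, e2) :: M).map (fun p => p.2.2)).sum = Y := by
      rw [List.map_cons, List.sum_cons]
      simp only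
      omega
    have hz : ((((rn, e1, e2) :: M).map (fun p => p.2.1)).sum,
        (((rn, e1, e2) :: M).map (fun p => p.2.2)).sum) ≠ (0, 0) := by
      rw [n2, n3]; exact hXY
    obtain ⟨g1, g2⟩ := glue_list hn hK2 hG _ ((rn, e1, e2) :: M) rfl hMok' (by omega) hz
    rw [n1, n2, n3] at g1 g2
    refine ⟨g1, ?_⟩
    rw [List.map_cons, List.sum_cons, List.length_cons] at g2
    have h10 : lg (n, X, Y) = Real.log (a n X Y) := rfl
    have h11 := lg_nonneg hok0
    rw [h10] at g2
    have h8 : ((M.length + 1 : ℕ) : ℝ) * (K2 * Real.log n ^ 2) ≤ 21 * K2 * Real.log n ^ 3 := by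
      have h9 : ((M.length + 1 : ℕ) : ℝ) ≤ 6 * (Nat.clog 2 n : ℝ) + 2 := by
        exact_mod_cast (by omega : M.length + 1 ≤ 6 * Nat.clog 2 n + 2)
      calc ((M.length + 1 : ℕ) : ℝ) * (K2 * Real.log n ^ 2)
          ≤ (21 * Real.log n) * (K2 * Real.log n ^ 2) := by
            apply mul_le_mul_of_nonneg_right _ (by positivity)
            linarith
        _ = _ := by ring
    have h12 : 0 ≤ Real.log n ^ 3 := by positivity
    have h13 : 0 ≤ K1 * Real.log n ^ 3 := mul_nonneg hK1 h12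
    linarith

end Pool.Agent.Y981.L2
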