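import Pool.Agent.Y981.L2.Pieces

/-!
The number of self-avoiding words with given ends is log-concave up to quasi-polynomial factors.
-/

set_option autoImplicit false

namespace Pool.Agent.Y981.L2

open Pool.Agent.TH795.EP Pool.Agent.TH795.EP2 Pool.Agent.TH795.SE2 Pool.Agent.TH262.SawL H981 Finset

noncomputable def vec (p : ℕ × ℤ × ℤ) : ℝ × ℝ × ℝ := ((p.1 : ℝ), (p.2.1 : ℝ), (p.2.2 : ℝ))

theorem st_ext {s t : St} (h1 : s.x = t.x) (h2 : s.y = t.y) : s = t := by
  revert h1 h2
  cases s <;> cases t <;> decide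

theorem a_le_one {l : ℕ} (hl : l ≤ 1) (x y : ℤ) : a l x y ≤ 1 := by
  unfold a
  rw [Finset.card_le_one]
  intro u hu v hv
  rw [mem_fs] at hu hv
  obtain ⟨⟨_, hux, huy⟩, hul⟩ := hu
  obtain ⟨⟨_, hvx, hvy⟩, hvl⟩ := hv
  rcases Nat.eq_zero_or_pos l with h0 | h0
  · subst h0
    rw [List.length_eq_zero_iff.1 hul, List.length_eq_zero_iff.1 hvl]
  · obtain rfl : l = 1 := by omega
    obtain ⟨s, rfl⟩ := List.length_eq_one_iff.1 hul
    obtain ⟨t, rfl⟩ := List.length_eq_one_iff.1 hvl
    rw [← hvx] at hux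
    rw [← hvy] at huy
    simp only [dx_cons, dy_cons, dx_nil, dy_nil, add_zero] at hux huy
    rw [st_ext hux huy]

theorem lg_small {p : ℕ × ℤ × ℤ} (h : Ok p) (hp : p.1 ≤ 1) : lg p = 0 := by
  have h1 := a_le_one hp p.2.1 p.2.2
  have h2 : a p.1 p.2.1 p.2.2 = 1 := by
    have : 0 < a p.1 p.2.1 p.2.2 := h
    omega
  unfold lg
  rw [h2]
  simp

theorem fst_sum' {ι : Type*} (s : Finset ι) (w : ι → ℝ) (p : ι → ℕ × ℤ × ℤ) {A B C : ℝ}
    (h : ∑ i ∈ s, w i • vec (p i) = (A, B, C)) :
    ∑ i ∈ s, w i * ((p i).1 : ℝ) = A ∧ ∑ i ∈ s, w i * ((p i).2.1 : ℝ) = B ∧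
      ∑ i ∈ s, w i * ((p i).2.2 : ℝ) = C := by
  refine ⟨?_, ?_, ?_⟩
  · have := congrArg Prod.fst h
    rw [Prod.fst_sum] at this
    simpa [vec] using this
  · have := congrArg (fun z : ℝ × ℝ × ℝ => z.2.1) h
    simp only [Prod.snd_sum, Prod.fst_sum] at this
    simpa [vec] using this
  · have := congrArg (fun z : ℝ × ℝ × ℝ => z.2.2) h
    simp only [Prod.snd_sum] at this
    simpa [vec] using this

theorem log_len_mono {l n : ℕ} (h : l ≤ n) :
    Real.log (2 * (l : ℝ) + 1) ≤ Real.log (2 * (n : ℝ) + 1) := by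
  have h1 : (l : ℝ) ≤ n := by exact_mod_cast h
  have h0 : (0 : ℝ) ≤ l := Nat.cast_nonneg _
  exact Real.log_le_log (by linarith) (by linarith)

/-- **Cutting.** -/
theorem cut {n : ℕ} : ∀ (j : ℕ) (ι : Type) (_ : DecidableEq ι) (s : Finset ι)
    (p : ι → ℕ × ℤ × ℤ) (w : ι → ℝ) (m X Y : ℤ), s.card ≤ 3 →
    (∀ i ∈ s, Ok (p i) ∧ (p i).1 ≤ 2 ^ j ∧ (p i).1 ≤ n) → (∀ i ∈ s, 0 ≤ w i ∧ w i ≤ 1) →
    ∑ i ∈ s, w i • vec (p i) = ((m : ℝ), (X : ℝ), (Y : ℝ)) → (2 : ℤ) ∣ X + Y - m →
    ∃ (L : List (ℕ × ℤ × ℤ)) (r e1 e2 : ℤ), L.length ≤ 6 * j ∧ (∀ p ∈ L, Ok p) ∧ 0 ≤ r ∧ r ≤ 3 ∧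
      |e1| + |e2| ≤ r ∧ (((L.map (fun p => p.1)).sum : ℕ) : ℤ) + r = m ∧
      (L.map (fun p => p.2.1)).sum + e1 = X ∧ (L.map (fun p => p.2.2)).sum + e2 = Y ∧
      ∑ i ∈ s, w i * lg (p i) ≤ (L.map lg).sum + (6 * j + 6) * Real.log (2 * (n : ℝ) + 1) := by
  intro j
  induction j with
  | zero =>
    intro ι _ s p w m X Y hs hp hw hV hpar
    obtain ⟨v1, v2, v3⟩ := fst_sum' s w p hV
    have hlog : 0 ≤ Real.log (2 * (n : ℝ) + 1) :=
      Real.log_nonneg (by have : (0 : ℝ) ≤ n := Nat.cast_nonneg _; linarith)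
    refine ⟨[], m, X, Y, by simp, by simp, ?_, ?_, ?_, by simp, by simp, by simp, ?_⟩
    · have : (0 : ℝ) ≤ m := by
        rw [← v1]
        exact Finset.sum_nonneg fun i hi => mul_nonneg (hw i hi).1 (Nat.cast_nonneg _)
      exact_mod_cast this
    · have : (m : ℝ) ≤ 3 := by
        rw [← v1]
        calc ∑ i ∈ s, w i * ((p i).1 : ℝ) ≤ ∑ _i ∈ s, (1 : ℝ) := by
              apply Finset.sum_le_sum
              intro i hi
              have h1 := hw i hi
              have h2 : ((p i).1 : ℝ) ≤ 1 := by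
                have := (hp i hi).2.1
                simp only [pow_zero] at this
                exact_mod_cast this
              have h3 : (0 : ℝ) ≤ (p i).1 := Nat.cast_nonneg _
              nlinarith
          _ = s.card := by simp
          _ ≤ 3 := by exact_mod_cast hs
      exact_mod_cast this
    · have : |(X : ℝ)| + |(Y : ℝ)| ≤ m := by
        rw [← v1, ← v2, ← v3]
        calc |∑ i ∈ s, w i * ((p i).2.1 : ℝ)| + |∑ i ∈ s, w i * ((p i).2.2 : ℝ)|
            ≤ ∑ i ∈ s, |w i * ((p i).2.1 : ℝ)| + ∑ i ∈ s, |w i * ((p i).2.2 : ℝ)| :=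
              add_le_add (Finset.abs_sum_le_sum_abs _ _) (Finset.abs_sum_le_sum_abs _ _)
          _ = ∑ i ∈ s, w i * (|((p i).2.1 : ℝ)| + |((p i).2.2 : ℝ)|) := by
              rw [← Finset.sum_add_distrib]
              apply Finset.sum_congr rfl
              intro i hi
              rw [abs_mul, abs_mul, abs_of_nonneg (hw i hi).1]
              ring
          _ ≤ _ := by
              apply Finset.sum_le_sum
              intro i hi
              apply mul_le_mul_of_nonneg_left ?_ (hw i hi).1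
              have := (hp i hi).1.abs
              exact_mod_cast this
      exact_mod_cast this
    · have : ∑ i ∈ s, w i * lg (p i) = 0 := by
        apply Finset.sum_eq_zero
        intro i hi
        rw [lg_small (hp i hi).1 (by simpa using (hp i hi).2.1), mul_zero]
      rw [this]
      simp only [List.map_nil, List.sum_nil, Nat.cast_zero, mul_zero, zero_add]
      positivity
  | succ j ih =>
    intro ι hdec s p w m X Y hs hp hw hV hpar
    obtain ⟨v1, v2, v3⟩ := fst_sum' s w p hV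
    have hsplit : ∀ i ∈ s, ∃ p1 p2 : ℕ × ℤ × ℤ, Ok p1 ∧ Ok p2 ∧ p1.1 ≤ 2 ^ j ∧ p2.1 ≤ 2 ^ j ∧
        p1.1 + p2.1 = (p i).1 ∧ p1.2.1 + p2.2.1 = (p i).2.1 ∧
        p1.2.2 + p2.2.2 = (p i).2.2 ∧
        lg (p i) ≤ lg p1 + lg p2 + 2 * Real.log (2 * (p i).1 + 1) :=
      fun i hi => split_two (hp i hi).1 (hp i hi).2.1
    choose! f g hfg using hsplit
    set P : ι × Bool → ℕ × ℤ × ℤ := fun z => if z.2 then g z.1 else f z.1 with hP
    set W : ι × Bool → ℝ := fun z => w z.1 with hW
    set s1 : Finset (ι × Bool) := s ×ˢ (Finset.univ : Finset Bool) with hs1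
    have hcard1 : s1.card ≤ 6 := by
      rw [hs1, Finset.card_product, Finset.card_univ, Fintype.card_bool]
      omega
    have hW1 : ∀ z ∈ s1, 0 ≤ W z ∧ W z ≤ 1 := by
      intro z hz
      exact hw z.1 (Finset.mem_product.1 hz).1
    have hsumV : ∑ z ∈ s1, W z • vec (P z) = ((m : ℝ), (X : ℝ), (Y : ℝ)) := by
      rw [← hV, hs1, Finset.sum_product]
      apply Finset.sum_congr rfl
      intro i hi
      rw [Fintype.sum_bool]
      simp only [hP, hW, if_true, Bool.false_eq_true, if_false]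
      rw [← smul_add]
      congr 1
      obtain ⟨_, _, _, _, h5, h6, h7, _⟩ := hfg i hi
      unfold vec
      rw [← h5, ← h6, ← h7]
      push_cast
      ext <;> simp <;> ring
    have hsumF : ∑ i ∈ s, w i * lg (p i) ≤ ∑ z ∈ s1, W z * lg (P z) +
        6 * Real.log (2 * (n : ℝ) + 1) := by
      have hlog : 0 ≤ Real.log (2 * (n : ℝ) + 1) :=
        Real.log_nonneg (by have : (0 : ℝ) ≤ n := Nat.cast_nonneg _; linarith)
      calc ∑ i ∈ s, w i * lg (p i)
          ≤ ∑ i ∈ s, ((w i * lg (g i) + w i * lg (f i)) + 2 * Real.log (2 * (n : ℝ) + 1)) := by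
            apply Finset.sum_le_sum
            intro i hi
            obtain ⟨_, _, _, _, _, _, _, h8⟩ := hfg i hi
            have h9 := log_len_mono (hp i hi).2.2
            obtain ⟨w0, w1⟩ := hw i hi
            have h10 : lg (p i) ≤ lg (f i) + lg (g i) + 2 * Real.log (2 * (n : ℝ) + 1) := by
              linarith
            calc w i * lg (p i) ≤ w i * (lg (f i) + lg (g i) + 2 * Real.log (2 * (n : ℝ) + 1)) :=
                  mul_le_mul_of_nonneg_left h10 w0
              _ = (w i * lg (g i) + w i * lg (f i)) + w i * (2 * Real.log (2 * (n : ℝ) + 1)) := by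
                  ring
              _ ≤ _ := by nlinarith
        _ = ∑ i ∈ s, (w i * lg (g i) + w i * lg (f i)) +
            s.card * (2 * Real.log (2 * (n : ℝ) + 1)) := by
            rw [Finset.sum_add_distrib, Finset.sum_const, nsmul_eq_mul]
        _ = ∑ z ∈ s1, W z * lg (P z) + s.card * (2 * Real.log (2 * (n : ℝ) + 1)) := by
            congr 1
            rw [hs1, Finset.sum_product]
            apply Finset.sum_congr rfl
            intro i hi
            rw [Fintype.sum_bool]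
            simp only [hP, hW, if_true, Bool.false_eq_true, if_false]
        _ ≤ _ := by
            have : (s.card : ℝ) ≤ 3 := by exact_mod_cast hs
            nlinarith
    have hokP : ∀ z ∈ s1, Ok (P z) ∧ (P z).1 ≤ 2 ^ j ∧ (P z).1 ≤ n := by
      intro z hz
      have hz1 := (Finset.mem_product.1 hz).1
      obtain ⟨h1, h2, h3, h4, h5, _⟩ := hfg z.1 hz1
      have h9 := (hp z.1 hz1).2.2
      simp only [hP]
      split_ifs
      · exact ⟨h2, h4, by omega⟩
      · exact ⟨h1, h3, by omega⟩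
    obtain ⟨T, R, w', hT, hR, hR3, hw', hV', hF'⟩ := reduce (fun z => vec (P z))
      (fun z => lg (P z)) _ s1 rfl W hW1
    rw [hsumV] at hV'
    have hTc : T.card ≤ 6 := (Finset.card_le_card hT).trans hcard1
    have hparT : (2 : ℤ) ∣ ∑ z ∈ T, ((P z).2.1 + (P z).2.2 - (P z).1) := by
      apply Finset.dvd_sum
      intro z hz
      have := (hokP z (hT hz)).1.par
      omega
    rw [Finset.sum_sub_distrib, Finset.sum_add_distrib] at hparT
    have hVT : ∑ z ∈ R, w' z • vec (P z) = (((m - ∑ z ∈ T, ((P z).1 : ℤ) : ℤ) : ℝ),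
        ((X - ∑ z ∈ T, (P z).2.1 : ℤ) : ℝ), ((Y - ∑ z ∈ T, (P z).2.2 : ℤ) : ℝ)) := by
      have e1 := eq_sub_of_add_eq' hV'
      rw [e1]
      push_cast
      ext
      · simp [Prod.fst_sum, vec]
      · simp [Prod.fst_sum, Prod.snd_sum, vec]
      · simp [Prod.snd_sum, vec]
    obtain ⟨L, r, e1, e2, c1, c2, c3, c4, c5, c6, c7, c8, c9⟩ := ih (ι × Bool) inferInstance R P w'
      (m - ∑ z ∈ T, ((P z).1 : ℤ)) (X - ∑ z ∈ T, (P z).2.1) (Y - ∑ z ∈ T, (P z).2.2) hR3
      (fun z hz => hokP z (hR hz)) hw' hVT (by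
        have e : X - ∑ z ∈ T, (P z).2.1 + (Y - ∑ z ∈ T, (P z).2.2) - (m - ∑ z ∈ T, ((P z).1 : ℤ)) =
          (X + Y - m) - (∑ z ∈ T, (P z).2.1 + ∑ z ∈ T, (P z).2.2 - ∑ z ∈ T, ((P z).1 : ℤ)) := by
          ring
        rw [e]
        exact dvd_sub hpar hparT)
    refine ⟨T.toList.map P ++ L, r, e1, e2, ?_, ?_, c3, c4, c5, ?_, ?_, ?_, ?_⟩
    · rw [List.length_append, List.length_map, Finset.length_toList]
      omega
    · intro q hq
      rw [List.mem_append, List.mem_map] at hq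
      rcases hq with ⟨z, hz, rfl⟩ | hq
      · exact (hokP z (hT (Finset.mem_toList.1 hz))).1
      · exact c2 q hq
    · rw [List.map_append, List.map_map, List.sum_append, Finset.sum_map_toList, Nat.cast_add,
        Nat.cast_sum]
      simp only [Function.comp]
      linarith
    · rw [List.map_append, List.map_map, List.sum_append, Finset.sum_map_toList]
      simp only [Function.comp]
      linarith
    · rw [List.map_append, List.map_map, List.sum_append, Finset.sum_map_toList]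
      simp only [Function.comp]
      linarith
    · rw [List.map_append, List.map_map, List.sum_append, Finset.sum_map_toList]
      simp only [Function.comp]
      push_cast
      linarith

end Pool.Agent.Y981.L2
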