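import Pool.Agent.Y981.L2.Near

/-!
Cutting two words by the necklace splitting theorem.
-/

set_option autoImplicit false

namespace Pool.Agent.Y981.L2

open Pool.Agent.TH795.EP Pool.Agent.TH795.EP2 Pool.Agent.TH795.SE2 Pool.Agent.TH262.SawL H981 Finset

/-- the three additive functionals -/
def ph (j : Fin 3) (w : List St) : ℤ := if j = 0 then (w.length : ℤ) else if j = 1 then dx w else dy w

theorem ph_append (j : Fin 3) (u v : List St) : ph j (u ++ v) = ph j u + ph j v := by
  unfold ph
  split_ifs
  · rw [List.length_append]; push_cast; ring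
  · exact dx_append u v
  · exact dy_append u v

theorem ph_nil (j : Fin 3) : ph j [] = 0 := by
  have := ph_append j [] []
  rw [List.append_nil] at this
  omega

theorem ph_single (j : Fin 3) (s : St) : |ph j [s]| ≤ 1 := by
  unfold ph
  split_ifs
  · simp
  · cases s <;> simp [dx, St.x]
  · cases s <;> simp [dy, St.y]

theorem ph_take_succ (j : Fin 3) (w : List St) (k : ℕ) :
    |ph j (w.take (k + 1)) - ph j (w.take k)| ≤ 1 := by
  rw [List.take_succ, ph_append, add_sub_cancel_left]
  cases h : w[k]? with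
  | none => simp [ph_nil]
  | some s => simpa using ph_single j s

/-- the piece number `i` -/
def pc (w : List St) (b : ℕ → ℕ) (i : ℕ) : List St := (w.take (b (i + 1))).drop (b i)

theorem take_pc {w : List St} {b : ℕ → ℕ} {i : ℕ} (h : b i ≤ b (i + 1)) :
    w.take (b (i + 1)) = w.take (b i) ++ pc w b i := by
  unfold pc
  have h1 := List.take_append_drop (b i) (w.take (b (i + 1)))
  rw [List.take_take, min_eq_left h] at h1
  exact h1.symm

theorem ph_pc (j : Fin 3) {w : List St} {b : ℕ → ℕ} {i : ℕ} (h : b i ≤ b (i + 1)) :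
    ph j (pc w b i) = ph j (w.take (b (i + 1))) - ph j (w.take (b i)) := by
  rw [take_pc h, ph_append]
  ring

theorem pc_join {w : List St} {b : ℕ → ℕ} (h0 : b 0 = 0) (h4 : w.length ≤ b 4)
    (hm : ∀ i : Fin 4, b i ≤ b (i + 1)) :
    pc w b 0 ++ pc w b 1 ++ pc w b 2 ++ pc w b 3 = w := by
  have m0 : b 0 ≤ b (0 + 1) := hm 0
  have m1 : b 1 ≤ b (1 + 1) := hm 1
  have m2 : b 2 ≤ b (2 + 1) := hm 2
  have m3 : b 3 ≤ b (3 + 1) := hm 3
  have e0 := take_pc (w := w) m0
  have e1 := take_pc (w := w) m1
  have e2 := take_pc (w := w) m2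
  have e3 := take_pc (w := w) m3
  rw [h0, List.take_zero, List.nil_append] at e0
  rw [← e0, ← e1, ← e2, ← e3]
  exact List.take_of_length_le h4

theorem pc_infix (w : List St) (b : ℕ → ℕ) (i : ℕ) : pc w b i <:+: w := by
  unfold pc
  exact (List.drop_suffix _ _).isInfix.trans (List.take_prefix _ _).isInfix

/-- the index set of the pieces -/
abbrev J : Type := Fin 4 × Bool

/-- the pieces of the two words -/
def pcs (w v : List St) (p : ℕ → ℕ) (k : ℕ) (j : J) : List St :=
  if j.2 = false then pc w p j.1 else pc v (fun i => p i - k) j.1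

/-- **Cutting two words.** -/
theorem two_words {n : ℕ} {w v : List St} (hw : w.length = n) (hv : v.length = n) :
    ∃ (s : Fin 4 → Bool) (f : J → List St),
      f (0, false) ++ f (1, false) ++ f (2, false) ++ f (3, false) = w ∧
      f (0, true) ++ f (1, true) ++ f (2, true) ++ f (3, true) = v ∧
      (∀ i, f (i, false) <:+: w) ∧ (∀ i, f (i, true) <:+: v) ∧
      ∀ (e : Fin 3) (t : ℤ), ph e w + ph e v = 2 * t → ∀ b : Bool,
        |∑ j ∈ univ.filter (fun j : J => s j.1 = b), ph e (f j) - t| ≤ 3 := by
  obtain ⟨C, hC⟩ : ∃ C : ℕ → Fin 3 → ℝ, C = fun k e =>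
    ((ph e (w.take k) + ph e (v.take (k - n)) : ℤ) : ℝ) := ⟨_, rfl⟩
  have hc : ∀ k e, |C (k + 1) e - C k e| ≤ 1 := by
    intro k e
    rw [hC]
    simp only
    rw [← Int.cast_sub, ← Int.cast_abs]
    have key : |ph e (w.take (k + 1)) + ph e (v.take (k + 1 - n)) -
        (ph e (w.take k) + ph e (v.take (k - n)))| ≤ 1 := by
      rcases Nat.lt_or_ge k n with h | h
      · have e1 : k + 1 - n = k - n := by omega
        rw [e1, add_sub_add_right_eq_sub]
        exact ph_take_succ e w k
      · have e1 : k + 1 - n = (k - n) + 1 := by omega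
        rw [e1, List.take_of_length_le (by omega : w.length ≤ k + 1),
          List.take_of_length_le (by omega : w.length ≤ k), add_sub_add_left_eq_sub]
        exact ph_take_succ e v (k - n)
    exact_mod_cast key
  obtain ⟨p, s, hp0, hp4, hpm, hs⟩ := hobby_rice (2 * n) (fun k e => C (k + 1) e - C k e) hc
  have hCc : ∀ (e : Fin 3) (m : ℕ), Cc (fun k e => C (k + 1) e - C k e) e m = C m e - C 0 e := by
    intro e m
    unfold Cc
    exact Finset.sum_range_sub (fun k => C k e) m
  have hpm' : ∀ i : Fin 4, p i - n ≤ p (i + 1) - n := fun i => Nat.sub_le_sub_right (hpm i) n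
  refine ⟨s, pcs w v p n, ?_, ?_, ?_, ?_, ?_⟩
  · exact pc_join hp0 (by omega) hpm
  · exact pc_join (b := fun i => p i - n) (by omega) (by omega) hpm'
  · intro i
    exact pc_infix w p i
  · intro i
    exact pc_infix v (fun i => p i - n) i
  · intro e t ht b
    have h1 := hs e
    simp only [hCc] at h1
    have hV : ∀ i : Fin 4, C (p ((i : ℕ) + 1)) e - C 0 e - (C (p i) e - C 0 e) =
        ((ph e (pcs w v p n (i, false)) + ph e (pcs w v p n (i, true)) : ℤ) : ℝ) := by
      intro i
      have e1 : pcs w v p n (i, false) = pc w p i := rfl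
      have e2 : pcs w v p n (i, true) = pc v (fun i => p i - n) i := rfl
      rw [e1, e2, ph_pc e (hpm i), ph_pc e (b := fun i => p i - n) (hpm' i), hC]
      push_cast
      ring
    simp only [hV] at h1
    -- total
    have htot : ∑ i : Fin 4, (ph e (pcs w v p n (i, false)) + ph e (pcs w v p n (i, true))) =
        2 * t := by
      rw [← ht]
      have j1 : pcs w v p n (0, false) ++ pcs w v p n (1, false) ++ pcs w v p n (2, false) ++
          pcs w v p n (3, false) = w := pc_join hp0 (by omega) hpm
      have j2 : pcs w v p n (0, true) ++ pcs w v p n (1, true) ++ pcs w v p n (2, true) ++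
          pcs w v p n (3, true) = v :=
        pc_join (b := fun i => p i - n) (by omega) (by omega) hpm'
      have k1 := congrArg (ph e) j1
      have k2 := congrArg (ph e) j2
      rw [ph_append, ph_append, ph_append] at k1 k2
      rw [Fin.sum_univ_four, ← k1, ← k2]
      ring
    have hfil : ∑ j ∈ univ.filter (fun j : J => s j.1 = b), ph e (pcs w v p n j) =
        ∑ i : Fin 4, if s i = b then
          (ph e (pcs w v p n (i, false)) + ph e (pcs w v p n (i, true))) else 0 := by
      rw [Finset.sum_filter, Fintype.sum_prod_type]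
      apply Finset.sum_congr rfl
      intro i _
      rw [Fintype.sum_bool]
      split_ifs
      · ring
      · ring
    rw [hfil]
    obtain ⟨V, hVd⟩ : ∃ V : Fin 4 → ℤ, V = fun i =>
      ph e (pcs w v p n (i, false)) + ph e (pcs w v p n (i, true)) := ⟨_, rfl⟩
    have hVi : ∀ i, ph e (pcs w v p n (i, false)) + ph e (pcs w v p n (i, true)) = V i := by
      intro i; rw [hVd]
    simp only [hVi] at h1 htot ⊢
    have h2 : |∑ i : Fin 4, (if s i then (1 : ℤ) else -1) * V i| ≤ 6 := by
      have h3 : ((|∑ i : Fin 4, (if s i then (1 : ℤ) else -1) * V i| : ℤ) : ℝ) ≤ ((6 : ℤ) : ℝ) := by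
        push_cast
        exact h1
      exact_mod_cast h3
    rw [abs_le] at h2 ⊢
    rw [Fin.sum_univ_four] at h2 htot ⊢
    obtain ⟨h3, h4⟩ := h2
    clear h1 hs hfil hVi
    generalize s 0 = s0 at h3 h4 ⊢
    generalize s 1 = s1 at h3 h4 ⊢
    generalize s 2 = s2 at h3 h4 ⊢
    generalize s 3 = s3 at h3 h4 ⊢
    generalize V 0 = v0 at h3 h4 htot ⊢
    generalize V 1 = v1 at h3 h4 htot ⊢
    generalize V 2 = v2 at h3 h4 htot ⊢
    generalize V 3 = v3 at h3 h4 htot ⊢
    cases b <;> cases s0 <;> cases s1 <;> cases s2 <;> cases s3 <;>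
      simp only [if_true, if_false, reduceCtorEq, Bool.false_eq_true] at h3 h4 ⊢ <;> constructor <;> omega

end Pool.Agent.Y981.L2
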