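import Pool.Agent.Y981.L2.TwoPt

/-!
The exponent of the correlation length is the exponent of the size.
-/

set_option autoImplicit false

namespace Pool.Agent.Y981.L2

open Pool.Agent.TH795.EP Pool.Agent.TH795.EP2 Pool.Agent.TH795.SE2 Pool.Agent.TH262.SawL H981 Finset Filter Topology

/-- the probability that the end point is at distance at least `r` -/
noncomputable def far (n : ℕ) (r : ℝ) : ℝ :=
  ((fs (fun w => Saw w ∧ r ≤ Real.sqrt ((dx w : ℝ) ^ 2 + (dy w : ℝ) ^ 2)) n).card : ℝ) / c n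

theorem far_anti {n : ℕ} {r r' : ℝ} (h : r ≤ r') : far n r' ≤ far n r := by
  unfold far
  apply div_le_div_of_nonneg_right _ (c_pos n).le
  exact_mod_cast Finset.card_le_card (fun w hw => by
    rw [mem_fs] at hw ⊢
    exact ⟨⟨hw.1.1, h.trans hw.1.2⟩, hw.2⟩)

theorem Z_sw (h : ℝ × ℝ) (n : ℕ) : Z (h.2, h.1) n = Z h n := by
  rw [Z_eq, Z_eq]
  apply Finset.sum_nbij' (fun z => (z.2, z.1)) (fun z => (z.2, z.1))
  · intro z hz
    unfold Bx at hz ⊢
    rw [Finset.mem_product, Finset.mem_Icc, Finset.mem_Icc] at hz ⊢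
    simp only
    omega
  · intro z hz
    unfold Bx at hz ⊢
    rw [Finset.mem_product, Finset.mem_Icc, Finset.mem_Icc] at hz ⊢
    simp only
    omega
  · intro z _
    simp
  · intro z _
    simp
  · intro z _
    simp only
    rw [a_sw]
    congr 2
    ring

theorem far_exp {n : ℕ} {r h : ℝ} (h0 : 0 ≤ h) :
    far n r * c n * Real.exp (h * r / 2) ≤ 4 * Z (h, 0) n := by
  have e1 : Z (-h, 0) n = Z (h, 0) n := Z_sg (h, 0) n
  have e2 : Z (0, h) n = Z (h, 0) n := Z_sw (h, 0) n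
  have e3 : Z (0, -h) n = Z (h, 0) n := by
    rw [← e2]
    exact Z_ng (0, h) n
  have e4 : 4 * Z (h, 0) n = ∑ w ∈ fs Saw n, (Real.exp (h * dx w) + Real.exp (-h * dx w) +
      Real.exp (h * dy w) + Real.exp (-h * dy w)) := by
    have s1 : Z (h, 0) n = ∑ w ∈ fs Saw n, Real.exp (h * dx w) := by
      unfold Z
      apply Finset.sum_congr rfl
      intro w _
      simp
    have s2 : Z (-h, 0) n = ∑ w ∈ fs Saw n, Real.exp (-h * dx w) := by
      unfold Z
      apply Finset.sum_congr rfl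
      intro w _
      simp
    have s3 : Z (0, h) n = ∑ w ∈ fs Saw n, Real.exp (h * dy w) := by
      unfold Z
      apply Finset.sum_congr rfl
      intro w _
      simp
    have s4 : Z (0, -h) n = ∑ w ∈ fs Saw n, Real.exp (-h * dy w) := by
      unfold Z
      apply Finset.sum_congr rfl
      intro w _
      simp
    rw [Finset.sum_add_distrib, Finset.sum_add_distrib, Finset.sum_add_distrib, ← s1, ← s2, ← s3,
      ← s4, e1, e2, e3]
    ring
  rw [e4]
  have hc := c_pos n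
  unfold far
  rw [div_mul_cancel₀ _ hc.ne']
  calc ((fs (fun w => Saw w ∧ r ≤ Real.sqrt ((dx w : ℝ) ^ 2 + (dy w : ℝ) ^ 2)) n).card : ℝ) *
      Real.exp (h * r / 2)
      = ∑ w ∈ fs (fun w => Saw w ∧ r ≤ Real.sqrt ((dx w : ℝ) ^ 2 + (dy w : ℝ) ^ 2)) n,
        Real.exp (h * r / 2) := by rw [Finset.sum_const, nsmul_eq_mul]
    _ ≤ ∑ w ∈ fs (fun w => Saw w ∧ r ≤ Real.sqrt ((dx w : ℝ) ^ 2 + (dy w : ℝ) ^ 2)) n,
        (Real.exp (h * dx w) + Real.exp (-h * dx w) +
          Real.exp (h * dy w) + Real.exp (-h * dy w)) := by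
        apply Finset.sum_le_sum
        intro w hw
        rw [mem_fs] at hw
        have h1 := hw.1.2
        have p1 := Real.exp_pos (h * dx w)
        have p2 := Real.exp_pos (-h * dx w)
        have p3 := Real.exp_pos (h * dy w)
        have p4 := Real.exp_pos (-h * dy w)
        have hor : r / 2 ≤ |(dx w : ℝ)| ∨ r / 2 ≤ |(dy w : ℝ)| := by
          by_contra hcon
          push Not at hcon
          obtain ⟨q1, q2⟩ := hcon
          have a1 := abs_nonneg (dx w : ℝ)
          have a2 := abs_nonneg (dy w : ℝ)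
          have hr : 0 < r := by linarith
          have h2 : (dx w : ℝ) ^ 2 + (dy w : ℝ) ^ 2 < r ^ 2 := by
            rw [← sq_abs (dx w : ℝ), ← sq_abs (dy w : ℝ)]
            nlinarith
          have h3 := Real.sqrt_lt_sqrt (by positivity) h2
          rw [Real.sqrt_sq hr.le] at h3
          linarith
        rcases hor with h2 | h2
        · rcases abs_cases (dx w : ℝ) with ⟨h3, _⟩ | ⟨h3, _⟩
          · have : Real.exp (h * r / 2) ≤ Real.exp (h * dx w) := by
              apply Real.exp_le_exp.2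
              rw [h3] at h2
              nlinarith
            linarith
          · have : Real.exp (h * r / 2) ≤ Real.exp (-h * dx w) := by
              apply Real.exp_le_exp.2
              rw [h3] at h2
              nlinarith
            linarith
        · rcases abs_cases (dy w : ℝ) with ⟨h3, _⟩ | ⟨h3, _⟩
          · have : Real.exp (h * r / 2) ≤ Real.exp (h * dy w) := by
              apply Real.exp_le_exp.2
              rw [h3] at h2
              nlinarith
            linarith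
          · have : Real.exp (h * r / 2) ≤ Real.exp (-h * dy w) := by
              apply Real.exp_le_exp.2
              rw [h3] at h2
              nlinarith
            linarith
    _ ≤ _ := by
        apply Finset.sum_le_sum_of_subset_of_nonneg
        · intro w hw
          rw [mem_fs] at hw ⊢
          exact ⟨hw.1.1, hw.2⟩
        · intro w _ _
          positivity

/-- (F1) -/
theorem far_le : ∃ K : ℝ, 0 ≤ K ∧ ∀ n : ℕ, 2 ≤ n → ∀ r h : ℝ, 0 ≤ h →
    far n r ≤ Real.exp (-(h * r / 2) + n * psi h + K * Real.log n ^ 2 + 2) := by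
  obtain ⟨K, hK, hZ⟩ := Z_le
  refine ⟨2 * K, by positivity, ?_⟩
  intro n hn r h h0
  have hmu := mu_pos
  have h1 := far_exp (n := n) (r := r) h0
  have h2 : Z (h, 0) n ≤ Real.exp (n * (Lam (h, 0) + Real.log mu) + K * Real.log n ^ 2) := by
    rw [← Real.log_le_iff_le_exp (Z_pos _ _)]
    exact hZ n hn (h, 0)
  have h3 : Real.exp (n * Real.log mu) ≤ c n := by
    have h1 : mu ^ n ≤ c n := by rw [c_eq]; exact mu_pow_le n
    rwa [mul_comm, Real.exp_mul, Real.exp_log hmu, Real.rpow_natCast]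
  have hf : 0 ≤ far n r := by unfold far; exact div_nonneg (Nat.cast_nonneg _) (Nat.cast_nonneg _)
  have h4 : far n r * Real.exp (n * Real.log mu) * Real.exp (h * r / 2) ≤
      4 * Real.exp (n * (Lam (h, 0) + Real.log mu) + K * Real.log n ^ 2) := by
    refine le_trans ?_ (h1.trans (mul_le_mul_of_nonneg_left h2 (by norm_num)))
    apply mul_le_mul_of_nonneg_right _ (Real.exp_pos _).le
    exact mul_le_mul_of_nonneg_left h3 hf
  have h5 : (4 : ℝ) ≤ Real.exp 2 := by
    have h6 := Real.exp_one_gt_d9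
    have h7 : Real.exp 2 = Real.exp 1 * Real.exp 1 := by rw [← Real.exp_add]; norm_num
    rw [h7]
    nlinarith
  have h6 : far n r * Real.exp (n * Real.log mu + h * r / 2) ≤
      Real.exp (2 + (n * (Lam (h, 0) + Real.log mu) + K * Real.log n ^ 2)) := by
    rw [Real.exp_add, Real.exp_add, ← mul_assoc]
    refine h4.trans ?_
    exact mul_le_mul_of_nonneg_right h5 (Real.exp_pos _).le
  rw [← le_div_iff₀ (Real.exp_pos _), ← Real.exp_sub] at h6
  refine h6.trans (Real.exp_le_exp.2 ?_)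
  have h7 := mul_le_mul_of_nonneg_left (pow_le_four hn).1 hK
  unfold psi
  nlinarith

/-- (F2) -/
theorem le_far : ∃ K : ℝ, 0 ≤ K ∧ ∀ n k : ℕ, 2 ≤ n → 1 ≤ k → k ≤ n → ((k : ℤ) - n) % 2 = 0 →
    ∀ r : ℝ, r ≤ k → Real.exp (-(n * R ((k : ℝ) / n) + K * Real.log n ^ 2)) ≤ far n r := by
  obtain ⟨K, hK, hldp⟩ := ldp_words
  refine ⟨K, hK, ?_⟩
  intro n k hn hk hkn hpar r hr
  have hne : ((k : ℤ), (0 : ℤ)) ≠ (0, 0) := by simp; omega
  have hle : |(k : ℤ)| + |(0 : ℤ)| ≤ n := by simp; exact hkn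
  have hp : ((k : ℤ) + 0 - n) % 2 = 0 := by rw [add_zero]; exact hpar
  have h1 := (abs_le.1 (hldp n hn k 0 hne hp hle)).1
  have ha1 := one_le_a hne hp hle
  have ha : (0 : ℝ) < a n k 0 := by exact_mod_cast ha1
  have hc := c_pos n
  simp only [Int.cast_natCast, Int.cast_zero, zero_div] at h1
  have hR2 : Rate ((k : ℝ) / n, 0) = R ((k : ℝ) / n) := rfl
  rw [hR2] at h1
  have h2 : Real.exp (-(n * R ((k : ℝ) / n) + K * Real.log n ^ 2)) ≤ (a n k 0 : ℝ) / c n := by
    rw [← Real.le_log_iff_exp_le (div_pos ha hc)]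
    linarith
  refine h2.trans ?_
  unfold far
  apply div_le_div_of_nonneg_right _ hc.le
  have hcard : a n k 0 ≤
      (fs (fun w => Saw w ∧ r ≤ Real.sqrt ((dx w : ℝ) ^ 2 + (dy w : ℝ) ^ 2)) n).card := by
    unfold a
    apply Finset.card_le_card
    intro w hw
    rw [mem_fs] at hw ⊢
    obtain ⟨⟨h3, h4, h5⟩, h6⟩ := hw
    refine ⟨⟨h3, ?_⟩, h6⟩
    rw [h4, h5]
    have e : ((k : ℤ) : ℝ) ^ 2 + ((0 : ℤ) : ℝ) ^ 2 = (k : ℝ) ^ 2 := by simp
    rw [e, Real.sqrt_sq (Nat.cast_nonneg k)]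
    exact hr
  exact_mod_cast hcard

/-! ### growth lemmas -/

theorem ev_pow {α β : ℝ} (C : ℝ) (h : α < β) :
    ∀ᶠ n : ℕ in atTop, C * (n : ℝ) ^ α ≤ (n : ℝ) ^ β := by
  have h1 : Tendsto (fun n : ℕ => (n : ℝ) ^ (β - α)) atTop atTop :=
    (tendsto_rpow_atTop (by linarith)).comp tendsto_natCast_atTop_atTop
  filter_upwards [h1.eventually_ge_atTop C, eventually_ge_atTop 1] with n hn hn1
  have hn0 : (0 : ℝ) < n := by exact_mod_cast hn1
  calc C * (n : ℝ) ^ α ≤ (n : ℝ) ^ (β - α) * (n : ℝ) ^ α :=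
        mul_le_mul_of_nonneg_right hn (Real.rpow_nonneg hn0.le _)
    _ = (n : ℝ) ^ β := by rw [← Real.rpow_add hn0]; congr 1; ring

theorem ev_log {β : ℝ} (C D : ℝ) (hβ : 0 < β) :
    ∀ᶠ n : ℕ in atTop, C * Real.log n ^ 2 + D ≤ (n : ℝ) ^ β := by
  have h1 : Tendsto (fun x : ℝ => Real.log x ^ 2 / x ^ (β / 2)) atTop (nhds 0) := by
    have h2 := isLittleO_log_rpow_rpow_atTop (s := β / 2) (2 : ℝ) (by linarith)
    have h3 := h2.tendsto_div_nhds_zero
    refine h3.congr' ?_
    filter_upwards [eventually_ge_atTop 1] with x hx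
    congr 1
    exact_mod_cast Real.rpow_natCast (Real.log x) 2
  have h2 := h1.comp tendsto_natCast_atTop_atTop
  have h3 := (h2.const_mul |C|)
  rw [mul_zero] at h3
  have h4 : Tendsto (fun n : ℕ => (n : ℝ) ^ (β / 2)) atTop atTop :=
    (tendsto_rpow_atTop (by linarith)).comp tendsto_natCast_atTop_atTop
  filter_upwards [h3.eventually (gt_mem_nhds (zero_lt_one)), h4.eventually_ge_atTop (1 + |D|),
    eventually_ge_atTop 1] with n hn1 hn2 hn3
  have hn0 : (0 : ℝ) < n := by exact_mod_cast hn3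
  have hp : 0 < (n : ℝ) ^ (β / 2) := Real.rpow_pos_of_pos hn0 _
  simp only [Function.comp] at hn1
  rw [← mul_div_assoc, div_lt_one hp] at hn1
  have h5 : C * Real.log n ^ 2 ≤ |C| * Real.log n ^ 2 :=
    mul_le_mul_of_nonneg_right (le_abs_self C) (by positivity)
  have h6 : (n : ℝ) ^ β = (n : ℝ) ^ (β / 2) * (n : ℝ) ^ (β / 2) := by
    rw [← Real.rpow_add hn0]; congr 1; ring
  have h7 := le_abs_self D
  have h8 := abs_nonneg D
  rw [h6]
  nlinarith

theorem ev_inv {p : ℝ → Prop} (h : ∀ᶠ e in 𝓝[>] (0 : ℝ), p e) :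
    ∀ᶠ n : ℕ in atTop, p (1 / (n : ℝ)) := by
  have h1 : Tendsto (fun n : ℕ => 1 / (n : ℝ)) atTop (𝓝[>] 0) := by
    rw [tendsto_nhdsWithin_iff]
    refine ⟨tendsto_one_div_atTop_nhds_zero_nat, ?_⟩
    filter_upwards [eventually_ge_atTop 1] with n hn
    have hn0 : (0 : ℝ) < n := by exact_mod_cast hn
    exact one_div_pos.2 hn0
  exact h1.eventually h

/-- from small real numbers to integers -/
theorem ev_floor {p : ℝ → Prop} (h : ∀ᶠ n : ℕ in atTop, ∀ e : ℝ, 0 < e → e ≤ 1 / n →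
    1 / ((n : ℝ) + 1) < e → p e) : ∀ᶠ e in 𝓝[>] (0 : ℝ), p e := by
  obtain ⟨N, hN⟩ := eventually_atTop.1 (h.and (eventually_ge_atTop 1))
  have h1 : (0 : ℝ) < 1 / ((N : ℝ) + 1) := by positivity
  filter_upwards [Ioo_mem_nhdsGT h1] with e he
  obtain ⟨he0, he1⟩ := he
  obtain ⟨n, hn⟩ : ∃ n, n = ⌊1 / e⌋₊ := ⟨_, rfl⟩
  have hinv : (N : ℝ) + 1 < 1 / e := by
    rw [lt_div_iff₀ he0]
    rw [lt_div_iff₀ (by positivity)] at he1
    linarith
  have h2 : (n : ℝ) ≤ 1 / e := by rw [hn]; exact Nat.floor_le (by positivity)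
  have h3 : 1 / e < (n : ℝ) + 1 := by rw [hn]; exact Nat.lt_floor_add_one _
  have hNn : N ≤ n := by
    have : (N : ℝ) < n := by linarith
    exact_mod_cast this.le
  obtain ⟨h4, h5⟩ := hN n hNn
  have hn0 : (0 : ℝ) < n := by exact_mod_cast h5
  apply h4 e he0
  · rw [le_div_iff₀ hn0]
    rw [le_div_iff₀ he0] at h2
    linarith
  · rw [div_lt_iff₀ (by positivity)]
    rw [div_lt_iff₀ he0] at h3
    linarith

end Pool.Agent.Y981.L2
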