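import Pool.Agent.TH795.SE2.Dbl
import Pool.Agent.TH795.SE2.Blob

/-!
Pointwise quasi-supermultiplicativity of the number of self-avoiding words with given ends.
-/

set_option autoImplicit false

namespace Pool.Agent.Y981.L2

open Pool.Agent.TH795.EP Pool.Agent.TH795.EP2 Pool.Agent.TH795.SE2 H981 Finset

theorem one_le_q {n : ℕ} (hn : 2 ≤ n) {K : ℝ} (hK : 0 ≤ K) : 1 ≤ q n K := by
  have h := q_mono hn hK
  rwa [q_zero] at h

/-- lengthening by an even number of steps -/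
theorem lengthen {n : ℕ} (hn : 2 ≤ n) {K : ℝ} (hK0 : 0 ≤ K)
    (hlow : ∀ j : ℕ, 2 ≤ j → j ≤ n → mu ^ (2 * j) * q n (-K) ≤ ar (2 * j - 1))
    {m j : ℕ} (hm : 1 ≤ m) (hmn : m + 2 * j ≤ n) (x y : ℤ) :
    (a m x y : ℝ) * mu ^ (2 * j) ≤ q n (K + 21) * a (m + 2 * j) x y := by
  have hmu := mu_pos
  have hn0 : (2 : ℝ) ≤ n := by exact_mod_cast hn
  have hmn' : (m : ℝ) ≤ n := by exact_mod_cast (by omega : m ≤ n)
  rcases Nat.eq_zero_or_pos j with h0 | h0
  · subst h0
    simp only [mul_zero, pow_zero, mul_one, add_zero]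
    have h1 := one_le_q hn (by linarith : (0 : ℝ) ≤ K + 21)
    have h2 : (0 : ℝ) ≤ a m x y := Nat.cast_nonneg _
    nlinarith
  · rcases Nat.lt_or_ge j 2 with h1 | h1
    · obtain rfl : j = 1 := by omega
      have h2 := a_mul_ar hm 1 x y
      have h3 := one_le_ar (j := 1) le_rfl
      norm_num at h3
      have h4 : (a m x y : ℝ) ≤ 4 * m * a (m + 2) x y := by
        have : a m x y ≤ 4 * m * a (m + 2) x y := by
          calc a m x y = a m x y * 1 := (mul_one _).symm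
            _ ≤ a m x y * ar 1 := Nat.mul_le_mul_left _ h3
            _ ≤ _ := h2
        exact_mod_cast this
      have h5 : mu ^ 2 ≤ 16 := by
        have := mu_le_four
        nlinarith
      have h6 : (n : ℝ) ^ 7 ≤ q n (K + 21) := by
        have h7 := pow_le_q hn 7
        norm_num at h7
        exact h7.trans (q_mono hn (by linarith))
      have hA : (0 : ℝ) ≤ a (m + 2) x y := Nat.cast_nonneg _
      have h8 : (64 : ℝ) * m ≤ (n : ℝ) ^ 7 := by
        have h9 : (64 : ℝ) ≤ (n : ℝ) ^ 6 := by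
          calc (64 : ℝ) = 2 ^ 6 := by norm_num
            _ ≤ (n : ℝ) ^ 6 := pow_le_pow_left₀ (by norm_num) hn0 6
        calc (64 : ℝ) * m ≤ (n : ℝ) ^ 6 * n := mul_le_mul h9 hmn' (Nat.cast_nonneg _) (by positivity)
          _ = (n : ℝ) ^ 7 := by ring
      calc (a m x y : ℝ) * mu ^ (2 * 1) ≤ (4 * m * a (m + 2) x y) * 16 := by
            rw [mul_one]
            exact mul_le_mul h4 h5 (by positivity) (by positivity)
        _ = (64 * m) * a (m + 2) x y := by ring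
        _ ≤ q n (K + 21) * a (m + 2) x y := mul_le_mul_of_nonneg_right (h8.trans h6) hA
        _ = _ := by norm_num
    · have h2 := hlow j h1 (by omega)
      have h3 := a_mul_ar hm (2 * j - 1) x y
      rw [show m + (2 * j - 1) + 1 = m + 2 * j by omega] at h3
      have h4 : (a m x y : ℝ) * ar (2 * j - 1) ≤ 4 * m * a (m + 2 * j) x y := by exact_mod_cast h3
      have hA : (0 : ℝ) ≤ a (m + 2 * j) x y := Nat.cast_nonneg _
      have hA' : (0 : ℝ) ≤ a m x y := Nat.cast_nonneg _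
      have hq := q_pos n K
      have h5 : (a m x y : ℝ) * (mu ^ (2 * j) * q n (-K)) ≤ 4 * m * a (m + 2 * j) x y :=
        (mul_le_mul_of_nonneg_left h2 hA').trans h4
      have h6 : (4 : ℝ) * m ≤ q n 9 := by
        have h7 := pow_le_q hn 3
        norm_num at h7
        refine le_trans ?_ h7
        have h9 : (4 : ℝ) ≤ (n : ℝ) ^ 2 := by nlinarith
        calc (4 : ℝ) * m ≤ (n : ℝ) ^ 2 * n := mul_le_mul h9 hmn' (Nat.cast_nonneg _) (by positivity)
          _ = (n : ℝ) ^ 3 := by ring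
      calc (a m x y : ℝ) * mu ^ (2 * j)
          = ((a m x y : ℝ) * (mu ^ (2 * j) * q n (-K))) * q n K := by
            rw [show (a m x y : ℝ) * (mu ^ (2 * j) * q n (-K)) * q n K =
              (a m x y : ℝ) * mu ^ (2 * j) * (q n K * q n (-K)) by ring, q_cancel, mul_one]
        _ ≤ (4 * m * a (m + 2 * j) x y) * q n K := mul_le_mul_of_nonneg_right h5 hq.le
        _ ≤ (q n 9 * a (m + 2 * j) x y) * q n K := by gcongr
        _ = (q n K * q n 9) * a (m + 2 * j) x y := by ring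
        _ = q n (K + 9) * a (m + 2 * j) x y := by rw [q_mul]
        _ ≤ _ := mul_le_mul_of_nonneg_right (q_mono hn (by linarith)) hA

/-- **Pointwise quasi-supermultiplicativity.** -/
theorem a_glue : ∃ K : ℝ, 0 ≤ K ∧ ∀ n : ℕ, 2 ≤ n → ∀ m1 m2 : ℕ, m1 + m2 ≤ n →
    ∀ x1 y1 x2 y2 : ℤ, (x1 + x2, y1 + y2) ≠ (0, 0) →
    (a m1 x1 y1 : ℝ) * a m2 x2 y2 ≤ q n K * a (m1 + m2) (x1 + x2) (y1 + y2) := by
  obtain ⟨K, hK0, hup, hlow⟩ := exists_K
  refine ⟨3 * K + 33, by positivity, ?_⟩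
  intro n hn m1 m2 hm x1 y1 x2 y2 hz
  have hmu := mu_pos
  rcases Nat.eq_zero_or_pos (a m1 x1 y1) with h1 | h1
  · rw [h1]
    have := q_pos n (3 * K + 33)
    simp only [Nat.cast_zero, zero_mul]
    positivity
  rcases Nat.eq_zero_or_pos (a m2 x2 y2) with h2 | h2
  · rw [h2]
    have := q_pos n (3 * K + 33)
    simp only [Nat.cast_zero, mul_zero]
    positivity
  obtain ⟨w1, hw1, hx1, hy1, hl1⟩ := exists_of_a h1
  obtain ⟨w2, hw2, hx2, hy2, hl2⟩ := exists_of_a h2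
  have p1 := parity w1
  have p2 := parity w2
  have hcard : ((a m1 x1 y1 : ℝ)) * a m2 x2 y2 ≤ ∑ p ∈ range (m1 + 1) ×ˢ range (m2 + 1),
      (a (p.1 + (m2 - p.2)) (x1 + x2) (y1 + y2) : ℝ) * (c (m1 - p.1) * c p.2) := by
    exact_mod_cast glue_card m1 m2 x1 y1 x2 y2
  have hA : (0 : ℝ) ≤ a (m1 + m2) (x1 + x2) (y1 + y2) := Nat.cast_nonneg _
  have hterm : ∀ p ∈ range (m1 + 1) ×ˢ range (m2 + 1),
      (a (p.1 + (m2 - p.2)) (x1 + x2) (y1 + y2) : ℝ) * (c (m1 - p.1) * c p.2) ≤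
        q n (3 * K + 21) * a (m1 + m2) (x1 + x2) (y1 + y2) := by
    intro p hp
    rw [Finset.mem_product, Finset.mem_range, Finset.mem_range] at hp
    rcases Nat.eq_zero_or_pos (a (p.1 + (m2 - p.2)) (x1 + x2) (y1 + y2)) with h3 | h3
    · rw [h3]
      have := q_pos n (3 * K + 21)
      simp only [Nat.cast_zero, zero_mul]
      positivity
    obtain ⟨w3, hw3, hx3, hy3, hl3⟩ := exists_of_a h3
    have p3 := parity w3
    have hm1 : 1 ≤ p.1 + (m2 - p.2) := by
      by_contra hcon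
      have : w3 = [] := List.length_eq_zero_iff.1 (by omega)
      subst this
      apply hz
      rw [← hx3, ← hy3]
      rfl
    obtain ⟨j, hj⟩ : ∃ j : ℕ, (m1 - p.1) + p.2 = 2 * j := by
      refine ⟨((m1 - p.1) + p.2) / 2, ?_⟩
      omega
    have e1 : (p.1 + (m2 - p.2)) + 2 * j = m1 + m2 := by omega
    have e2 := hup n hn (m1 - p.1) (by omega)
    have e3 := hup n hn p.2 (by omega)
    have e4 := lengthen hn hK0 (hlow n hn) hm1 (by omega : (p.1 + (m2 - p.2)) + 2 * j ≤ n)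
      (x1 + x2) (y1 + y2)
    rw [e1] at e4
    have g2 := q_pos n K
    calc (a (p.1 + (m2 - p.2)) (x1 + x2) (y1 + y2) : ℝ) * (c (m1 - p.1) * c p.2)
        ≤ (a (p.1 + (m2 - p.2)) (x1 + x2) (y1 + y2) : ℝ) *
          ((mu ^ (m1 - p.1) * q n K) * (mu ^ p.2 * q n K)) := by
          gcongr
      _ = ((a (p.1 + (m2 - p.2)) (x1 + x2) (y1 + y2) : ℝ) * (mu ^ (m1 - p.1) * mu ^ p.2)) *
          (q n K * q n K) := by ring
      _ = ((a (p.1 + (m2 - p.2)) (x1 + x2) (y1 + y2) : ℝ) * mu ^ (2 * j)) * q n (K + K) := by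
          rw [← pow_add, hj, q_mul]
      _ ≤ (q n (K + 21) * a (m1 + m2) (x1 + x2) (y1 + y2)) * q n (K + K) :=
          mul_le_mul_of_nonneg_right e4 (q_pos _ _).le
      _ = (q n (K + 21) * q n (K + K)) * a (m1 + m2) (x1 + x2) (y1 + y2) := by ring
      _ = _ := by rw [q_mul]; congr 2; ring
  have hsum := Finset.sum_le_card_nsmul _ _ _ hterm
  rw [Finset.card_product, Finset.card_range, Finset.card_range, nsmul_eq_mul] at hsum
  have hnum : (((m1 + 1) * (m2 + 1) : ℕ) : ℝ) ≤ q n 12 := by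
    have h3 := pow_le_q hn 4
    norm_num at h3
    refine le_trans ?_ h3
    have h4 : (m1 + 1) * (m2 + 1) ≤ n ^ 4 := by
      calc (m1 + 1) * (m2 + 1) ≤ (n + 1) * (n + 1) := Nat.mul_le_mul (by omega) (by omega)
        _ ≤ n ^ 2 * n ^ 2 := by
            have : n + 1 ≤ n ^ 2 := by nlinarith
            exact Nat.mul_le_mul this this
        _ = n ^ 4 := by ring
    exact_mod_cast h4
  have hQ := q_pos n (3 * K + 21)
  calc ((a m1 x1 y1 : ℝ)) * a m2 x2 y2 ≤ _ := hcard.trans hsum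
    _ ≤ q n 12 * (q n (3 * K + 21) * a (m1 + m2) (x1 + x2) (y1 + y2)) :=
        mul_le_mul_of_nonneg_right hnum (by positivity)
    _ = (q n 12 * q n (3 * K + 21)) * a (m1 + m2) (x1 + x2) (y1 + y2) := by ring
    _ = _ := by rw [q_mul]; congr 2; ring

end Pool.Agent.Y981.L2
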