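import Pool.Agent.Y981.L2.Glue
import Pool.Agent.TH262.SawL.Lp

/-!
Self-avoiding words in a half plane: the cyclic shift at the highest point, and insertion of
polygons into arches.
-/

set_option autoImplicit false

namespace Pool.Agent.Y981.L2

open Pool.Agent.TH795.EP Pool.Agent.TH795.EP2 Pool.Agent.TH795.SE2 Pool.Agent.TH262.SawL H981 Finset

/-- the word stays in the lower half plane -/
def Lo (w : List St) : Prop := ∀ k, (path w k).2 ≤ 0

/-- number of self-avoiding words in the lower half plane with displacement `(x, y)` -/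
noncomputable def la (m : ℕ) (x y : ℤ) : ℕ :=
  (fs (fun w => (Saw w ∧ dx w = x ∧ dy w = y) ∧ Lo w) m).card

theorem path_ge {w : List St} {k : ℕ} (h : w.length ≤ k) : path w k = path w w.length := by
  unfold path
  rw [List.take_of_length_le h, List.take_length]

/-- the cyclic shift at the highest point -/
theorem cyc_exists (w : List St) : ∃ t, t ≤ w.length ∧ (∀ k, (path (w.drop t) k).2 ≤ 0) ∧
    ∀ k, (path (w.take t) k).2 ≤ dy (w.take t) := by
  obtain ⟨t, ht, hmax⟩ : ∃ t ∈ range (w.length + 1), ∀ k ∈ range (w.length + 1),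
      (path w k).2 ≤ (path w t).2 :=
    Finset.exists_max_image (range (w.length + 1)) (fun k => (path w k).2) ⟨0, by simp⟩
  rw [Finset.mem_range] at ht
  have hmax' : ∀ k, (path w k).2 ≤ (path w t).2 := by
    intro k
    rcases le_or_gt k w.length with h | h
    · exact hmax k (by rw [Finset.mem_range]; omega)
    · rw [path_ge h.le]
      exact hmax _ (by rw [Finset.mem_range]; omega)
  refine ⟨t, by omega, fun k => ?_, fun k => ?_⟩
  · have h1 := congrArg Prod.snd (path_drop w t k)
    simp only at h1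
    have h2 := hmax' (t + k)
    omega
  · have h1 : (path w t).2 = dy (w.take t) := rfl
    rw [← h1]
    rcases le_or_gt k t with h | h
    · rw [path_take h]
      exact hmax' k
    · have h2 : (w.take t).length = t := by rw [List.length_take]; omega
      rw [path_ge (by omega : (w.take t).length ≤ k), h2, path_take le_rfl]

theorem lo_glue {u v : List St} {i j : ℕ} (hi : i ≤ u.length)
    (hu : ∀ k, (path u k).2 ≤ 0) (hv : ∀ k, (path v k).2 ≤ dy v) (huv : dy u + dy v ≤ 0)
    (h : dy (u.take i ++ v.drop j) = dy u + dy v) : Lo (u.take i ++ v.drop j) := by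
  have hlen : (u.take i).length = i := by rw [List.length_take]; omega
  intro k
  rcases le_or_gt k i with h1 | h1
  · rw [path_append_left (by omega), path_take h1]
    exact hu k
  · obtain ⟨l, rfl⟩ : ∃ l, k = i + l := ⟨k - i, by omega⟩
    have g := path_append_right (u.take i) (v.drop j) l
    rw [hlen] at g
    rw [g]
    simp only
    have g1 := congrArg Prod.snd (path_drop v j l)
    simp only at g1
    have g2 : (path v j).2 = dy (v.take j) := rfl
    have f2 : dy v = dy (v.take j) + dy (v.drop j) := by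
      rw [← dy_append, List.take_append_drop]
    rw [dy_append] at h
    have g3 := hv (j + l)
    omega

theorem cyc_card (m : ℕ) {x y : ℤ} (hy : y ≤ 0) :
    a m x y ≤ ∑ p ∈ (range (m + 1)).sigma (fun t => range (m - t + 1) ×ˢ range (t + 1)),
      la (p.2.1 + (p.1 - p.2.2)) x y * (c (m - p.1 - p.2.1) * c p.2.2) := by
  classical
  unfold a la c
  have e : ∀ p : (_ : ℕ) × (ℕ × ℕ),
      (fs (fun w => (Saw w ∧ dx w = x ∧ dy w = y) ∧ Lo w) (p.2.1 + (p.1 - p.2.2))).card *
        ((fs Saw (m - p.1 - p.2.1)).card * (fs Saw p.2.2).card) =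
      (fs (fun w => (Saw w ∧ dx w = x ∧ dy w = y) ∧ Lo w) (p.2.1 + (p.1 - p.2.2)) ×ˢ
        (fs Saw (m - p.1 - p.2.1) ×ˢ fs Saw p.2.2)).card := by
    intro p
    rw [Finset.card_product, Finset.card_product]
  simp only [e]
  rw [← Finset.card_sigma]
  apply card_le_of_decode (fun q => (q.2.2.2 ++ q.2.1.drop q.1.2.1) ++
    (q.2.1.take q.1.2.1 ++ q.2.2.1))
  intro w hw
  rw [mem_fs] at hw
  obtain ⟨⟨hw1, hwx, hwy⟩, hwl⟩ := hw
  obtain ⟨t, ht, hu, hv⟩ := cyc_exists w
  have hsu : Saw (w.drop t) := hw1.subw (List.drop_suffix _ _).isInfix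
  have hsv : Saw (w.take t) := hw1.subw (List.take_prefix _ _).isInfix
  have hlu : (w.drop t).length = m - t := by rw [List.length_drop, hwl]
  have hlv : (w.take t).length = t := by rw [List.length_take]; omega
  have f1 : dx w = dx (w.take t) + dx (w.drop t) := by rw [← dx_append, List.take_append_drop]
  have f2 : dy w = dy (w.take t) + dy (w.drop t) := by rw [← dy_append, List.take_append_drop]
  obtain ⟨i, j, hi, hj, h1, h2, h3⟩ := glue_exists hsu hsv
  have hlen : ((w.drop t).take i).length = i := by rw [List.length_take]; omega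
  refine ⟨⟨⟨t, (i, j)⟩, ((w.drop t).take i ++ (w.take t).drop j, (w.drop t).drop i,
    (w.take t).take j)⟩, ?_, ?_⟩
  · rw [Finset.mem_sigma, Finset.mem_sigma, Finset.mem_product, Finset.mem_product,
      Finset.mem_product, mem_fs, mem_fs, mem_fs, Finset.mem_range, Finset.mem_range,
      Finset.mem_range]
    simp only
    refine ⟨⟨by omega, by omega, by omega⟩, ⟨⟨⟨h1, by omega, by omega⟩, ?_⟩, ?_⟩, ⟨?_, ?_⟩, ?_, ?_⟩
    · exact lo_glue hi hu hv (by omega) h3
    · rw [List.length_append, hlen, List.length_drop, hlv]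
    · exact hsu.subw (List.drop_suffix _ _).isInfix
    · rw [List.length_drop, hlu]
    · exact hsv.subw (List.take_prefix _ _).isInfix
    · rw [List.length_take]; omega
  · simp only
    have g1 : ((w.drop t).take i ++ (w.take t).drop j).take i = (w.drop t).take i := by
      have := List.take_left (l₁ := (w.drop t).take i) (l₂ := (w.take t).drop j)
      rwa [hlen] at this
    have g2 : ((w.drop t).take i ++ (w.take t).drop j).drop i = (w.take t).drop j := by
      have := List.drop_left (l₁ := (w.drop t).take i) (l₂ := (w.take t).drop j)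
      rwa [hlen] at this
    rw [g1, g2, List.take_append_drop, List.take_append_drop, List.take_append_drop]

/-! ### insertion -/

theorem lo_ins {w : List St} {i : ℕ} (hi : i < w.length) {t' : List St}
    (hx : dx t' = (w[i]).x) (hy : dy t' = (w[i]).y) (hw : Lo w)
    (hneg : ∀ k, (path t' k).2 ≤ 0) : Lo (ins w i t') := by
  have key : ∀ k, k ≤ w.length + t'.length + 1 → (path (ins w i t') k).2 ≤ 0 := by
    intro k hk
    by_cases h1 : k ≤ i
    · rw [path_ins_left hi t' h1]; exact hw k
    · by_cases h2 : k ≤ i + (t'.length + 1)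
      · obtain ⟨l, rfl⟩ : ∃ l, k = i + (l + 1) := ⟨k - i - 1, by omega⟩
        rw [path_ins_mid hi t' (by omega)]
        have := hw i
        have := hneg l
        simp only
        omega
      · obtain ⟨l, rfl⟩ : ∃ l, k = i + (t'.length + (l + 1) + 1) :=
          ⟨k - i - t'.length - 2, by omega⟩
        rw [path_ins_right hi hx hy]
        exact hw _
  intro k
  rcases le_or_gt k (w.length + t'.length + 1) with h | h
  · exact key k h
  · rw [path_ge (by rw [length_ins hi]; omega)]
    exact key _ (by rw [length_ins hi])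

theorem lo_bot {w : List St} (hw : Saw w) (h0 : 0 < w.length) (hlo : Lo w) (hy : dy w = 0) :
    Bot w := by
  by_contra hb
  rcases not_bot hw h0 hb with h | h
  · have h1 := path_succ h0
    rw [h] at h1
    have h2 := hlo 1
    have h3 : (path w 0).2 = 0 := by simp [path]
    simp only [zero_add, St.y_N] at h1
    have h4 := h1.2
    omega
  · have hlt : w.length - 1 < w.length := by omega
    have h1 := path_succ hlt
    rw [h, Nat.sub_add_cancel (by omega : 1 ≤ w.length), path_len] at h1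
    have h2 := hlo (w.length - 1)
    have h3 := h1.2
    simp only [St.y_S] at h3
    omega

theorem la_mul_ar {m : ℕ} (hm : 1 ≤ m) (L : ℕ) (x : ℤ) :
    la m x 0 * ar L ≤ m * la (m + L + 1) x 0 := by
  classical
  unfold la ar
  have e : m * (fs (fun w => (Saw w ∧ dx w = x ∧ dy w = 0) ∧ Lo w) (m + L + 1)).card =
      (range m ×ˢ fs (fun w => (Saw w ∧ dx w = x ∧ dy w = 0) ∧ Lo w) (m + L + 1)).card := by
    rw [Finset.card_product, Finset.card_range]
  rw [← Finset.card_product, e]
  apply card_le_of_decode (fun q => (q.2.take q.1 ++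
    ((if dx ((q.2.drop (q.1 + 1)).take L) = 1 then St.E else St.W) ::
      q.2.drop (q.1 + 1 + L + 1)),
    (if dx ((q.2.drop (q.1 + 1)).take L) = 1 then (q.2.drop (q.1 + 1)).take L else
      sg ((q.2.drop (q.1 + 1)).take L))))
  rintro ⟨w, t⟩ h
  rw [Finset.mem_product, mem_fs, mem_fs] at h
  obtain ⟨⟨⟨⟨hw, hwx, hwy⟩, hlo⟩, hwl⟩, ⟨ht, htx, hty, htn⟩, htl⟩ := h
  simp only at hw hwx hwy hlo hwl ht htx hty htn htl
  obtain ⟨i, hi, hs, hmin⟩ := lo_bot hw (by omega) hlo hwy
  have hx : dx (tw w[i] t) = (w[i]).x := dx_tw hs htx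
  have hy : dy (tw w[i] t) = (w[i]).y := by
    rw [dy_tw, hty]
    rcases hs with h | h <;> rw [h] <;> rfl
  have hlt : (tw w[i] t).length = L := by rw [length_tw, htl]
  have hd := disp_ins hi hx hy
  have hneg : ∀ k, (path (tw w[i] t) k).2 ≤ 0 := fun k => by rw [path_tw_snd]; exact htn k
  refine ⟨(i, ins w i (tw w[i] t)), ?_, ?_⟩
  · rw [Finset.mem_product, mem_fs, Finset.mem_range]
    refine ⟨by omega, ⟨⟨saw_ins hw hi (saw_tw ht) hx hy hmin hneg, ?_, ?_⟩,
      lo_ins hi hx hy hlo hneg⟩, ?_⟩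
    · rw [hd.1, hwx]
    · rw [hd.2, hwy]
    · simp only
      rw [length_ins hi, hlt, hwl]
  · simp only
    have hlen : (w.take i).length = i := by rw [List.length_take]; omega
    have g1 : (ins w i (tw w[i] t)).take i = w.take i := by
      unfold ins
      have := List.take_left (l₁ := w.take i)
        (l₂ := St.S :: (tw w[i] t ++ (St.N :: w.drop (i + 1))))
      rwa [hlen] at this
    have g2 : (ins w i (tw w[i] t)).drop (i + 1) = tw w[i] t ++ (St.N :: w.drop (i + 1)) := by
      unfold ins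
      have := List.drop_left (l₁ := w.take i)
        (l₂ := St.S :: (tw w[i] t ++ (St.N :: w.drop (i + 1))))
      rw [hlen] at this
      rw [← List.drop_drop, this, List.drop_succ_cons, List.drop_zero]
    have g3 : ((ins w i (tw w[i] t)).drop (i + 1)).take L = tw w[i] t := by
      rw [g2]
      have := List.take_left (l₁ := tw w[i] t) (l₂ := St.N :: w.drop (i + 1))
      rwa [hlt] at this
    have g4 : (ins w i (tw w[i] t)).drop (i + 1 + L + 1) = w.drop (i + 1) := by
      have := List.drop_left (l₁ := tw w[i] t) (l₂ := St.N :: w.drop (i + 1))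
      rw [hlt] at this
      rw [show i + 1 + L + 1 = (i + 1) + L + 1 by ring, ← List.drop_drop, ← List.drop_drop, g2,
        this, List.drop_succ_cons, List.drop_zero]
    rw [g1, g3, g4, hx]
    have hw2 : w.take i ++ (w[i] :: w.drop (i + 1)) = w := by
      rw [← List.drop_eq_getElem_cons hi, List.take_append_drop]
    rcases hs with h | h
    · rw [h, St.x_E, if_pos rfl, if_pos rfl]
      rw [h] at hw2
      simp only [hw2, tw, if_true]
    · rw [h, St.x_W, if_neg (by norm_num), if_neg (by norm_num)]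
      rw [h] at hw2
      have : tw St.W t = sg t := by simp [tw]
      rw [hw2, this, sg_sg]

/-- lengthening of arches -/
theorem la_lengthen {n : ℕ} (hn : 2 ≤ n) {K : ℝ} (hK0 : 0 ≤ K)
    (hlow : ∀ j : ℕ, 2 ≤ j → j ≤ n → mu ^ (2 * j) * q n (-K) ≤ ar (2 * j - 1))
    {m j : ℕ} (hm : 1 ≤ m) (hmn : m + 2 * j ≤ n) (x : ℤ) :
    (la m x 0 : ℝ) * mu ^ (2 * j) ≤ q n (K + 21) * la (m + 2 * j) x 0 := by
  have hmu := mu_pos
  have hn0 : (2 : ℝ) ≤ n := by exact_mod_cast hn
  have hmn' : (m : ℝ) ≤ n := by exact_mod_cast (by omega : m ≤ n)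
  rcases Nat.eq_zero_or_pos j with h0 | h0
  · subst h0
    simp only [mul_zero, pow_zero, mul_one, add_zero]
    have h1 := one_le_q hn (by linarith : (0 : ℝ) ≤ K + 21)
    have h2 : (0 : ℝ) ≤ la m x 0 := Nat.cast_nonneg _
    nlinarith
  · rcases Nat.lt_or_ge j 2 with h1 | h1
    · obtain rfl : j = 1 := by omega
      have h2 := la_mul_ar hm 1 x
      have h3 := one_le_ar (j := 1) le_rfl
      norm_num at h3
      have h4 : (la m x 0 : ℝ) ≤ m * la (m + 2) x 0 := by
        have : la m x 0 ≤ m * la (m + 2) x 0 := by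
          calc la m x 0 = la m x 0 * 1 := (mul_one _).symm
            _ ≤ la m x 0 * ar 1 := Nat.mul_le_mul_left _ h3
            _ ≤ _ := h2
        exact_mod_cast this
      have h5 : mu ^ 2 ≤ 16 := by
        have := mu_le_four
        nlinarith
      have h6 : (n : ℝ) ^ 7 ≤ q n (K + 21) := by
        have h7 := pow_le_q hn 7
        norm_num at h7
        exact h7.trans (q_mono hn (by linarith))
      have hA : (0 : ℝ) ≤ la (m + 2) x 0 := Nat.cast_nonneg _
      have h8 : (16 : ℝ) * m ≤ (n : ℝ) ^ 7 := by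
        have h9 : (16 : ℝ) ≤ (n : ℝ) ^ 6 := by
          calc (16 : ℝ) ≤ 2 ^ 6 := by norm_num
            _ ≤ (n : ℝ) ^ 6 := pow_le_pow_left₀ (by norm_num) hn0 6
        calc (16 : ℝ) * m ≤ (n : ℝ) ^ 6 * n := mul_le_mul h9 hmn' (Nat.cast_nonneg _) (by positivity)
          _ = (n : ℝ) ^ 7 := by ring
      calc (la m x 0 : ℝ) * mu ^ (2 * 1) ≤ (m * la (m + 2) x 0) * 16 := by
            rw [mul_one]
            exact mul_le_mul h4 h5 (by positivity) (by positivity)
        _ = (16 * m) * la (m + 2) x 0 := by ring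
        _ ≤ q n (K + 21) * la (m + 2) x 0 := mul_le_mul_of_nonneg_right (h8.trans h6) hA
        _ = _ := by norm_num
    · have h2 := hlow j h1 (by omega)
      have h3 := la_mul_ar hm (2 * j - 1) x
      rw [show m + (2 * j - 1) + 1 = m + 2 * j by omega] at h3
      have h4 : (la m x 0 : ℝ) * ar (2 * j - 1) ≤ m * la (m + 2 * j) x 0 := by exact_mod_cast h3
      have hA : (0 : ℝ) ≤ la (m + 2 * j) x 0 := Nat.cast_nonneg _
      have hA' : (0 : ℝ) ≤ la m x 0 := Nat.cast_nonneg _
      have hq := q_pos n K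
      have h5 : (la m x 0 : ℝ) * (mu ^ (2 * j) * q n (-K)) ≤ m * la (m + 2 * j) x 0 :=
        (mul_le_mul_of_nonneg_left h2 hA').trans h4
      have h6 : (m : ℝ) ≤ q n 9 := by
        have h7 := pow_le_q hn 3
        norm_num at h7
        refine le_trans ?_ h7
        nlinarith [sq_nonneg ((n : ℝ) - 1)]
      calc (la m x 0 : ℝ) * mu ^ (2 * j)
          = ((la m x 0 : ℝ) * (mu ^ (2 * j) * q n (-K))) * q n K := by
            rw [show (la m x 0 : ℝ) * (mu ^ (2 * j) * q n (-K)) * q n K =
              (la m x 0 : ℝ) * mu ^ (2 * j) * (q n K * q n (-K)) by ring, q_cancel, mul_one]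
        _ ≤ (m * la (m + 2 * j) x 0) * q n K := mul_le_mul_of_nonneg_right h5 hq.le
        _ ≤ (q n 9 * la (m + 2 * j) x 0) * q n K := by gcongr
        _ = (q n K * q n 9) * la (m + 2 * j) x 0 := by ring
        _ = q n (K + 9) * la (m + 2 * j) x 0 := by rw [q_mul]
        _ ≤ _ := mul_le_mul_of_nonneg_right (q_mono hn (by linarith)) hA

theorem exists_of_la {m : ℕ} {x y : ℤ} (h : 0 < la m x y) :
    ∃ w, Saw w ∧ dx w = x ∧ dy w = y ∧ w.length = m := by
  unfold la at h
  obtain ⟨w, hw⟩ := Finset.card_pos.1 h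
  rw [mem_fs] at hw
  exact ⟨w, hw.1.1.1, hw.1.1.2.1, hw.1.1.2.2, hw.2⟩

/-- **Arches are as numerous as walks with the same ends**, up to a quasi-polynomial factor. -/
theorem a_le_la : ∃ K : ℝ, 0 ≤ K ∧ ∀ n : ℕ, 2 ≤ n → ∀ m ≤ n, ∀ x : ℤ, x ≠ 0 →
    (a m x 0 : ℝ) ≤ q n K * la m x 0 := by
  obtain ⟨K, hK0, hup, hlow⟩ := exists_K
  refine ⟨3 * K + 45, by positivity, ?_⟩
  intro n hn m hm x hz
  have hmu := mu_pos
  rcases Nat.eq_zero_or_pos (a m x 0) with h1 | h1
  · rw [h1]
    have := q_pos n (3 * K + 45)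
    simp only [Nat.cast_zero]
    positivity
  obtain ⟨w1, hw1, hx1, hy1, hl1⟩ := exists_of_a h1
  have p1 := parity w1
  have hcard : (a m x 0 : ℝ) ≤
      ∑ p ∈ (range (m + 1)).sigma (fun t => range (m - t + 1) ×ˢ range (t + 1)),
      (la (p.2.1 + (p.1 - p.2.2)) x 0 : ℝ) * (c (m - p.1 - p.2.1) * c p.2.2) := by
    exact_mod_cast cyc_card m (x := x) le_rfl
  have hA : (0 : ℝ) ≤ la m x 0 := Nat.cast_nonneg _
  have hterm : ∀ p ∈ (range (m + 1)).sigma (fun t => range (m - t + 1) ×ˢ range (t + 1)),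
      (la (p.2.1 + (p.1 - p.2.2)) x 0 : ℝ) * (c (m - p.1 - p.2.1) * c p.2.2) ≤
        q n (3 * K + 21) * la m x 0 := by
    intro p hp
    rw [Finset.mem_sigma, Finset.mem_product, Finset.mem_range, Finset.mem_range,
      Finset.mem_range] at hp
    obtain ⟨ht, hp1, hp2⟩ := hp
    rcases Nat.eq_zero_or_pos (la (p.2.1 + (p.1 - p.2.2)) x 0) with h3 | h3
    · rw [h3]
      have := q_pos n (3 * K + 21)
      simp only [Nat.cast_zero, zero_mul]
      positivity
    obtain ⟨w3, hw3, hx3, hy3, hl3⟩ := exists_of_la h3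
    have p3 := parity w3
    have hm1 : 1 ≤ p.2.1 + (p.1 - p.2.2) := by
      by_contra hcon
      have : w3 = [] := List.length_eq_zero_iff.1 (by omega)
      subst this
      apply hz
      rw [← hx3]
      rfl
    obtain ⟨j, hj⟩ : ∃ j : ℕ, (m - p.1 - p.2.1) + p.2.2 = 2 * j := by
      refine ⟨((m - p.1 - p.2.1) + p.2.2) / 2, ?_⟩
      omega
    have e1 : (p.2.1 + (p.1 - p.2.2)) + 2 * j = m := by omega
    have e2 := hup n hn (m - p.1 - p.2.1) (by omega)
    have e3 := hup n hn p.2.2 (by omega)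
    have e4 := la_lengthen hn hK0 (hlow n hn) hm1 (by omega : (p.2.1 + (p.1 - p.2.2)) + 2 * j ≤ n) x
    rw [e1] at e4
    have g2 := q_pos n K
    calc (la (p.2.1 + (p.1 - p.2.2)) x 0 : ℝ) * (c (m - p.1 - p.2.1) * c p.2.2)
        ≤ (la (p.2.1 + (p.1 - p.2.2)) x 0 : ℝ) *
          ((mu ^ (m - p.1 - p.2.1) * q n K) * (mu ^ p.2.2 * q n K)) := by
          gcongr
      _ = ((la (p.2.1 + (p.1 - p.2.2)) x 0 : ℝ) * (mu ^ (m - p.1 - p.2.1) * mu ^ p.2.2)) *
          (q n K * q n K) := by ring
      _ = ((la (p.2.1 + (p.1 - p.2.2)) x 0 : ℝ) * mu ^ (2 * j)) * q n (K + K) := by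
          rw [← pow_add, hj, q_mul]
      _ ≤ (q n (K + 21) * la m x 0) * q n (K + K) :=
          mul_le_mul_of_nonneg_right e4 (q_pos _ _).le
      _ = (q n (K + 21) * q n (K + K)) * la m x 0 := by ring
      _ = _ := by rw [q_mul]; congr 2; ring
  have hsum := Finset.sum_le_card_nsmul _ _ _ hterm
  have hcardS : ((range (m + 1)).sigma (fun t => range (m - t + 1) ×ˢ range (t + 1))).card ≤
      n ^ 6 := by
    rw [Finset.card_sigma]
    have h1 : ∀ t ∈ range (m + 1), (range (m - t + 1) ×ˢ range (t + 1)).card ≤ (n + 1) * (n + 1) := by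
      intro t ht
      rw [Finset.mem_range] at ht
      rw [Finset.card_product, Finset.card_range, Finset.card_range]
      exact Nat.mul_le_mul (by omega) (by omega)
    refine (Finset.sum_le_card_nsmul _ _ _ h1).trans ?_
    rw [Finset.card_range, smul_eq_mul]
    have h2 : n + 1 ≤ n ^ 2 := by nlinarith
    calc (m + 1) * ((n + 1) * (n + 1)) ≤ n ^ 2 * (n ^ 2 * n ^ 2) :=
          Nat.mul_le_mul (by omega) (Nat.mul_le_mul h2 h2)
      _ = n ^ 6 := by ring
  rw [nsmul_eq_mul] at hsum
  have hnum : ((((range (m + 1)).sigma (fun t => range (m - t + 1) ×ˢ range (t + 1))).card : ℕ) : ℝ)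
      ≤ q n 18 := by
    have h3 := pow_le_q hn 6
    norm_num at h3
    refine le_trans ?_ h3
    exact_mod_cast hcardS
  have hQ := q_pos n (3 * K + 21)
  calc (a m x 0 : ℝ) ≤ _ := hcard.trans hsum
    _ ≤ q n 18 * (q n (3 * K + 21) * la m x 0) :=
        mul_le_mul_of_nonneg_right hnum (by positivity)
    _ = (q n 18 * q n (3 * K + 21)) * la m x 0 := by ring
    _ = q n (18 + (3 * K + 21)) * la m x 0 := by rw [q_mul]
    _ ≤ _ := mul_le_mul_of_nonneg_right (q_mono hn (by linarith)) hA

end Pool.Agent.Y981.L2
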