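import Pool.Agent.Y981.L2.Cut2

/-!
Mid-point log-concavity, by necklace splitting.
-/

set_option autoImplicit false

namespace Pool.Agent.Y981.L2

open Pool.Agent.TH795.EP Pool.Agent.TH795.EP2 Pool.Agent.TH795.SE2 Pool.Agent.TH262.SawL H981 Finset

/-- the type of a word -/
def ty (w : List St) : ℕ × ℤ × ℤ := (w.length, dx w, dy w)

/-- the possible types -/
noncomputable def Gr (n : ℕ) : Finset (ℕ × ℤ × ℤ) := range (n + 1) ×ˢ (Icc (-(n : ℤ)) n ×ˢ Icc (-(n : ℤ)) n)

/-- the words of a given type -/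
noncomputable def ofTy (t : ℕ × ℤ × ℤ) : Finset (List St) :=
  fs (fun w => Saw w ∧ dx w = t.2.1 ∧ dy w = t.2.2) t.1

theorem card_ofTy (t : ℕ × ℤ × ℤ) : (ofTy t).card = a t.1 t.2.1 t.2.2 := rfl

theorem mem_ofTy {w : List St} (h : Saw w) : w ∈ ofTy (ty w) := by
  unfold ofTy ty
  rw [mem_fs]
  exact ⟨⟨h, rfl, rfl⟩, rfl⟩

theorem ty_mem_Gr {n : ℕ} {u : List St} (hu : u.length ≤ n) : ty u ∈ Gr n := by
  have h1 := abs_add_abs_le u
  have h2 := abs_le.1 (le_trans (le_add_of_nonneg_right (abs_nonneg (dy u))) h1)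
  have h3 := abs_le.1 (le_trans (le_add_of_nonneg_left (abs_nonneg (dx u))) h1)
  have h4 : (u.length : ℤ) ≤ n := by exact_mod_cast hu
  unfold ty Gr
  rw [Finset.mem_product, Finset.mem_product, Finset.mem_range, Finset.mem_Icc, Finset.mem_Icc]
  exact ⟨by simp only; omega, ⟨by simp only; omega, by simp only; omega⟩,
    ⟨by simp only; omega, by simp only; omega⟩⟩

/-- the sum of the types of a group is close to `(n, X, Y)` -/
def Bal (n : ℕ) (X Y : ℤ) (d : (Fin 4 → Bool) × (J → ℕ × ℤ × ℤ)) : Prop :=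
  ∀ b : Bool,
    |∑ j ∈ univ.filter (fun j : J => d.1 j.1 = b), ((d.2 j).1 : ℤ) - n| ≤ 3 ∧
    |∑ j ∈ univ.filter (fun j : J => d.1 j.1 = b), (d.2 j).2.1 - X| ≤ 3 ∧
    |∑ j ∈ univ.filter (fun j : J => d.1 j.1 = b), (d.2 j).2.2 - Y| ≤ 3

open Classical in
/-- the possible splittings -/
noncomputable def Dd (n : ℕ) (X Y : ℤ) : Finset ((Fin 4 → Bool) × (J → ℕ × ℤ × ℤ)) :=
  (univ ×ˢ Fintype.piFinset (fun _ : J => Gr n)).filter (Bal n X Y)

theorem mid_card {n : ℕ} {x1 y1 x2 y2 X Y : ℤ} (hx : x1 + x2 = 2 * X) (hy : y1 + y2 = 2 * Y) :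
    a n x1 y1 * a n x2 y2 ≤ ∑ d ∈ Dd n X Y, ∏ j : J, a (d.2 j).1 (d.2 j).2.1 (d.2 j).2.2 := by
  classical
  have e : ∀ d : (Fin 4 → Bool) × (J → ℕ × ℤ × ℤ), ∏ j : J, a (d.2 j).1 (d.2 j).2.1 (d.2 j).2.2 =
      (Fintype.piFinset (fun j : J => ofTy (d.2 j))).card := by
    intro d
    rw [Fintype.card_piFinset]
    rfl
  simp only [e]
  rw [← Finset.card_sigma]
  have e2 : a n x1 y1 * a n x2 y2 = (ofTy (n, x1, y1) ×ˢ ofTy (n, x2, y2)).card := by
    rw [Finset.card_product]
    rfl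
  rw [e2]
  apply card_le_of_decode (fun q => (q.2 (0, false) ++ q.2 (1, false) ++ q.2 (2, false) ++
    q.2 (3, false), q.2 (0, true) ++ q.2 (1, true) ++ q.2 (2, true) ++ q.2 (3, true)))
  rintro ⟨w, v⟩ hwv
  rw [Finset.mem_product] at hwv
  obtain ⟨hw, hv⟩ := hwv
  unfold ofTy at hw hv
  rw [mem_fs] at hw hv
  simp only at hw hv
  obtain ⟨⟨hw1, hwx, hwy⟩, hwl⟩ := hw
  obtain ⟨⟨hv1, hvx, hvy⟩, hvl⟩ := hv
  obtain ⟨s, f, f1, f2, f3, f4, f5⟩ := two_words hwl hvl
  have hSaw : ∀ j : J, Saw (f j) := by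
    rintro ⟨i, b⟩
    cases b
    · exact hw1.subw (f3 i)
    · exact hv1.subw (f4 i)
  have hlen : ∀ j : J, (f j).length ≤ n := by
    rintro ⟨i, b⟩
    cases b
    · rw [← hwl]; exact (f3 i).length_le
    · rw [← hvl]; exact (f4 i).length_le
  refine ⟨⟨(s, fun j => ty (f j)), f⟩, ?_, ?_⟩
  · rw [Finset.mem_sigma]
    constructor
    · unfold Dd
      rw [Finset.mem_filter, Finset.mem_product]
      refine ⟨⟨Finset.mem_univ _, ?_⟩, ?_⟩
      · rw [Fintype.mem_piFinset]
        intro j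
        exact ty_mem_Gr (hlen j)
      · intro b
        have g0 := f5 0 n (by unfold ph; simp only [if_true]; rw [hwl, hvl]; ring) b
        have g1 := f5 1 X (by
          unfold ph
          simp only [Fin.one_eq_zero_iff, OfNat.ofNat_ne_one, if_false, if_true]
          rw [hwx, hvx]; exact hx) b
        have g2 := f5 2 Y (by
          unfold ph
          simp only [show (2 : Fin 3) ≠ 0 by decide, show (2 : Fin 3) ≠ 1 by decide, if_false]
          rw [hwy, hvy]; exact hy) b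
        refine ⟨?_, ?_, ?_⟩
        · refine le_trans (le_of_eq ?_) g0
          congr 2
        · refine le_trans (le_of_eq ?_) g1
          congr 2
        · refine le_trans (le_of_eq ?_) g2
          congr 2
    · rw [Fintype.mem_piFinset]
      intro j
      exact mem_ofTy (hSaw j)
  · simp only
    rw [f1, f2]

theorem card_Gr {n : ℕ} (hn : 2 ≤ n) : (Gr n).card ≤ n ^ 8 := by
  unfold Gr
  rw [Finset.card_product, Finset.card_product, Finset.card_range, Int.card_Icc]
  have h2 : ((n : ℤ) + 1 - -(n : ℤ)).toNat ≤ n ^ 3 := by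
    have h3 : ((n : ℤ) + 1 - -(n : ℤ)).toNat = 2 * n + 1 := by omega
    rw [h3]
    have h4 : n ^ 3 = n * n * n := by ring
    nlinarith
  have h1 : n + 1 ≤ n ^ 2 := by nlinarith
  calc (n + 1) * (((n : ℤ) + 1 - -(n : ℤ)).toNat * ((n : ℤ) + 1 - -(n : ℤ)).toNat)
      ≤ n ^ 2 * (n ^ 3 * n ^ 3) := by gcongr
    _ = n ^ 8 := by ring

theorem card_Dd {n : ℕ} (hn : 2 ≤ n) (X Y : ℤ) : ((Dd n X Y).card : ℝ) ≤ q n 204 := by
  classical
  have h1 : (Dd n X Y).card ≤ n ^ 68 := by
    unfold Dd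
    refine (Finset.card_filter_le _ _).trans ?_
    rw [Finset.card_product, Fintype.card_piFinset, Finset.prod_const]
    have h2 : (univ : Finset (Fin 4 → Bool)).card = 16 := by
      rw [Finset.card_univ]; simp
    have h3 : (univ : Finset J).card = 8 := by rw [Finset.card_univ]; simp [J]
    rw [h2, h3]
    have h4 : 16 ≤ n ^ 4 := by
      calc 16 = 2 ^ 4 := by norm_num
        _ ≤ n ^ 4 := Nat.pow_le_pow_left hn 4
    calc 16 * (Gr n).card ^ 8 ≤ n ^ 4 * (n ^ 8) ^ 8 :=
          Nat.mul_le_mul h4 (Nat.pow_le_pow_left (card_Gr hn) 8)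
      _ = n ^ 68 := by ring
  have h3 := pow_le_q hn 68
  norm_num at h3
  refine le_trans ?_ h3
  exact_mod_cast h1

/-- **Mid-point concavity.** -/
theorem mid_concave : ∃ K : ℝ, 0 ≤ K ∧ ∀ n : ℕ, 2 ≤ n → ∀ x1 y1 x2 y2 X Y : ℤ,
    x1 + x2 = 2 * X → y1 + y2 = 2 * Y → (X, Y) ≠ (0, 0) → (X + Y - n) % 2 = 0 →
    (a n x1 y1 : ℝ) * a n x2 y2 ≤ q n K * (a n X Y : ℝ) ^ 2 := by
  classical
  obtain ⟨K, hK, hnear⟩ := near_glue
  refine ⟨204 + 2 * K, by positivity, ?_⟩
  intro n hn x1 y1 x2 y2 X Y hx hy hz hpar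
  have hAn : (0 : ℝ) ≤ a n X Y := Nat.cast_nonneg _
  rcases Nat.eq_zero_or_pos (a n x1 y1) with h1 | h1
  · rw [h1]
    have := q_pos n (204 + 2 * K)
    simp only [Nat.cast_zero, zero_mul]
    positivity
  rcases Nat.eq_zero_or_pos (a n x2 y2) with h2 | h2
  · rw [h2]
    have := q_pos n (204 + 2 * K)
    simp only [Nat.cast_zero, mul_zero]
    positivity
  have hle : |X| + |Y| ≤ n := by
    have b1 : |x1| + |y1| ≤ n := (show Ok (n, x1, y1) from h1).abs
    have b2 : |x2| + |y2| ≤ n := (show Ok (n, x2, y2) from h2).abs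
    have c1 : 2 * |X| ≤ |x1| + |x2| := by
      have : |2 * X| ≤ |x1| + |x2| := by rw [← hx]; exact abs_add_le _ _
      rwa [abs_mul, abs_two] at this
    have c2 : 2 * |Y| ≤ |y1| + |y2| := by
      have : |2 * Y| ≤ |y1| + |y2| := by rw [← hy]; exact abs_add_le _ _
      rwa [abs_mul, abs_two] at this
    linarith
  have hcard : (a n x1 y1 : ℝ) * a n x2 y2 ≤
      ∑ d ∈ Dd n X Y, ∏ j : J, (a (d.2 j).1 (d.2 j).2.1 (d.2 j).2.2 : ℝ) := by
    exact_mod_cast mid_card (n := n) hx hy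
  have hterm : ∀ d ∈ Dd n X Y, ∏ j : J, (a (d.2 j).1 (d.2 j).2.1 (d.2 j).2.2 : ℝ) ≤
      q n (2 * K) * (a n X Y : ℝ) ^ 2 := by
    rintro ⟨s, t⟩ hd
    unfold Dd at hd
    rw [Finset.mem_filter] at hd
    obtain ⟨-, hbal⟩ := hd
    simp only
    by_cases hall : ∀ j : J, Ok (t j)
    · have key : ∀ b : Bool, 0 < a n X Y ∧
          ∑ j ∈ univ.filter (fun j : J => s j.1 = b), lg (t j) ≤
            K * Real.log n ^ 2 + Real.log (a n X Y) := by
        intro b
        obtain ⟨b1, b2, b3⟩ := hbal b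
        simp only at b1 b2 b3
        have hsum : ∀ {M : Type} [AddCommMonoid M] (g : ℕ × ℤ × ℤ → M),
            ((((univ.filter (fun j : J => s j.1 = b)).toList.map t)).map g).sum =
            ∑ j ∈ univ.filter (fun j : J => s j.1 = b), g (t j) := by
          intro M _ g
          rw [List.map_map]
          exact Finset.sum_map_toList _ _
        have := hnear n hn ((univ.filter (fun j : J => s j.1 = b)).toList.map t) X Y
          (by
            rw [List.length_map, Finset.length_toList]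
            refine (Finset.card_filter_le _ _).trans ?_
            rw [Finset.card_univ]
            simp [J])
          (by
            intro p hp
            rw [List.mem_map] at hp
            obtain ⟨j, -, rfl⟩ := hp
            exact hall j)
          (by rw [hsum]; push_cast; exact b1) (by rw [hsum]; exact b2) (by rw [hsum]; exact b3)
          hz hpar hle
        rw [hsum] at this
        exact this
      obtain ⟨k1, k2⟩ := key true
      obtain ⟨-, k3⟩ := key false
      have hA : (0 : ℝ) < a n X Y := by exact_mod_cast k1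
      have hpos : ∀ j : J, (0 : ℝ) < a (t j).1 (t j).2.1 (t j).2.2 := by
        intro j
        exact_mod_cast hall j
      have htot : ∑ j : J, lg (t j) = ∑ j ∈ univ.filter (fun j : J => s j.1 = true), lg (t j) +
          ∑ j ∈ univ.filter (fun j : J => s j.1 = false), lg (t j) := by
        rw [← Finset.sum_filter_add_sum_filter_not univ (fun j : J => s j.1 = true)]
        congr 1
        apply Finset.sum_congr _ (fun _ _ => rfl)
        ext j
        simp
      have hlog : Real.log (∏ j : J, (a (t j).1 (t j).2.1 (t j).2.2 : ℝ)) = ∑ j : J, lg (t j) := by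
        rw [Real.log_prod (fun j _ => (hpos j).ne')]
        rfl
      have h5 : Real.log (∏ j : J, (a (t j).1 (t j).2.1 (t j).2.2 : ℝ)) ≤
          (2 * K) * Real.log n ^ 2 + 2 * Real.log (a n X Y) := by
        rw [hlog, htot]
        linarith
      have h6 := Real.exp_le_exp.2 h5
      rw [Real.exp_log (Finset.prod_pos (fun j _ => hpos j)), Real.exp_add] at h6
      refine h6.trans (le_of_eq ?_)
      unfold q
      congr 1
      rw [two_mul, Real.exp_add, Real.exp_log hA]
      ring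
    · push Not at hall
      obtain ⟨j, hj⟩ := hall
      have h0 : (a (t j).1 (t j).2.1 (t j).2.2 : ℝ) = 0 := by
        have : a (t j).1 (t j).2.1 (t j).2.2 = 0 := Nat.eq_zero_of_not_pos hj
        rw [this]
        exact Nat.cast_zero
      rw [Finset.prod_eq_zero (Finset.mem_univ j) h0]
      have := q_pos n (2 * K)
      positivity
  have hsum := Finset.sum_le_card_nsmul _ _ _ hterm
  rw [nsmul_eq_mul] at hsum
  have hQ := q_pos n (2 * K)
  calc (a n x1 y1 : ℝ) * a n x2 y2 ≤ _ := hcard.trans hsum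
    _ ≤ q n 204 * (q n (2 * K) * (a n X Y : ℝ) ^ 2) :=
        mul_le_mul_of_nonneg_right (card_Dd hn X Y) (by positivity)
    _ = (q n 204 * q n (2 * K)) * (a n X Y : ℝ) ^ 2 := by ring
    _ = _ := by rw [q_mul]

end Pool.Agent.Y981.L2
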