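import Pool.Agent.Y981.L2.Ldp
import Pool.Agent.Y981.L2.Mid

/-!
The uniform local large deviation estimate with error `log ^ 2`.
-/

set_option autoImplicit false

namespace Pool.Agent.Y981.L2

open Pool.Agent.TH795.EP Pool.Agent.TH795.EP2 Pool.Agent.TH795.SE2 Pool.Agent.TH262.SawL H981 Finset

theorem pow_le_four {n : ℕ} (hn : 2 ≤ n) :
    Real.log n ^ 2 ≤ 2 * Real.log n ^ 2 ∧ Real.log n ≤ 4 * Real.log n ^ 2 := by
  have hlog := log_pos' hn
  have hlog2 : Real.log 2 ≤ Real.log n := log_ge hn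
  have hl2 := Real.log_two_gt_d9
  have h1 : 1 ≤ 2 * Real.log n := by linarith
  have h2 := pow_pos hlog 2
  constructor
  · linarith
  · nlinarith

theorem box_card {n : ℕ} (hn : 2 ≤ n) :
    ((Icc (-(n : ℤ)) n ×ˢ Icc (-(n : ℤ)) n).card : ℝ) ≤ q n 18 := by
  have h1 : (Icc (-(n : ℤ)) n ×ˢ Icc (-(n : ℤ)) n).card ≤ n ^ 6 := by
    rw [Finset.card_product, Int.card_Icc]
    have h2 : ((n : ℤ) + 1 - -(n : ℤ)).toNat ≤ n ^ 3 := by
      have h3 : ((n : ℤ) + 1 - -(n : ℤ)).toNat = 2 * n + 1 := by omega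
      rw [h3]
      have h4 : n ^ 3 = n * n * n := by ring
      nlinarith
    calc ((n : ℤ) + 1 - -(n : ℤ)).toNat * ((n : ℤ) + 1 - -(n : ℤ)).toNat ≤ n ^ 3 * n ^ 3 :=
          Nat.mul_le_mul h2 h2
      _ = n ^ 6 := by ring
  have h3 := pow_le_q hn 6
  norm_num at h3
  refine le_trans ?_ h3
  exact_mod_cast h1

/-- **Doubling.** -/
theorem double : ∃ K : ℝ, 0 ≤ K ∧ ∀ n : ℕ, 2 ≤ n → ∀ X Y : ℤ,
    (X, Y) ≠ (0, 0) → (X + Y - n) % 2 = 0 →
    (a (n + n) (2 * X) (2 * Y) : ℝ) ≤ q n K * (a n X Y : ℝ) ^ 2 := by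
  obtain ⟨K, hK, hmid⟩ := mid_concave
  refine ⟨18 + K, by positivity, ?_⟩
  intro n hn X Y hz hpar
  have h1 : (a (n + n) (2 * X) (2 * Y) : ℝ) ≤ ∑ z ∈ Icc (-(n : ℤ)) n ×ˢ Icc (-(n : ℤ)) n,
      (a n z.1 z.2 : ℝ) * a n (2 * X - z.1) (2 * Y - z.2) := by
    exact_mod_cast split_card n n (2 * X) (2 * Y)
  have hterm : ∀ z ∈ Icc (-(n : ℤ)) n ×ˢ Icc (-(n : ℤ)) n,
      (a n z.1 z.2 : ℝ) * a n (2 * X - z.1) (2 * Y - z.2) ≤ q n K * (a n X Y : ℝ) ^ 2 := by
    intro z _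
    exact hmid n hn z.1 z.2 (2 * X - z.1) (2 * Y - z.2) X Y (by ring) (by ring) hz hpar
  have hsum := Finset.sum_le_card_nsmul _ _ _ hterm
  rw [nsmul_eq_mul] at hsum
  have hQ := q_pos n K
  calc (a (n + n) (2 * X) (2 * Y) : ℝ) ≤ _ := h1.trans hsum
    _ ≤ q n 18 * (q n K * (a n X Y : ℝ) ^ 2) :=
        mul_le_mul_of_nonneg_right (box_card hn) (by positivity)
    _ = (q n 18 * q n K) * (a n X Y : ℝ) ^ 2 := by ring
    _ = _ := by rw [q_mul]

theorem two_pow_par {X Y : ℤ} {n : ℕ} (h : (X + Y - n) % 2 = 0) (k : ℕ) :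
    (2 ^ k * X + 2 ^ k * Y - ((2 ^ k * n : ℕ) : ℤ)) % 2 = 0 := by
  have e : 2 ^ k * X + 2 ^ k * Y - ((2 ^ k * n : ℕ) : ℤ) = 2 ^ k * (X + Y - n) := by
    push_cast; ring
  rw [e]
  exact Int.emod_eq_zero_of_dvd ((Int.dvd_of_emod_eq_zero h).mul_left _)

theorem two_pow_ne {X Y : ℤ} (h : (X, Y) ≠ (0, 0)) (k : ℕ) : (2 ^ k * X, 2 ^ k * Y) ≠ (0, 0) := by
  intro h1
  apply h
  rw [Prod.mk.injEq] at h1 ⊢
  have h2 : (2 : ℤ) ^ k ≠ 0 := by positivity
  exact ⟨(mul_eq_zero.1 h1.1).resolve_left h2, (mul_eq_zero.1 h1.2).resolve_left h2⟩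

theorem two_pow_le {X Y : ℤ} {n : ℕ} (h : |X| + |Y| ≤ n) (k : ℕ) :
    |2 ^ k * X| + |2 ^ k * Y| ≤ ((2 ^ k * n : ℕ) : ℤ) := by
  rw [abs_mul, abs_mul, abs_of_pos (by positivity : (0 : ℤ) < 2 ^ k), ← mul_add]
  push_cast
  exact mul_le_mul_of_nonneg_left h (by positivity)

theorem double_iter {K : ℝ} (hK : 0 ≤ K) (hd : ∀ n : ℕ, 2 ≤ n → ∀ X Y : ℤ,
    (X, Y) ≠ (0, 0) → (X + Y - n) % 2 = 0 →
    (a (n + n) (2 * X) (2 * Y) : ℝ) ≤ q n K * (a n X Y : ℝ) ^ 2) {n : ℕ} (hn : 2 ≤ n) {X Y : ℤ}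
    (hz : (X, Y) ≠ (0, 0)) (hpar : (X + Y - n) % 2 = 0) (hle : |X| + |Y| ≤ n) (k : ℕ) :
    Real.log (a (2 ^ k * n) (2 ^ k * X) (2 ^ k * Y)) ≤
      2 ^ k * (Real.log (a n X Y) + 100 * K * Real.log n ^ 2) -
      4 * K * (k + 5) ^ 2 * Real.log n ^ 2 := by
  have hlog := log_pos' hn
  have hlog2 : Real.log 2 ≤ Real.log n := log_ge hn
  induction k with
  | zero =>
    simp only [pow_zero, one_mul, Nat.cast_zero, zero_add]
    linarith
  | succ k ih =>
    have h2n : 2 ≤ 2 ^ k * n := by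
      have : 1 ≤ 2 ^ k := Nat.one_le_two_pow
      nlinarith
    have e : 2 ^ k * n + 2 ^ k * n = 2 ^ (k + 1) * n := by rw [pow_succ]; ring
    have e1 : 2 * (2 ^ k * X) = 2 ^ (k + 1) * X := by rw [pow_succ]; ring
    have e2 : 2 * (2 ^ k * Y) = 2 ^ (k + 1) * Y := by rw [pow_succ]; ring
    have h1 := hd (2 ^ k * n) h2n (2 ^ k * X) (2 ^ k * Y) (two_pow_ne hz k) (two_pow_par hpar k)
    rw [e, e1, e2] at h1
    have p1 : (0 : ℝ) < a (2 ^ (k + 1) * n) (2 ^ (k + 1) * X) (2 ^ (k + 1) * Y) := by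
      exact_mod_cast one_le_a (two_pow_ne hz (k + 1)) (two_pow_par hpar (k + 1))
        (two_pow_le hle (k + 1))
    have p2 : (0 : ℝ) < a (2 ^ k * n) (2 ^ k * X) (2 ^ k * Y) := by
      exact_mod_cast one_le_a (two_pow_ne hz k) (two_pow_par hpar k) (two_pow_le hle k)
    have h2 := Real.log_le_log p1 h1
    rw [Real.log_mul (q_pos _ _).ne' (pow_pos p2 2).ne', Real.log_pow] at h2
    push_cast at h2
    have h3 : Real.log (q (2 ^ k * n) K) ≤ K * ((k + 2) ^ 2 * Real.log n ^ 2) := by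
      unfold q
      rw [Real.log_exp]
      apply mul_le_mul_of_nonneg_left _ hK
      rw [← mul_pow]
      apply pow_le_pow_left₀ (log_pos' h2n).le
      push_cast
      rw [Real.log_mul (by positivity) (by positivity), Real.log_pow]
      nlinarith
    have h4 : 0 ≤ K * Real.log n ^ 2 := mul_nonneg hK (pow_pos hlog 2).le
    have h5 : (4 * ((k + 1 : ℕ) + 5 : ℝ) ^ 2 + (k + 2) ^ 2) ≤ 8 * ((k : ℝ) + 5) ^ 2 := by
      push_cast
      have hk : (0 : ℝ) ≤ k := Nat.cast_nonneg k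
      nlinarith [mul_nonneg hk hk]
    have h6 := mul_le_mul_of_nonneg_right h5 h4
    have e3 : (2 : ℝ) ^ (k + 1) = 2 ^ k * 2 := pow_succ 2 k
    rw [e3]
    push_cast at h6 ⊢
    linarith

theorem cube_tendsto (C : ℝ) :
    Filter.Tendsto (fun k : ℕ => C * ((k : ℝ) ^ 3 / 2 ^ k)) Filter.atTop (nhds 0) := by
  have h := tendsto_pow_const_div_const_pow_of_one_lt 3 (by norm_num : (1 : ℝ) < 2)
  simpa using h.const_mul C

/-- **Uniform local large deviations** with the error `log ^ 2`. -/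
theorem ldp_words : ∃ K : ℝ, 0 ≤ K ∧ ∀ n : ℕ, 2 ≤ n → ∀ x y : ℤ, (x, y) ≠ (0, 0) →
    (x + y - n) % 2 = 0 → |x| + |y| ≤ n →
    |Real.log ((a n x y : ℝ) / c n) + n * Rate ((x : ℝ) / n, (y : ℝ) / n)| ≤
      K * Real.log n ^ 2 := by
  obtain ⟨K1, hK1, hup, -⟩ := exists_K
  obtain ⟨K2, hK2, hcube⟩ := ldp_words_cube
  obtain ⟨K3, hK3, hZ⟩ := Z_le
  obtain ⟨K4, hK4, hdou⟩ := double
  refine ⟨K1 + K3 + 100 * K4, by positivity, ?_⟩
  intro n hn x y hxy hpar hle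
  have hlog := log_pos' hn
  have hlog2 : Real.log 2 ≤ Real.log n := log_ge hn
  have hL2 : 0 ≤ Real.log n ^ 2 := by positivity
  have hn0 : (0 : ℝ) < n := by exact_mod_cast (by omega : 0 < n)
  have ha1 := one_le_a hxy hpar hle
  have ha : (0 : ℝ) < a n x y := by exact_mod_cast ha1
  have hc := c_pos n
  have hmu := mu_pos
  have hclow : ∀ m : ℕ, m * Real.log mu ≤ Real.log (c m) := by
    intro m
    have h1 : mu ^ m ≤ c m := by rw [c_eq]; exact mu_pow_le m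
    have h2 := Real.log_le_log (pow_pos hmu m) h1
    rwa [Real.log_pow] at h2
  have hc2 : Real.log (c n) ≤ n * Real.log mu + K1 * Real.log n ^ 2 := by
    have h2 := Real.log_le_log hc (hup n hn n le_rfl)
    rw [Real.log_mul (pow_pos hmu n).ne' (q_pos _ _).ne', Real.log_pow] at h2
    have h3 : Real.log (q n K1) = K1 * Real.log n ^ 2 := by unfold q; rw [Real.log_exp]
    rwa [h3] at h2
  -- upper bound
  have hupper : Real.log (a n x y) + n * Rate ((x : ℝ) / n, (y : ℝ) / n) ≤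
      n * Real.log mu + K3 * Real.log n ^ 2 := by
    have h1 : Rate ((x : ℝ) / n, (y : ℝ) / n) ≤
        (n * Real.log mu + K3 * Real.log n ^ 2 - Real.log (a n x y)) / n := by
      apply ciSup_le
      intro h
      rw [le_div_iff₀ hn0]
      simp only
      have h2 := Real.log_le_log (mul_pos ha (Real.exp_pos _)) (term_le_Z h n x y)
      rw [Real.log_mul ha.ne' (Real.exp_pos _).ne', Real.log_exp] at h2
      have h3 := hZ n hn h
      have e : (h.1 * ((x : ℝ) / n) + h.2 * ((y : ℝ) / n) - Lam h) * n =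
          h.1 * x + h.2 * y - n * Lam h := by
        field_simp
      rw [e]
      linarith
    rw [le_div_iff₀ hn0] at h1
    linarith
  -- lower bound
  have hlower : n * Real.log mu - n * Rate ((x : ℝ) / n, (y : ℝ) / n) ≤
      Real.log (a n x y) + 100 * K4 * Real.log n ^ 2 := by
    have key : ∀ k : ℕ, 1 ≤ k → n * Real.log mu - n * Rate ((x : ℝ) / n, (y : ℝ) / n) -
        (Real.log (a n x y) + 100 * K4 * Real.log n ^ 2) ≤
        (K2 * (8 * Real.log n ^ 3)) * ((k : ℝ) ^ 3 / 2 ^ k) := by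
      intro k hk
      have h1k : 1 ≤ 2 ^ k := Nat.one_le_two_pow
      have h2n : 2 ≤ 2 ^ k * n := by nlinarith
      have h0 := double_iter hK4 hdou hn hxy hpar hle k
      have h1 := hcube (2 ^ k * n) h2n (2 ^ k * x) (2 ^ k * y) (two_pow_ne hxy k)
        (two_pow_par hpar k) (two_pow_le hle k)
      have p1 : (0 : ℝ) < a (2 ^ k * n) (2 ^ k * x) (2 ^ k * y) := by
        exact_mod_cast one_le_a (two_pow_ne hxy k) (two_pow_par hpar k) (two_pow_le hle k)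
      have hpow : (0 : ℝ) < 2 ^ k := by positivity
      have e1 : ((2 ^ k * x : ℤ) : ℝ) / ((2 ^ k * n : ℕ) : ℝ) = (x : ℝ) / n := by
        push_cast
        rw [mul_div_mul_left _ _ hpow.ne']
      have e2 : ((2 ^ k * y : ℤ) : ℝ) / ((2 ^ k * n : ℕ) : ℝ) = (y : ℝ) / n := by
        push_cast
        rw [mul_div_mul_left _ _ hpow.ne']
      rw [e1, e2, Real.log_div p1.ne' (c_pos _).ne', abs_le] at h1
      obtain ⟨h1, -⟩ := h1
      have h2 := hclow (2 ^ k * n)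
      have h3 : Real.log ((2 ^ k * n : ℕ) : ℝ) ^ 3 ≤ 8 * Real.log n ^ 3 * (k : ℝ) ^ 3 := by
        have h4 : Real.log ((2 ^ k * n : ℕ) : ℝ) ≤ 2 * Real.log n * k := by
          push_cast
          rw [Real.log_mul (by positivity) (by positivity), Real.log_pow]
          have hk1 : (1 : ℝ) ≤ k := by exact_mod_cast hk
          nlinarith
        have h5 := pow_le_pow_left₀ (log_pos' h2n).le h4 3
        refine h5.trans (le_of_eq ?_)
        ring
      have h6 := mul_le_mul_of_nonneg_left h3 hK2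
      push_cast at h1 h2 h6
      have h7 : (0 : ℝ) ≤ 4 * K4 * (k + 5) ^ 2 * Real.log n ^ 2 := by positivity
      have h8 : K2 * (8 * Real.log n ^ 3) * ((k : ℝ) ^ 3 / 2 ^ k) =
          (K2 * (8 * Real.log n ^ 3 * (k : ℝ) ^ 3)) / 2 ^ k := by ring
      rw [h8, le_div_iff₀ hpow]
      nlinarith
    have h9 := ge_of_tendsto (cube_tendsto (K2 * (8 * Real.log n ^ 3)))
      (by filter_upwards [Filter.eventually_ge_atTop 1] with k hk; exact key k hk)
    linarith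
  rw [Real.log_div ha.ne' hc.ne', abs_le]
  have hc1 := hclow n
  have p1 : 0 ≤ K1 * Real.log n ^ 2 := mul_nonneg hK1 hL2
  have p3 : 0 ≤ K3 * Real.log n ^ 2 := mul_nonneg hK3 hL2
  have p4 : 0 ≤ K4 * Real.log n ^ 2 := mul_nonneg hK4 hL2
  constructor
  · linarith
  · linarith

end Pool.Agent.Y981.L2
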