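import Pool.Agent.Y981.L2.HalfY
import Pool.Agent.Y981.L2.Ldp2

/-!
The law of the end point of the half-plane self-avoiding walk against the full-plane one.
-/

set_option autoImplicit false

namespace Pool.Agent.Y981.L2

open Pool.Agent.TH795.EP Pool.Agent.TH795.EP2 Pool.Agent.TH795.SE2 Pool.Agent.TH262.SawL H981 Finset

/-- **Walks in a half plane are as numerous as walks with the same ends**, up to a
quasi-polynomial factor. -/
theorem a_le_la' : ∃ K : ℝ, 0 ≤ K ∧ ∀ n : ℕ, 2 ≤ n → ∀ m ≤ n, ∀ x y : ℤ, y ≤ 0 →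
    (x, y) ≠ (0, 0) → (a m x y : ℝ) ≤ q n K * la m x y := by
  obtain ⟨K, hK0, hup, hlow⟩ := exists_K
  refine ⟨3 * K + 66, by positivity, ?_⟩
  intro n hn m hm x y hy hz
  have hmu := mu_pos
  rcases Nat.eq_zero_or_pos (a m x y) with h1 | h1
  · rw [h1]
    have := q_pos n (3 * K + 66)
    simp only [Nat.cast_zero]
    positivity
  obtain ⟨w1, hw1, hx1, hy1, hl1⟩ := exists_of_a h1
  have p1 := parity w1
  have hcard : (a m x y : ℝ) ≤
      ∑ p ∈ (range (m + 1)).sigma (fun t => range (m - t + 1) ×ˢ range (t + 1)),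
      (la (p.2.1 + (p.1 - p.2.2)) x y : ℝ) * (c (m - p.1 - p.2.1) * c p.2.2) := by
    exact_mod_cast cyc_card m (x := x) hy
  have hA : (0 : ℝ) ≤ la m x y := Nat.cast_nonneg _
  have hterm : ∀ p ∈ (range (m + 1)).sigma (fun t => range (m - t + 1) ×ˢ range (t + 1)),
      (la (p.2.1 + (p.1 - p.2.2)) x y : ℝ) * (c (m - p.1 - p.2.1) * c p.2.2) ≤
        q n (3 * K + 42) * la m x y := by
    intro p hp
    rw [Finset.mem_sigma, Finset.mem_product, Finset.mem_range, Finset.mem_range,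
      Finset.mem_range] at hp
    obtain ⟨ht, hp1, hp2⟩ := hp
    rcases Nat.eq_zero_or_pos (la (p.2.1 + (p.1 - p.2.2)) x y) with h3 | h3
    · rw [h3]
      have := q_pos n (3 * K + 42)
      simp only [Nat.cast_zero, zero_mul]
      positivity
    obtain ⟨w3, hw3, hx3, hy3, hl3⟩ := exists_of_la h3
    have p3 := parity w3
    have hm1 : 1 ≤ p.2.1 + (p.1 - p.2.2) := by
      by_contra hcon
      have : w3 = [] := List.length_eq_zero_iff.1 (by omega)
      subst this
      apply hz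
      rw [← hx3, ← hy3]
      rfl
    obtain ⟨j, hj⟩ : ∃ j : ℕ, (m - p.1 - p.2.1) + p.2.2 = 2 * j := by
      refine ⟨((m - p.1 - p.2.1) + p.2.2) / 2, ?_⟩
      omega
    have e1 : (p.2.1 + (p.1 - p.2.2)) + 2 * j = m := by omega
    have e2 := hup n hn (m - p.1 - p.2.1) (by omega)
    have e3 := hup n hn p.2.2 (by omega)
    have e4 := la_lengthen' hn hK0 (hlow n hn) hm1
      (by omega : (p.2.1 + (p.1 - p.2.2)) + 2 * j ≤ n) x y
    rw [e1] at e4
    have g2 := q_pos n K
    calc (la (p.2.1 + (p.1 - p.2.2)) x y : ℝ) * (c (m - p.1 - p.2.1) * c p.2.2)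
        ≤ (la (p.2.1 + (p.1 - p.2.2)) x y : ℝ) *
          ((mu ^ (m - p.1 - p.2.1) * q n K) * (mu ^ p.2.2 * q n K)) := by
          gcongr
      _ = ((la (p.2.1 + (p.1 - p.2.2)) x y : ℝ) * (mu ^ (m - p.1 - p.2.1) * mu ^ p.2.2)) *
          (q n K * q n K) := by ring
      _ = ((la (p.2.1 + (p.1 - p.2.2)) x y : ℝ) * mu ^ (2 * j)) * q n (K + K) := by
          rw [← pow_add, hj, q_mul]
      _ ≤ (q n (K + 42) * la m x y) * q n (K + K) :=
          mul_le_mul_of_nonneg_right e4 (q_pos _ _).le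
      _ = (q n (K + 42) * q n (K + K)) * la m x y := by ring
      _ = _ := by rw [q_mul]; congr 2; ring
  have hsum := Finset.sum_le_card_nsmul _ _ _ hterm
  have hcardS : ((range (m + 1)).sigma (fun t => range (m - t + 1) ×ˢ range (t + 1))).card ≤
      n ^ 6 := by
    rw [Finset.card_sigma]
    have h1 : ∀ t ∈ range (m + 1), (range (m - t + 1) ×ˢ range (t + 1)).card ≤ (n + 1) * (n + 1) := by
      intro t ht
      rw [Finset.mem_range] at ht
      rw [Finset.card_product, Finset.card_range, Finset.card_range]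
      exact Nat.mul_le_mul (by omega) (by omega)
    refine (Finset.sum_le_card_nsmul _ _ _ h1).trans ?_
    rw [Finset.card_range, smul_eq_mul]
    have h2 : n + 1 ≤ n ^ 2 := by nlinarith
    calc (m + 1) * ((n + 1) * (n + 1)) ≤ n ^ 2 * (n ^ 2 * n ^ 2) :=
          Nat.mul_le_mul (by omega) (Nat.mul_le_mul h2 h2)
      _ = n ^ 6 := by ring
  rw [nsmul_eq_mul] at hsum
  have hnum : ((((range (m + 1)).sigma (fun t => range (m - t + 1) ×ˢ range (t + 1))).card : ℕ) : ℝ)
      ≤ q n 18 := by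
    have h3 := pow_le_q hn 6
    norm_num at h3
    refine le_trans ?_ h3
    exact_mod_cast hcardS
  have hQ := q_pos n (3 * K + 42)
  calc (a m x y : ℝ) ≤ _ := hcard.trans hsum
    _ ≤ q n 18 * (q n (3 * K + 42) * la m x y) :=
        mul_le_mul_of_nonneg_right hnum (by positivity)
    _ = (q n 18 * q n (3 * K + 42)) * la m x y := by ring
    _ = q n (18 + (3 * K + 42)) * la m x y := by rw [q_mul]
    _ ≤ _ := mul_le_mul_of_nonneg_right (q_mono hn (by linarith)) hA

/-- the number of half-plane words -/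
noncomputable def hp (n : ℕ) : ℕ := (fs (fun w => Saw w ∧ Lo w) n).card

theorem la_le_hp (n : ℕ) (x y : ℤ) : la n x y ≤ hp n := by
  unfold la hp
  apply Finset.card_le_card
  intro w hw
  rw [mem_fs] at hw ⊢
  exact ⟨⟨hw.1.1.1, hw.1.2⟩, hw.2⟩

theorem hp_le_c (n : ℕ) : hp n ≤ c n := by
  unfold hp c
  apply Finset.card_le_card
  intro w hw
  rw [mem_fs] at hw ⊢
  exact ⟨hw.1.1, hw.2⟩

theorem a_zero {n : ℕ} (hn : 1 ≤ n) : a n 0 0 = 0 := by
  unfold a
  rw [Finset.card_eq_zero, Finset.eq_empty_iff_forall_notMem]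
  intro w hw
  rw [mem_fs] at hw
  obtain ⟨⟨h1, h2, h3⟩, h4⟩ := hw
  apply saw_iff'.1 h1 0 n hn h4.ge
  rw [← h4, path_len, h2, h3]
  simp [path]

theorem c_le_hp : ∃ K : ℝ, 0 ≤ K ∧ ∀ n : ℕ, 2 ≤ n → (c n : ℝ) ≤ q n K * hp n := by
  obtain ⟨K, hK, h⟩ := a_le_la'
  refine ⟨K + 18, by positivity, ?_⟩
  intro n hn
  have h2 : Z (0, 0) n = c n := by
    unfold Z c
    simp
  rw [← h2, Z_eq]
  have hterm : ∀ z ∈ Bx n, (a n z.1 z.2 : ℝ) * Real.exp ((0 : ℝ) * z.1 + (0 : ℝ) * z.2) ≤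
      q n K * hp n := by
    intro z _
    rw [zero_mul, zero_mul, add_zero, Real.exp_zero, mul_one]
    rcases eq_or_ne z (0, 0) with h0 | h0
    · subst h0
      rw [a_zero (by omega)]
      have := q_pos n K
      simp only [Nat.cast_zero]
      positivity
    · have h3 : (a n z.1 z.2 : ℝ) ≤ q n K * la n z.1 (-|z.2|) := by
        have e : a n z.1 z.2 = a n z.1 (-|z.2|) := by
          rcases abs_choice z.2 with h | h
          · rw [h, a_ng]
          · rw [h, neg_neg]
        rw [e]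
        apply h n hn n le_rfl
        · have := abs_nonneg z.2
          omega
        · intro he
          apply h0
          obtain ⟨h4, h5⟩ := Prod.mk.inj he
          have h6 : z.2 = 0 := by
            have : |z.2| = 0 := by omega
            exact abs_eq_zero.1 this
          exact Prod.ext h4 h6
      refine h3.trans (mul_le_mul_of_nonneg_left ?_ (q_pos _ _).le)
      exact_mod_cast la_le_hp _ _ _
  have hsum := Finset.sum_le_card_nsmul _ _ _ hterm
  rw [card_Bx, nsmul_eq_mul] at hsum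
  refine hsum.trans ?_
  have h5 : (((2 * n + 1) ^ 2 : ℕ) : ℝ) ≤ q n 18 := by
    have h3 := pow_le_q hn 6
    norm_num at h3
    refine le_trans ?_ h3
    have h4 : 2 * n + 1 ≤ n ^ 3 := by
      have : 4 ≤ n * n := by nlinarith
      calc 2 * n + 1 ≤ 4 * n := by omega
        _ ≤ (n * n) * n := Nat.mul_le_mul_right _ this
        _ = n ^ 3 := by ring
    have h6 : (2 * n + 1) ^ 2 ≤ n ^ 6 := by
      calc (2 * n + 1) ^ 2 ≤ (n ^ 3) ^ 2 := Nat.pow_le_pow_left h4 2
        _ = n ^ 6 := by ring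
    exact_mod_cast h6
  calc (((2 * n + 1) ^ 2 : ℕ) : ℝ) * (q n K * hp n) ≤ q n 18 * (q n K * hp n) :=
        mul_le_mul_of_nonneg_right h5 (mul_nonneg (q_pos _ _).le (Nat.cast_nonneg _))
    _ = (q n K * q n 18) * hp n := by ring
    _ = _ := by rw [q_mul]

/-- **The law of the end point in a half plane and in the plane.** -/
theorem half_law : ∃ K : ℝ, 0 ≤ K ∧ ∀ n : ℕ, 2 ≤ n → ∀ x y : ℤ, y ≤ 0 → (x, y) ≠ (0, 0) →
    (x + y - n) % 2 = 0 → |x| + |y| ≤ n →
    0 < (a n x y : ℝ) / c n ∧ 0 < (la n x y : ℝ) / hp n ∧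
    |Real.log ((la n x y : ℝ) / hp n) - Real.log ((a n x y : ℝ) / c n)| ≤
      K * Real.log n ^ 2 := by
  obtain ⟨K1, hK1, h1⟩ := a_le_la'
  obtain ⟨K2, hK2, h2⟩ := c_le_hp
  refine ⟨K1 + K2, by positivity, ?_⟩
  intro n hn x y hy hz hpar hle
  have ha1 := one_le_a hz hpar hle
  have ha : (0 : ℝ) < a n x y := by exact_mod_cast ha1
  have hc := c_pos n
  have g1 := h1 n hn n le_rfl x y hy hz
  have g2 := h2 n hn
  have hq1 := q_pos n K1
  have hq2 := q_pos n K2
  have hla : (0 : ℝ) < la n x y := by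
    by_contra hcon
    push Not at hcon
    have : q n K1 * la n x y ≤ 0 := by nlinarith
    linarith
  have hhp : (0 : ℝ) < hp n := by
    by_contra hcon
    push Not at hcon
    have : q n K2 * hp n ≤ 0 := by nlinarith
    linarith
  have g3 : (la n x y : ℝ) ≤ a n x y := by exact_mod_cast la_le_a n x y
  have g4 : (hp n : ℝ) ≤ c n := by exact_mod_cast hp_le_c n
  refine ⟨div_pos ha hc, div_pos hla hhp, ?_⟩
  rw [Real.log_div hla.ne' hhp.ne', Real.log_div ha.ne' hc.ne']
  have l1 : Real.log (a n x y) ≤ K1 * Real.log n ^ 2 + Real.log (la n x y) := by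
    have := Real.log_le_log ha g1
    rw [Real.log_mul hq1.ne' hla.ne'] at this
    unfold q at this
    rwa [Real.log_exp] at this
  have l2 : Real.log (c n) ≤ K2 * Real.log n ^ 2 + Real.log (hp n) := by
    have := Real.log_le_log hc g2
    rw [Real.log_mul hq2.ne' hhp.ne'] at this
    unfold q at this
    rwa [Real.log_exp] at this
  have l3 := Real.log_le_log hla g3
  have l4 := Real.log_le_log hhp g4
  have hl3 : 0 ≤ Real.log (n : ℝ) ^ 2 := pow_nonneg (log_pos' hn).le 2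
  have m1 := mul_nonneg hK1 hl3
  have m2 := mul_nonneg hK2 hl3
  rw [abs_le]
  constructor <;> nlinarith

/-! ### the upper half plane -/

/-- the word stays in the upper half plane -/
def Hi (w : List St) : Prop := ∀ k, 0 ≤ (path w k).2

theorem path_ng_snd (w : List St) (k : ℕ) : (path (ng w) k).2 = -(path w k).2 := by
  unfold path ng
  simp only
  rw [← List.map_take]
  exact dy_ng _

theorem card_hi (n : ℕ) (x y : ℤ) :
    (fs (fun w => Saw w ∧ (dx w = x ∧ dy w = y) ∧ Hi w) n).card = la n x (-y) := by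
  unfold la
  apply le_antisymm
  · apply card_le_of_decode ng
    intro w hw
    rw [mem_fs] at hw
    obtain ⟨⟨h1, ⟨h2, h3⟩, h4⟩, h5⟩ := hw
    refine ⟨ng w, mem_fs.2 ⟨⟨⟨h1.ng, by rw [dx_ng, h2], by rw [dy_ng, h3]⟩, fun k => ?_⟩,
      by rw [length_ng, h5]⟩, ng_ng w⟩
    rw [path_ng_snd]
    have := h4 k
    omega
  · apply card_le_of_decode ng
    intro w hw
    rw [mem_fs] at hw
    obtain ⟨⟨⟨h1, h2, h3⟩, h4⟩, h5⟩ := hw
    refine ⟨ng w, mem_fs.2 ⟨⟨h1.ng, ⟨by rw [dx_ng, h2], by rw [dy_ng, h3, neg_neg]⟩, fun k => ?_⟩,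
      by rw [length_ng, h5]⟩, ng_ng w⟩
    rw [path_ng_snd]
    have := h4 k
    omega

theorem card_hi_all (n : ℕ) : (fs (fun w => Saw w ∧ Hi w) n).card = hp n := by
  unfold hp
  apply le_antisymm
  · apply card_le_of_decode ng
    intro w hw
    rw [mem_fs] at hw
    obtain ⟨⟨h1, h4⟩, h5⟩ := hw
    refine ⟨ng w, mem_fs.2 ⟨⟨h1.ng, fun k => ?_⟩, by rw [length_ng, h5]⟩, ng_ng w⟩
    rw [path_ng_snd]
    have := h4 k
    omega
  · apply card_le_of_decode ng
    intro w hw
    rw [mem_fs] at hw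
    obtain ⟨⟨h1, h4⟩, h5⟩ := hw
    refine ⟨ng w, mem_fs.2 ⟨⟨h1.ng, fun k => ?_⟩, by rw [length_ng, h5]⟩, ng_ng w⟩
    rw [path_ng_snd]
    have := h4 k
    omega

end Pool.Agent.Y981.L2
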