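import Pool.Agent.Y981.L2.Ldp2

/-!
Joint concavity in the length and the ends.
-/

set_option autoImplicit false

namespace Pool.Agent.Y981.L2

open Pool.Agent.TH795.EP Pool.Agent.TH795.EP2 Pool.Agent.TH795.SE2 Pool.Agent.TH262.SawL H981 Finset

/-- the approximate value of `lg` -/
noncomputable def Ph (p : ℕ × ℤ × ℤ) : ℝ :=
  p.1 * Real.log mu - p.1 * Rate ((p.2.1 : ℝ) / p.1, (p.2.2 : ℝ) / p.1)

theorem mem_dia_of_ok {p : ℕ × ℤ × ℤ} (hp : Ok p) :
    (((p.2.1 : ℝ) / p.1, (p.2.2 : ℝ) / p.1) : ℝ × ℝ) ∈ Dia := by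
  have hle := hp.abs
  rcases Nat.eq_zero_or_pos p.1 with h0 | h0
  · show |(p.2.1 : ℝ) / p.1| + |(p.2.2 : ℝ) / p.1| ≤ 1
    rw [h0]
    simp
  · have hn0 : (0 : ℝ) < p.1 := by exact_mod_cast h0
    show |(p.2.1 : ℝ) / p.1| + |(p.2.2 : ℝ) / p.1| ≤ 1
    rw [abs_div, abs_div, abs_of_pos hn0, ← add_div, div_le_one hn0]
    exact_mod_cast hle

theorem lg_rate : ∃ K : ℝ, 0 ≤ K ∧ ∀ n : ℕ, 2 ≤ n → ∀ p : ℕ × ℤ × ℤ, p.1 ≤ n → Ok p →
    |lg p - Ph p| ≤ K * Real.log n ^ 2 := by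
  obtain ⟨K1, hK1, hup, -⟩ := exists_K
  obtain ⟨K2, hK2, hldp⟩ := ldp_words
  have hmu0 : 0 ≤ Real.log mu := Real.log_nonneg one_le_mu
  have hL0 := Lam_nonneg (0, 0)
  refine ⟨K1 + K2 + 4 * (Real.log mu + Lam (0, 0)), by positivity, ?_⟩
  rintro n hn ⟨m, x, y⟩ hm hp
  simp only at hm
  have hlog := log_pos' hn
  have hlog2 : Real.log 2 ≤ Real.log n := log_ge hn
  have hl2 := Real.log_two_gt_d9
  have hsq : 1 ≤ 4 * Real.log n ^ 2 := by nlinarith
  have hL2 : 0 ≤ Real.log n ^ 2 := by positivity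
  have q1 : 0 ≤ K1 * Real.log n ^ 2 := mul_nonneg hK1 hL2
  have q2 : 0 ≤ K2 * Real.log n ^ 2 := mul_nonneg hK2 hL2
  have q3 : Real.log mu + Lam (0, 0) ≤ 4 * (Real.log mu + Lam (0, 0)) * Real.log n ^ 2 := by
    nlinarith [mul_le_mul_of_nonneg_left hsq (add_nonneg hmu0 hL0)]
  have hdia := mem_dia_of_ok hp
  rcases Nat.lt_or_ge m 2 with h2 | h2
  · rw [lg_small hp (by simp only; omega)]
    unfold Ph
    simp only at hdia ⊢
    have r1 := rate_le hdia
    have r2 := le_rate hdia (0, 0)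
    simp only [zero_mul, add_zero, zero_sub] at r2
    have hm0 : (0 : ℝ) ≤ m := Nat.cast_nonneg _
    have hm1 : (m : ℝ) ≤ 1 := by exact_mod_cast (by omega : m ≤ 1)
    rw [zero_sub, abs_neg, ← mul_sub, abs_mul, abs_of_nonneg hm0]
    have r3 : |Real.log mu - Rate ((x : ℝ) / m, (y : ℝ) / m)| ≤ Real.log mu + Lam (0, 0) := by
      rw [abs_le]
      constructor
      · linarith
      · linarith
    calc (m : ℝ) * |Real.log mu - Rate ((x : ℝ) / m, (y : ℝ) / m)|
        ≤ 1 * |Real.log mu - Rate ((x : ℝ) / m, (y : ℝ) / m)| :=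
          mul_le_mul_of_nonneg_right hm1 (abs_nonneg _)
      _ ≤ Real.log mu + Lam (0, 0) := by rw [one_mul]; exact r3
      _ ≤ _ := by nlinarith
  · have hz : (x, y) ≠ (0, 0) := by
      intro h
      obtain ⟨w, hw, hx, hy, hwl⟩ := hp.word
      simp only at hx hy hwl
      obtain ⟨e1, e2⟩ := Prod.mk.inj h
      rw [e1] at hx
      rw [e2] at hy
      have h3 := hw w List.infix_rfl hx hy
      rw [h3] at hwl
      simp at hwl
      omega
    have hle := hp.abs
    have hpar := hp.par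
    simp only at hle hpar
    have h1 := hldp m h2 x y hz hpar hle
    have hpos : (0 : ℝ) < a m x y := by exact_mod_cast hp
    rw [Real.log_div hpos.ne' (c_pos m).ne', abs_le] at h1
    have hc1 : m * Real.log mu ≤ Real.log (c m) := by
      have h1 : mu ^ m ≤ c m := by rw [c_eq]; exact mu_pow_le m
      have h2 := Real.log_le_log (pow_pos mu_pos m) h1
      rwa [Real.log_pow] at h2
    have hc2 : Real.log (c m) ≤ m * Real.log mu + K1 * Real.log m ^ 2 := by
      have h3 := Real.log_le_log (c_pos m) (hup m h2 m le_rfl)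
      rw [Real.log_mul (pow_pos mu_pos m).ne' (q_pos _ _).ne', Real.log_pow] at h3
      have h4 : Real.log (q m K1) = K1 * Real.log m ^ 2 := by unfold q; rw [Real.log_exp]
      rwa [h4] at h3
    have hmn : Real.log m ≤ Real.log n :=
      Real.log_le_log (by exact_mod_cast (by omega : 0 < m)) (by exact_mod_cast hm)
    have hmn2 : Real.log m ^ 2 ≤ Real.log n ^ 2 := pow_le_pow_left₀ (log_pos' h2).le hmn 2
    have s1 := mul_le_mul_of_nonneg_left hmn2 hK1
    have s2 := mul_le_mul_of_nonneg_left hmn2 hK2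
    have hlg : lg (m, x, y) = Real.log (a m x y) := rfl
    rw [hlg]
    unfold Ph
    simp only
    have q3' : 0 ≤ 4 * (Real.log mu + Lam (0, 0)) * Real.log n ^ 2 := by positivity
    rw [abs_le]
    constructor
    · linarith [h1.1, h1.2]
    · linarith [h1.1, h1.2]

theorem Ph_super {ι : Type} (s : Finset ι) (p : ι → ℕ × ℤ × ℤ) (w : ι → ℝ) (m : ℕ) (X Y : ℤ)
    (hp : ∀ i ∈ s, Ok (p i)) (hw : ∀ i ∈ s, 0 ≤ w i)
    (hV : ∑ i ∈ s, w i • vec (p i) = ((m : ℝ), (X : ℝ), (Y : ℝ))) (hm : 0 < m) :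
    ∑ i ∈ s, w i * Ph (p i) ≤ Ph (m, X, Y) := by
  obtain ⟨v1, v2, v3⟩ := fst_sum' s w p hV
  have hm0 : (0 : ℝ) < m := by exact_mod_cast hm
  have key : m * Rate ((X : ℝ) / m, (Y : ℝ) / m) ≤
      ∑ i ∈ s, w i * ((p i).1 * Rate (((p i).2.1 : ℝ) / (p i).1, ((p i).2.2 : ℝ) / (p i).1)) := by
    rw [mul_comm, ← le_div_iff₀ hm0]
    apply ciSup_le
    intro h
    rw [le_div_iff₀ hm0]
    simp only
    have e : (h.1 * ((X : ℝ) / m) + h.2 * ((Y : ℝ) / m) - Lam h) * m =
        ∑ i ∈ s, w i * (h.1 * (p i).2.1 + h.2 * (p i).2.2 - (p i).1 * Lam h) := by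
      have e1 : (h.1 * ((X : ℝ) / m) + h.2 * ((Y : ℝ) / m) - Lam h) * m =
          h.1 * X + h.2 * Y - m * Lam h := by
        field_simp
      rw [e1, ← v1, ← v2, ← v3, Finset.mul_sum, Finset.mul_sum, Finset.sum_mul,
        ← Finset.sum_add_distrib, ← Finset.sum_sub_distrib]
      apply Finset.sum_congr rfl
      intro i _
      ring
    rw [e]
    apply Finset.sum_le_sum
    intro i hi
    apply mul_le_mul_of_nonneg_left _ (hw i hi)
    have hdia := mem_dia_of_ok (hp i hi)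
    have hle := (hp i hi).abs
    rcases Nat.eq_zero_or_pos (p i).1 with h0 | h0
    · rw [h0] at hle ⊢
      have hx0 : (p i).2.1 = 0 := abs_eq_zero.1 (by
        have := abs_nonneg (p i).2.1; have := abs_nonneg (p i).2.2; push_cast at hle; omega)
      have hy0 : (p i).2.2 = 0 := abs_eq_zero.1 (by
        have := abs_nonneg (p i).2.1; have := abs_nonneg (p i).2.2; push_cast at hle; omega)
      rw [hx0, hy0]
      simp
    · have hl0 : (0 : ℝ) < (p i).1 := by exact_mod_cast h0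
      have h1 := mul_le_mul_of_nonneg_left (le_rate hdia h) hl0.le
      refine le_trans (le_of_eq ?_) h1
      simp only
      field_simp
  have e2 : ∑ i ∈ s, w i * Ph (p i) = m * Real.log mu -
      ∑ i ∈ s, w i * ((p i).1 * Rate (((p i).2.1 : ℝ) / (p i).1, ((p i).2.2 : ℝ) / (p i).1)) := by
    rw [← v1, Finset.sum_mul, ← Finset.sum_sub_distrib]
    apply Finset.sum_congr rfl
    intro i _
    unfold Ph
    ring
  rw [e2]
  unfold Ph
  simp only
  linarith

/-- **Joint quasi-log-concavity** of the number of words in the length and the displacement. -/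
theorem joint_concave : ∃ K : ℝ, 0 ≤ K ∧ ∀ n : ℕ, 2 ≤ n → ∀ (ι : Type) (_ : DecidableEq ι)
    (s : Finset ι) (p : ι → ℕ × ℤ × ℤ) (w : ι → ℝ) (m : ℕ) (X Y : ℤ), s.card ≤ 3 → m ≤ n →
    (∀ i ∈ s, Ok (p i) ∧ (p i).1 ≤ n) → (∀ i ∈ s, 0 ≤ w i ∧ w i ≤ 1) →
    ∑ i ∈ s, w i • vec (p i) = ((m : ℝ), (X : ℝ), (Y : ℝ)) → (X, Y) ≠ (0, 0) →
    (X + Y - m) % 2 = 0 →
    Ok (m, X, Y) ∧ ∑ i ∈ s, w i * lg (p i) ≤ lg (m, X, Y) + K * Real.log n ^ 2 := by
  obtain ⟨K, hK, hlg⟩ := lg_rate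
  refine ⟨4 * K, by positivity, ?_⟩
  intro n hn ι _ s p w m X Y hs3 hmn hp hw hV hXY hpar
  obtain ⟨v1, v2, v3⟩ := fst_sum' s w p hV
  have hL2 : 0 ≤ K * Real.log n ^ 2 := by positivity
  have hle : |X| + |Y| ≤ m := by
    have h1 : |(X : ℝ)| + |(Y : ℝ)| ≤ m := by
      rw [← v1, ← v2, ← v3]
      calc |∑ i ∈ s, w i * ((p i).2.1 : ℝ)| + |∑ i ∈ s, w i * ((p i).2.2 : ℝ)|
          ≤ ∑ i ∈ s, |w i * ((p i).2.1 : ℝ)| + ∑ i ∈ s, |w i * ((p i).2.2 : ℝ)| :=
            add_le_add (Finset.abs_sum_le_sum_abs _ _) (Finset.abs_sum_le_sum_abs _ _)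
        _ = ∑ i ∈ s, w i * (|((p i).2.1 : ℝ)| + |((p i).2.2 : ℝ)|) := by
            rw [← Finset.sum_add_distrib]
            apply Finset.sum_congr rfl
            intro i hi
            rw [abs_mul, abs_mul, abs_of_nonneg (hw i hi).1]
            ring
        _ ≤ ∑ i ∈ s, w i * ((p i).1 : ℝ) := by
            apply Finset.sum_le_sum
            intro i hi
            apply mul_le_mul_of_nonneg_left _ (hw i hi).1
            have := (hp i hi).1.abs
            exact_mod_cast this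
    exact_mod_cast h1
  have hok : Ok (m, X, Y) := one_le_a hXY hpar hle
  have hm : 0 < m := by
    by_contra hcon
    have h0 : m = 0 := by omega
    apply hXY
    rw [h0] at hle
    have hx0 : X = 0 := abs_eq_zero.1 (by
      have := abs_nonneg X; have := abs_nonneg Y; push_cast at hle; omega)
    have hy0 : Y = 0 := abs_eq_zero.1 (by
      have := abs_nonneg X; have := abs_nonneg Y; push_cast at hle; omega)
    rw [hx0, hy0]
  refine ⟨hok, ?_⟩
  have h1 := hlg n hn (m, X, Y) hmn hok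
  have h2 := Ph_super s p w m X Y (fun i hi => (hp i hi).1) (fun i hi => (hw i hi).1) hV hm
  have h3 : ∑ i ∈ s, w i * lg (p i) ≤ ∑ i ∈ s, (w i * Ph (p i) + K * Real.log n ^ 2) := by
    apply Finset.sum_le_sum
    intro i hi
    have h4 := hlg n hn (p i) (hp i hi).2 (hp i hi).1
    rw [abs_le] at h4
    have h5 : w i * lg (p i) ≤ w i * (Ph (p i) + K * Real.log n ^ 2) :=
      mul_le_mul_of_nonneg_left (by linarith) (hw i hi).1
    have h6 : w i * (K * Real.log n ^ 2) ≤ 1 * (K * Real.log n ^ 2) :=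
      mul_le_mul_of_nonneg_right (hw i hi).2 hL2
    linarith
  rw [Finset.sum_add_distrib, Finset.sum_const, nsmul_eq_mul] at h3
  have h7 : (s.card : ℝ) ≤ 3 := by exact_mod_cast hs3
  have h8 := mul_le_mul_of_nonneg_right h7 hL2
  rw [abs_le] at h1
  linarith [h1.1]

/-- half of a word -/
theorem halve : ∃ K : ℝ, 0 ≤ K ∧ ∀ n : ℕ, 2 ≤ n → ∀ m : ℕ, 2 * m ≤ n → ∀ x y : ℤ,
    (x, y) ≠ (0, 0) → (x + y - m) % 2 = 0 → Ok (2 * m, 2 * x, 2 * y) →
    Ok (m, x, y) ∧ lg (2 * m, 2 * x, 2 * y) ≤ 2 * lg (m, x, y) + K * Real.log n ^ 2 := by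
  obtain ⟨K, hK, h⟩ := joint_concave
  refine ⟨2 * K, by positivity, ?_⟩
  intro n hn m hm x y hxy hpar hok
  obtain ⟨h1, h2⟩ := h n hn Unit inferInstance {()} (fun _ => (2 * m, 2 * x, 2 * y))
    (fun _ => 1 / 2) m x y (by simp) (by omega) (fun _ _ => ⟨hok, hm⟩)
    (fun _ _ => by norm_num) (by
      rw [Finset.sum_singleton]
      unfold vec
      push_cast
      ext <;> simp) hxy hpar
  refine ⟨h1, ?_⟩
  rw [Finset.sum_singleton] at h2
  linarith

/-- monotonicity along the first axis -/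
theorem a_axis_mono : ∃ K : ℝ, 0 ≤ K ∧ ∀ n : ℕ, 2 ≤ n → ∀ x x' : ℤ, 0 < x → x ≤ x' →
    Ok (n, x', 0) → (x - n) % 2 = 0 → Ok (n, x, 0) ∧
    lg (n, x', 0) ≤ lg (n, x, 0) + K * Real.log n ^ 2 := by
  obtain ⟨K, hK, h⟩ := joint_concave
  refine ⟨K, hK, ?_⟩
  intro n hn x x' hx hxx hok hpar
  have hx' : (0 : ℝ) < x' := by exact_mod_cast (by omega : 0 < x')
  have hx0 : (0 : ℝ) < x := by exact_mod_cast hx
  have hxr : (x : ℝ) ≤ x' := by exact_mod_cast hxx
  have hsg : a n (-x') 0 = a n x' 0 := a_sg n x' 0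
  have hok2 : Ok (n, -x', 0) := by
    show 0 < a n (-x') 0
    rw [hsg]; exact hok
  have ht : (x : ℝ) / x' ≤ 1 := by rw [div_le_one hx']; exact hxr
  have ht0 : 0 < (x : ℝ) / x' := by positivity
  obtain ⟨h1, h2⟩ := h n hn Bool inferInstance Finset.univ
    (fun b => if b then (n, x', 0) else (n, -x', 0))
    (fun b => if b then (1 + (x : ℝ) / x') / 2 else (1 - (x : ℝ) / x') / 2) n x 0 (by simp) le_rfl
    (fun b _ => by cases b <;> simp [hok, hok2])
    (fun b _ => by cases b <;> simp <;> constructor <;> linarith) (by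
      rw [Fintype.sum_bool]
      simp only [if_true, Bool.false_eq_true, if_false]
      unfold vec
      ext
      · simp; ring
      · simp; field_simp; ring
      · simp) (by
      intro h
      have := (Prod.mk.inj h).1
      omega) (by omega)
  refine ⟨h1, ?_⟩
  rw [Fintype.sum_bool] at h2
  simp only [if_true, Bool.false_eq_true, if_false] at h2
  have e : lg (n, -x', 0) = lg (n, x', 0) := by
    unfold lg
    simp only
    rw [hsg]
  rw [e] at h2
  linarith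

end Pool.Agent.Y981.L2
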