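import Pool.Agent.Y981.L2.Lap

/-!
The free energy of the pulled self-avoiding walk and the uniform estimate of the Laplace
transform of its end point.
-/

set_option autoImplicit false

namespace Pool.Agent.Y981.L2

open Pool.Agent.TH795.EP Pool.Agent.TH795.EP2 Pool.Agent.TH795.SE2 H981 Finset

theorem sub_Z (h : ℝ × ℝ) : Subadditive (fun n => Real.log (Z h n)) := by
  intro m n
  simp only
  rw [← Real.log_mul (Z_pos h m).ne' (Z_pos h n).ne']
  exact Real.log_le_log (Z_pos h _) (Z_add_le h m n)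

theorem bdd_Z (h : ℝ × ℝ) : BddBelow (Set.range fun n : ℕ => Real.log (Z h n) / n) := by
  refine ⟨0, ?_⟩
  rintro x ⟨n, rfl⟩
  simp only
  apply div_nonneg _ (Nat.cast_nonneg _)
  apply Real.log_nonneg
  have h1 := c_le_Z h n
  have h2 : (1 : ℝ) ≤ c n := by
    have := c_pos n
    have h3 : 0 < c n := by exact_mod_cast this
    exact_mod_cast h3
  linarith

/-- the excess free energy under the force `h` -/
noncomputable def Lam (h : ℝ × ℝ) : ℝ := (sub_Z h).lim - Real.log mu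

theorem Lam_le (h : ℝ × ℝ) {n : ℕ} (hn : 1 ≤ n) :
    n * (Lam h + Real.log mu) ≤ Real.log (Z h n) := by
  have h1 := (sub_Z h).lim_le_div (bdd_Z h) (n := n) (by omega)
  have hn0 : (0 : ℝ) < n := by exact_mod_cast hn
  rw [le_div_iff₀ hn0] at h1
  unfold Lam
  linarith

theorem iter {K : ℝ} (hK0 : 0 ≤ K) (hs : ∀ n : ℕ, 2 ≤ n → ∀ m1 m2 : ℕ, m1 + m2 ≤ n →
    ∀ h : ℝ × ℝ, Z h m1 * Z h m2 ≤ q n K * Z h (m1 + m2)) {n : ℕ} (hn : 2 ≤ n) (h : ℝ × ℝ)
    (k : ℕ) : 2 ^ k * (Real.log (Z h n) - 100 * K * Real.log n ^ 2) +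
      4 * K * (k + 5) ^ 2 * Real.log n ^ 2 ≤ Real.log (Z h (2 ^ k * n)) := by
  have hlog := log_pos' hn
  have hlog2 : Real.log 2 ≤ Real.log n := log_ge hn
  induction k with
  | zero =>
    simp only [pow_zero, one_mul, Nat.cast_zero, zero_add]
    linarith
  | succ k ih =>
    have h2n : 2 ≤ 2 ^ (k + 1) * n := by
      have : 1 ≤ 2 ^ (k + 1) := Nat.one_le_two_pow
      nlinarith
    have e : 2 ^ k * n + 2 ^ k * n = 2 ^ (k + 1) * n := by rw [pow_succ]; ring
    have h1 := hs (2 ^ (k + 1) * n) h2n (2 ^ k * n) (2 ^ k * n) e.le h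
    rw [e] at h1
    have h2 := Real.log_le_log (mul_pos (Z_pos h _) (Z_pos h _)) h1
    rw [Real.log_mul (Z_pos h _).ne' (Z_pos h _).ne', Real.log_mul (q_pos _ _).ne'
      (Z_pos h _).ne'] at h2
    have h3 : Real.log (q (2 ^ (k + 1) * n) K) ≤ K * ((k + 2) ^ 2 * Real.log n ^ 2) := by
      unfold q
      rw [Real.log_exp]
      apply mul_le_mul_of_nonneg_left _ hK0
      rw [← mul_pow]
      apply pow_le_pow_left₀ (log_pos' h2n).le
      push_cast
      rw [Real.log_mul (by positivity) (by positivity), Real.log_pow]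
      push_cast
      nlinarith
    have h4 : 0 ≤ K * Real.log n ^ 2 := mul_nonneg hK0 (pow_pos hlog 2).le
    have h5 : (4 * ((k + 1 : ℕ) + 5 : ℝ) ^ 2 + (k + 2) ^ 2) ≤ 8 * ((k : ℝ) + 5) ^ 2 := by
      push_cast
      have hk : (0 : ℝ) ≤ k := Nat.cast_nonneg k
      nlinarith [mul_nonneg hk hk]
    have h6 := mul_le_mul_of_nonneg_right h5 h4
    rw [pow_succ]
    nlinarith

/-- **The Laplace transform of the end point**, uniformly in the force. -/
theorem Z_le : ∃ K : ℝ, 0 ≤ K ∧ ∀ n : ℕ, 2 ≤ n → ∀ h : ℝ × ℝ,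
    Real.log (Z h n) ≤ n * (Lam h + Real.log mu) + K * Real.log n ^ 2 := by
  obtain ⟨K, hK0, hs⟩ := Z_super
  refine ⟨100 * K, by positivity, ?_⟩
  intro n hn h
  have hn0 : (0 : ℝ) < n := by exact_mod_cast (by omega : 0 < n)
  have hlog := log_pos' hn
  have ht := (sub_Z h).tendsto_lim (bdd_Z h)
  have hsub : Filter.Tendsto (fun k : ℕ => 2 ^ k * n) Filter.atTop Filter.atTop := by
    apply Filter.tendsto_atTop_mono (f := fun k : ℕ => k)
    · intro k
      have h1 : k < 2 ^ k := Nat.lt_two_pow_self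
      nlinarith
    · exact Filter.tendsto_id
  have ht2 := ht.comp hsub
  have h1 : (Real.log (Z h n) - 100 * K * Real.log n ^ 2) / n ≤ (sub_Z h).lim := by
    apply ge_of_tendsto ht2
    filter_upwards with k
    simp only [Function.comp]
    have h2 := iter hK0 hs hn h k
    have h3 : (0 : ℝ) ≤ 4 * K * (k + 5) ^ 2 * Real.log n ^ 2 := by positivity
    have h4 : (0 : ℝ) < 2 ^ k := by positivity
    push_cast
    rw [div_le_div_iff₀ hn0 (by positivity)]
    nlinarith
  rw [div_le_iff₀ hn0] at h1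
  unfold Lam
  linarith

theorem abs_le_Lam (h : ℝ × ℝ) : |h.1| - Real.log mu ≤ Lam h ∧ |h.2| - Real.log mu ≤ Lam h := by
  have ht := (sub_Z h).tendsto_lim (bdd_Z h)
  constructor
  · have : |h.1| ≤ (sub_Z h).lim := by
      apply ge_of_tendsto ht
      filter_upwards [Filter.eventually_ge_atTop 1] with n hn
      have hn0 : (0 : ℝ) < n := by exact_mod_cast hn
      rw [le_div_iff₀ hn0]
      have h1 := Real.log_le_log (Real.exp_pos _) (exp_le_Z h hn).1
      rw [Real.log_exp] at h1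
      linarith
    unfold Lam
    linarith
  · have : |h.2| ≤ (sub_Z h).lim := by
      apply ge_of_tendsto ht
      filter_upwards [Filter.eventually_ge_atTop 1] with n hn
      have hn0 : (0 : ℝ) < n := by exact_mod_cast hn
      rw [le_div_iff₀ hn0]
      have h1 := Real.log_le_log (Real.exp_pos _) (exp_le_Z h hn).2
      rw [Real.log_exp] at h1
      linarith
    unfold Lam
    linarith

theorem Lam_nonneg (h : ℝ × ℝ) : 0 ≤ Lam h := by
  have ht := (sub_Z h).tendsto_lim (bdd_Z h)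
  have : Real.log mu ≤ (sub_Z h).lim := by
    apply ge_of_tendsto ht
    filter_upwards [Filter.eventually_ge_atTop 1] with n hn
    have hn0 : (0 : ℝ) < n := by exact_mod_cast hn
    rw [le_div_iff₀ hn0]
    have h1 := Real.log_le_log (pow_pos mu_pos n) (mu_le_Z h n)
    rw [Real.log_pow] at h1
    linarith
  unfold Lam
  linarith

/-- the points with `|x| + |y| ≤ 1` -/
def Dia : Set (ℝ × ℝ) := {v | |v.1| + |v.2| ≤ 1}

/-- the rate function -/
noncomputable def Rate (v : ℝ × ℝ) : ℝ := ⨆ h : ℝ × ℝ, (h.1 * v.1 + h.2 * v.2 - Lam h)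

theorem bdd_rate {v : ℝ × ℝ} (hv : v ∈ Dia) :
    ∀ h : ℝ × ℝ, h.1 * v.1 + h.2 * v.2 - Lam h ≤ Real.log mu := by
  intro h
  obtain ⟨h1, h2⟩ := abs_le_Lam h
  have h3 : h.1 * v.1 ≤ |h.1| * |v.1| := by rw [← abs_mul]; exact le_abs_self _
  have h4 : h.2 * v.2 ≤ |h.2| * |v.2| := by rw [← abs_mul]; exact le_abs_self _
  have h5 : |v.1| + |v.2| ≤ 1 := hv
  have h6 := abs_nonneg v.1
  have h7 := abs_nonneg v.2
  have h8 := Lam_nonneg h
  have hmu : 0 ≤ Real.log mu := Real.log_nonneg one_le_mu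
  have h9 : |h.1| * |v.1| ≤ (Lam h + Real.log mu) * |v.1| :=
    mul_le_mul_of_nonneg_right (by linarith) h6
  have h10 : |h.2| * |v.2| ≤ (Lam h + Real.log mu) * |v.2| :=
    mul_le_mul_of_nonneg_right (by linarith) h7
  nlinarith

theorem le_rate {v : ℝ × ℝ} (hv : v ∈ Dia) (h : ℝ × ℝ) :
    h.1 * v.1 + h.2 * v.2 - Lam h ≤ Rate v := by
  unfold Rate
  exact le_ciSup (f := fun h : ℝ × ℝ => h.1 * v.1 + h.2 * v.2 - Lam h)
    ⟨Real.log mu, by rintro x ⟨h, rfl⟩; exact bdd_rate hv h⟩ h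

theorem rate_le {v : ℝ × ℝ} (hv : v ∈ Dia) : Rate v ≤ Real.log mu :=
  ciSup_le (bdd_rate hv)

theorem convex_dia : Convex ℝ Dia := by
  intro u hu v hv s t hs ht hst
  have h1 : |u.1| + |u.2| ≤ 1 := hu
  have h2 : |v.1| + |v.2| ≤ 1 := hv
  show |(s • u + t • v).1| + |(s • u + t • v).2| ≤ 1
  simp only [Prod.fst_add, Prod.snd_add, Prod.smul_fst, Prod.smul_snd, smul_eq_mul]
  have h3 : |s * u.1 + t * v.1| ≤ s * |u.1| + t * |v.1| := by
    refine (abs_add_le _ _).trans (le_of_eq ?_)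
    rw [abs_mul, abs_mul, abs_of_nonneg hs, abs_of_nonneg ht]
  have h4 : |s * u.2 + t * v.2| ≤ s * |u.2| + t * |v.2| := by
    refine (abs_add_le _ _).trans (le_of_eq ?_)
    rw [abs_mul, abs_mul, abs_of_nonneg hs, abs_of_nonneg ht]
  nlinarith

theorem convex_rate : ConvexOn ℝ Dia Rate := by
  refine ⟨convex_dia, ?_⟩
  intro u hu v hv s t hs ht hst
  apply ciSup_le
  intro h
  have h1 := le_rate hu h
  have h2 := le_rate hv h
  simp only [Prod.fst_add, Prod.snd_add, Prod.smul_fst, Prod.smul_snd, smul_eq_mul]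
  have h3 := mul_le_mul_of_nonneg_left h1 hs
  have h4 := mul_le_mul_of_nonneg_left h2 ht
  have h5 : Lam h = s * Lam h + t * Lam h := by rw [← add_mul, hst, one_mul]
  nlinarith

end Pool.Agent.Y981.L2
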