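import Pool.Agent.Helper133.BULib

/-!
A discrete necklace splitting theorem (Hobby-Rice) for three measures, from the Borsuk-Ulam theorem.
-/

set_option autoImplicit false

namespace Pool.Agent.Y981.L2

open Finset

/-- clamp to the unit interval -/
noncomputable def cl (r : ℝ) : ℝ := max 0 (min r 1)

theorem cl_zero {r : ℝ} (h : r ≤ 0) : cl r = 0 := by
  unfold cl
  rw [max_eq_left]
  exact (min_le_left _ _).trans h

theorem cl_one {r : ℝ} (h : 1 ≤ r) : cl r = 1 := by
  unfold cl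
  rw [min_eq_right h]
  norm_num

theorem cl_nonneg (r : ℝ) : 0 ≤ cl r := le_max_left _ _

theorem cl_le_one (r : ℝ) : cl r ≤ 1 := by
  unfold cl
  exact max_le zero_le_one (min_le_right _ _)

/-- the interpolated primitive -/
noncomputable def Fc (N : ℕ) (c : ℕ → Fin 3 → ℝ) (j : Fin 3) (t : ℝ) : ℝ :=
  ∑ k ∈ range N, c k j * cl (t - k)

/-- the primitive -/
noncomputable def Cc (c : ℕ → Fin 3 → ℝ) (j : Fin 3) (m : ℕ) : ℝ := ∑ k ∈ range m, c k j

theorem cont_Fc (N : ℕ) (c : ℕ → Fin 3 → ℝ) (j : Fin 3) : Continuous (Fc N c j) := by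
  unfold Fc cl
  fun_prop

theorem Fc_near {N : ℕ} {c : ℕ → Fin 3 → ℝ} (hc : ∀ k j, |c k j| ≤ 1) (j : Fin 3) {t : ℝ}
    (h0 : 0 ≤ t) (hN : t ≤ N) : |Cc c j ⌊t⌋₊ - Fc N c j t| ≤ 1 := by
  have hm : ⌊t⌋₊ ≤ N := Nat.floor_le_of_le hN
  obtain ⟨m, hmd⟩ : ∃ m, m = ⌊t⌋₊ := ⟨_, rfl⟩
  have h1 : (m : ℝ) ≤ t := by rw [hmd]; exact Nat.floor_le h0
  have h2 : t < m + 1 := by rw [hmd]; exact Nat.lt_floor_add_one t
  rw [← hmd] at hm ⊢
  have key : ∀ k ∈ range N, c k j * cl (t - k) =
      (if k < m then c k j else 0) + (if k = m then c k j * cl (t - k) else 0) := by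
    intro k _
    rcases lt_trichotomy k m with h | h | h
    · have h3 : (k : ℝ) + 1 ≤ m := by exact_mod_cast h
      rw [cl_one (by linarith), if_pos h, if_neg (by omega)]
      ring
    · rw [if_neg (by omega), if_pos h, zero_add]
    · have h3 : (m : ℝ) + 1 ≤ k := by exact_mod_cast h
      rw [cl_zero (by linarith), if_neg (by omega), if_neg (by omega)]
      ring
  unfold Fc Cc
  rw [Finset.sum_congr rfl key, Finset.sum_add_distrib]
  have h4 : ∑ k ∈ range N, (if k < m then c k j else 0) = ∑ k ∈ range m, c k j := by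
    rw [← Finset.sum_filter]
    apply Finset.sum_congr _ (fun _ _ => rfl)
    ext k
    simp only [mem_filter, mem_range]
    omega
  rw [h4, sub_add_cancel_left, abs_neg, Finset.sum_ite_eq']
  split_ifs
  · rw [abs_mul, abs_of_nonneg (cl_nonneg _)]
    have h5 := hc m j
    have h6 := cl_le_one (t - m)
    have h7 := cl_nonneg (t - m)
    have h8 := abs_nonneg (c m j)
    nlinarith
  · simp

theorem Fc_zero (N : ℕ) (c : ℕ → Fin 3 → ℝ) (j : Fin 3) : Fc N c j 0 = 0 := by
  unfold Fc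
  apply Finset.sum_eq_zero
  intro k _
  have : (0 : ℝ) ≤ k := Nat.cast_nonneg k
  rw [cl_zero (by linarith), mul_zero]

theorem Fc_top (N : ℕ) (c : ℕ → Fin 3 → ℝ) (j : Fin 3) : Fc N c j N = Cc c j N := by
  unfold Fc Cc
  apply Finset.sum_congr rfl
  intro k hk
  rw [mem_range] at hk
  have : (k : ℝ) + 1 ≤ N := by exact_mod_cast hk
  rw [cl_one (by linarith), mul_one]

/-- partial sums of the absolute values -/
noncomputable def Tt (N : ℕ) (x : Fin 4 → ℝ) (i : ℕ) : ℝ :=
  N * ∑ j : Fin 4, if (j : ℕ) < i then |x j| else 0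

theorem cont_Tt (N : ℕ) (i : ℕ) : Continuous (fun x : Fin 4 → ℝ => Tt N x i) := by
  unfold Tt
  apply Continuous.mul continuous_const
  apply continuous_finset_sum
  intro j _
  split_ifs
  · fun_prop
  · exact continuous_const

theorem Tt_neg (N : ℕ) (x : Fin 4 → ℝ) (i : ℕ) : Tt N (-x) i = Tt N x i := by
  unfold Tt
  simp only [Pi.neg_apply, abs_neg]

theorem Tt_succ (N : ℕ) (x : Fin 4 → ℝ) (i : Fin 4) :
    Tt N x ((i : ℕ) + 1) = Tt N x i + N * |x i| := by
  unfold Tt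
  rw [← mul_add]
  congr 1
  have h : ∀ j : Fin 4, (if (j : ℕ) < (i : ℕ) + 1 then |x j| else 0) =
      (if (j : ℕ) < i then |x j| else 0) + (if j = i then |x j| else 0) := by
    intro j
    rcases lt_trichotomy (j : ℕ) (i : ℕ) with h | h | h
    · rw [if_pos (by omega), if_pos h, if_neg (by intro e; rw [e] at h; omega), add_zero]
    · have e : j = i := Fin.ext h
      rw [if_pos (by omega), if_neg (by omega), if_pos e, zero_add]
    · rw [if_neg (by omega), if_neg (by omega), if_neg (by intro e; rw [e] at h; omega), add_zero]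
  rw [Finset.sum_congr rfl (fun j _ => h j), Finset.sum_add_distrib, Finset.sum_ite_eq']
  simp

/-- the odd map -/
noncomputable def ff (N : ℕ) (c : ℕ → Fin 3 → ℝ) (x : Fin 4 → ℝ) (j : Fin 3) : ℝ :=
  ∑ i : Fin 4, (Fc N c j (Tt N x i + N * max (x i) 0) - Fc N c j (Tt N x i + N * max (-(x i)) 0))

theorem cont_ff (N : ℕ) (c : ℕ → Fin 3 → ℝ) : Continuous (ff N c) := by
  apply continuous_pi
  intro j
  unfold ff
  apply continuous_finset_sum
  intro i _
  have h := cont_Fc N c j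
  have h1 := cont_Tt N i
  apply Continuous.sub
  · apply h.comp
    exact h1.add (continuous_const.mul ((continuous_apply i).max continuous_const))
  · apply h.comp
    exact h1.add (continuous_const.mul ((continuous_apply i).neg.max continuous_const))

theorem odd_ff (N : ℕ) (c : ℕ → Fin 3 → ℝ) (x : Fin 4 → ℝ) : ff N c (-x) = - ff N c x := by
  funext j
  unfold ff
  rw [Pi.neg_apply, ← Finset.sum_neg_distrib]
  apply Finset.sum_congr rfl
  intro i _
  rw [Tt_neg, Pi.neg_apply, neg_neg]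
  ring

theorem sgn_term (g : ℝ → ℝ) (T N x : ℝ) : g (T + N * max x 0) - g (T + N * max (-x) 0) =
    (if 0 ≤ x then 1 else -1) * (g (T + N * |x|) - g T) := by
  split_ifs with h
  · rw [max_eq_left h, max_eq_right (by linarith), abs_of_nonneg h]
    simp
  · push Not at h
    rw [max_eq_right h.le, max_eq_left (by linarith), abs_of_neg h]
    simp

/-- **Necklace splitting for three measures**, discrete version. -/
theorem hobby_rice (N : ℕ) (c : ℕ → Fin 3 → ℝ) (hc : ∀ k j, |c k j| ≤ 1) :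
    ∃ (p : ℕ → ℕ) (s : Fin 4 → Bool), p 0 = 0 ∧ p 4 = N ∧ (∀ i : Fin 4, p i ≤ p (i + 1)) ∧
      ∀ j, |∑ i : Fin 4, (if s i then (1 : ℝ) else -1) * (Cc c j (p (i + 1)) - Cc c j (p i))| ≤ 6 := by
  obtain ⟨x, hx, hf⟩ := Pool.Agent.Helper133.BU.borsuk_ulam 3 (ff N c) (cont_ff N c) (odd_ff N c)
  have hx1 : ∑ i : Fin 4, |x i| = 1 := hx
  have hT0 : Tt N x 0 = 0 := by simp [Tt]
  have hT4 : Tt N x 4 = N := by
    unfold Tt
    have : ∀ j : Fin 4, (if (j : ℕ) < 4 then |x j| else 0) = |x j| := fun j => if_pos j.2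
    rw [Finset.sum_congr rfl (fun j _ => this j), hx1, mul_one]
  have hN0 : (0 : ℝ) ≤ N := Nat.cast_nonneg N
  have hmono : ∀ i : Fin 4, Tt N x i ≤ Tt N x ((i : ℕ) + 1) := by
    intro i
    rw [Tt_succ]
    have := abs_nonneg (x i)
    nlinarith
  have m0 := hmono 0
  have m1 := hmono 1
  have m2 := hmono 2
  have m3 := hmono 3
  simp only [Fin.val_zero, Fin.val_one, Fin.val_two, zero_add, Nat.reduceAdd] at m0 m1 m2 m3
  have v3 : ((3 : Fin 4) : ℕ) = 3 := rfl
  rw [v3] at m3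
  norm_num at m0 m1 m2 m3
  refine ⟨fun i => ⌊Tt N x i⌋₊, fun i => decide (0 ≤ x i), ?_, ?_, ?_, ?_⟩
  · simp only [hT0, Nat.floor_zero]
  · simp only [hT4, Nat.floor_natCast]
  · intro i
    exact Nat.floor_mono (hmono i)
  · intro j
    have h1 := congrFun hf j
    unfold ff at h1
    simp only [sgn_term, Pi.zero_apply] at h1
    have h2 : ∑ i : Fin 4, (if 0 ≤ x i then (1 : ℝ) else -1) *
        (Fc N c j (Tt N x ((i : ℕ) + 1)) - Fc N c j (Tt N x i)) = 0 := by
      refine Eq.trans ?_ h1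
      apply Finset.sum_congr rfl
      intro i _
      rw [Tt_succ]
    have hb : ∀ i : ℕ, 0 ≤ Tt N x i → Tt N x i ≤ N → |Cc c j ⌊Tt N x i⌋₊ - Fc N c j (Tt N x i)| ≤ 1 :=
      fun i h3 h4 => Fc_near hc j h3 h4
    have e0 : Cc c j ⌊Tt N x 0⌋₊ - Fc N c j (Tt N x 0) = 0 := by
      rw [hT0, Nat.floor_zero, Fc_zero]
      simp [Cc]
    have e4 : Cc c j ⌊Tt N x 4⌋₊ - Fc N c j (Tt N x 4) = 0 := by
      rw [hT4, Nat.floor_natCast, Fc_top, sub_self]
    have b1 := abs_le.1 (hb 1 (by linarith) (by linarith))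
    have b2 := abs_le.1 (hb 2 (by linarith) (by linarith))
    have b3 := abs_le.1 (hb 3 (by linarith) (by linarith))
    rw [Fin.sum_univ_four] at h2 ⊢
    simp only [decide_eq_true_eq, Fin.val_zero, Fin.val_one, Fin.val_two, v3, zero_add,
      Nat.reduceAdd] at h2 ⊢
    rw [abs_le]
    constructor <;> split_ifs at h2 ⊢ <;> linarith [b1.1, b1.2, b2.1, b2.2, b3.1, b3.2]

end Pool.Agent.Y981.L2
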