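import Pool.Agent.Y981.L2.Short
import Pool.Agent.Y981.L2.Neck

/-!
Gluing at most eight pieces whose total vector is close to a given vector.
-/

set_option autoImplicit false

namespace Pool.Agent.Y981.L2

open Pool.Agent.TH795.EP Pool.Agent.TH795.EP2 Pool.Agent.TH795.SE2 Pool.Agent.TH262.SawL H981 Finset

theorem log_add_twelve {n : ℕ} (hn : 2 ≤ n) :
    Real.log ((n + 12 : ℕ) : ℝ) ^ 2 ≤ 25 * Real.log n ^ 2 := by
  have hn0 : (2 : ℝ) ≤ n := by exact_mod_cast hn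
  have h1 : Real.log ((n + 12 : ℕ) : ℝ) ≤ 5 * Real.log n := by
    have h2 : Real.log ((n : ℝ) ^ 5) = 5 * Real.log n := by
      rw [Real.log_pow]; norm_num
    rw [← h2]
    apply Real.log_le_log (by positivity)
    push_cast
    have h3 : (16 : ℝ) ≤ (n : ℝ) ^ 4 := by
      calc (16 : ℝ) = 2 ^ 4 := by norm_num
        _ ≤ (n : ℝ) ^ 4 := pow_le_pow_left₀ (by norm_num) hn0 4
    have h4 : (n : ℝ) ^ 5 = (n : ℝ) ^ 4 * n := by ring
    rw [h4]
    nlinarith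
  have h0 : 0 ≤ Real.log ((n + 12 : ℕ) : ℝ) := Real.log_natCast_nonneg _
  calc Real.log ((n + 12 : ℕ) : ℝ) ^ 2 ≤ (5 * Real.log n) ^ 2 := pow_le_pow_left₀ h0 h1 2
    _ = _ := by ring

theorem shorten_iter {N : ℕ} {K : ℝ} (hK : ∀ m ≤ N, ∀ x y : ℤ, (x, y) ≠ (0, 0) →
    |x| + |y| < m → (a m x y : ℝ) ≤ q N K * a (m - 2) x y) {x y : ℤ} (hz : (x, y) ≠ (0, 0))
    {m : ℕ} (hm : |x| + |y| ≤ m) : ∀ j : ℕ, m + 2 * j ≤ N →
    (a (m + 2 * j) x y : ℝ) ≤ q N (j * K) * a m x y := by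
  intro j
  induction j with
  | zero =>
    intro _
    have h1 := q_zero N
    simp only [mul_zero, add_zero, Nat.cast_zero, zero_mul]
    rw [h1, one_mul]
  | succ j ih =>
    intro hj
    have h1 := ih (by omega)
    have h2 := hK (m + 2 * (j + 1)) hj x y hz (by push_cast; omega)
    rw [show m + 2 * (j + 1) - 2 = m + 2 * j by omega] at h2
    calc (a (m + 2 * (j + 1)) x y : ℝ) ≤ q N K * a (m + 2 * j) x y := h2
      _ ≤ q N K * (q N (j * K) * a m x y) := mul_le_mul_of_nonneg_left h1 (q_pos _ _).le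
      _ = (q N K * q N (j * K)) * a m x y := by ring
      _ = _ := by rw [q_mul]; congr 2; push_cast; ring

theorem near_glue : ∃ K : ℝ, 0 ≤ K ∧ ∀ n : ℕ, 2 ≤ n → ∀ (L : List (ℕ × ℤ × ℤ)) (x y : ℤ),
    L.length ≤ 8 → (∀ p ∈ L, Ok p) →
    |(((L.map (fun p => p.1)).sum : ℕ) : ℤ) - n| ≤ 3 →
    |(L.map (fun p => p.2.1)).sum - x| ≤ 3 → |(L.map (fun p => p.2.2)).sum - y| ≤ 3 →
    (x, y) ≠ (0, 0) → (x + y - n) % 2 = 0 → |x| + |y| ≤ n →
    0 < a n x y ∧ (L.map lg).sum ≤ K * Real.log n ^ 2 + Real.log (a n x y) := by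
  obtain ⟨K1, hK1, -, hlow⟩ := exists_K
  obtain ⟨K2, hK2, hglue⟩ := a_glue
  obtain ⟨K3, hK3, hsh⟩ := shorten
  refine ⟨25 * (9 * K2 + (K1 + 21) + 5 * K3), by positivity, ?_⟩
  intro n hn L x y hL hok h0 h1 h2 hz hpar hle
  have hlog := log_pos' hn
  have hN : 2 ≤ n + 12 := by omega
  obtain ⟨ℓ, hℓ⟩ : ∃ ℓ, ℓ = (L.map (fun p => p.1)).sum := ⟨_, rfl⟩
  obtain ⟨X, hX⟩ : ∃ X, X = (L.map (fun p => p.2.1)).sum := ⟨_, rfl⟩
  obtain ⟨Y, hY⟩ : ∃ Y, Y = (L.map (fun p => p.2.2)).sum := ⟨_, rfl⟩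
  rw [← hℓ] at h0
  rw [← hX] at h1
  rw [← hY] at h2
  rw [abs_le] at h0 h1 h2
  obtain ⟨h0a, h0b⟩ := h0
  obtain ⟨h1a, h1b⟩ := h1
  obtain ⟨h2a, h2b⟩ := h2
  obtain ⟨r, hr⟩ : ∃ r, r = (x - X).natAbs + (y - Y).natAbs := ⟨_, rfl⟩
  have hok0 : Ok (r, x - X, y - Y) := by
    rw [hr]
    exact one_le_a_abs (x - X) (y - Y)
  have hr6 : r ≤ 6 := by omega
  have hok' : ∀ p ∈ ((r, x - X, y - Y) :: L), Ok p := by
    intro p hp
    rcases List.mem_cons.1 hp with rfl | hp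
    · exact hok0
    · exact hok p hp
  have n1 : ((((r, x - X, y - Y) : ℕ × ℤ × ℤ) :: L).map (fun p => p.1)).sum = r + ℓ := by
    rw [List.map_cons, List.sum_cons, hℓ]
  have n2 : ((((r, x - X, y - Y) : ℕ × ℤ × ℤ) :: L).map (fun p => p.2.1)).sum = x := by
    rw [List.map_cons, List.sum_cons, ← hX]
    simp only
    ring
  have n3 : ((((r, x - X, y - Y) : ℕ × ℤ × ℤ) :: L).map (fun p => p.2.2)).sum = y := by
    rw [List.map_cons, List.sum_cons, ← hY]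
    simp only
    ring
  obtain ⟨g1, g2⟩ := glue_list hN hK2 (hglue (n + 12) hN) _ ((r, x - X, y - Y) :: L) rfl hok'
    (by rw [n1]; omega) (by rw [n2, n3]; exact hz)
  rw [n1, n2, n3] at g1 g2
  rw [List.map_cons, List.sum_cons, List.length_cons] at g2
  have hlg0 := lg_nonneg hok0
  obtain ⟨m, hm⟩ : ∃ m, m = r + ℓ := ⟨_, rfl⟩
  rw [← hm] at g1 g2
  have gpar := g1.par
  have gabs := g1.abs
  simp only at gpar gabs
  have hm1 : 1 ≤ m := by
    by_contra hcon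
    apply hz
    have hx0 : x = 0 := abs_eq_zero.1 (by have := abs_nonneg x; have := abs_nonneg y; omega)
    have hy0 : y = 0 := abs_eq_zero.1 (by have := abs_nonneg x; have := abs_nonneg y; omega)
    rw [hx0, hy0]
  have hA : (0 : ℝ) < a m x y := by exact_mod_cast g1
  have hmu := one_le_mu
  have main : (a m x y : ℝ) ≤ q (n + 12) ((K1 + 21) + 5 * K3) * a n x y := by
    have hAn : (0 : ℝ) ≤ a n x y := Nat.cast_nonneg _
    rcases le_or_gt m n with hmn | hmn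
    · obtain ⟨j, hj⟩ : ∃ j : ℕ, m + 2 * j = n := ⟨(n - m) / 2, by omega⟩
      have h3 := lengthen hN hK1 (hlow (n + 12) hN) (m := m) (j := j) hm1 (by omega) x y
      rw [hj] at h3
      have h4 : 1 ≤ mu ^ (2 * j) := one_le_pow₀ hmu
      calc (a m x y : ℝ) ≤ a m x y * mu ^ (2 * j) := le_mul_of_one_le_right hA.le h4
        _ ≤ q (n + 12) (K1 + 21) * a n x y := h3
        _ ≤ _ := mul_le_mul_of_nonneg_right (q_mono hN (by linarith)) hAn
    · obtain ⟨j, hj⟩ : ∃ j : ℕ, n + 2 * j = m := ⟨(m - n) / 2, by omega⟩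
      have h3 := shorten_iter (hsh (n + 12) hN) hz hle j (by omega)
      rw [hj] at h3
      have hj5 : (j : ℝ) ≤ 5 := by exact_mod_cast (by omega : j ≤ 5)
      refine h3.trans (mul_le_mul_of_nonneg_right (q_mono hN ?_) hAn)
      nlinarith
  have hAn : (0 : ℝ) < a n x y := by
    by_contra hcon
    push Not at hcon
    have := mul_nonpos_of_nonneg_of_nonpos (q_pos (n + 12) ((K1 + 21) + 5 * K3)).le hcon
    linarith
  refine ⟨by exact_mod_cast hAn, ?_⟩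
  have h6 := Real.log_le_log hA main
  rw [Real.log_mul (q_pos _ _).ne' hAn.ne'] at h6
  have h7 : Real.log (q (n + 12) ((K1 + 21) + 5 * K3)) = ((K1 + 21) + 5 * K3) *
      Real.log ((n + 12 : ℕ) : ℝ) ^ 2 := by
    unfold q
    rw [Real.log_exp]
  have h8 := log_add_twelve hn
  have h9 : lg (m, x, y) = Real.log (a m x y) := rfl
  rw [h9] at g2
  have h10 : ((L.length + 1 : ℕ) : ℝ) ≤ 9 := by exact_mod_cast (by omega : L.length + 1 ≤ 9)
  have h11 : 0 ≤ Real.log ((n + 12 : ℕ) : ℝ) ^ 2 := sq_nonneg _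
  have h12 : ((L.length + 1 : ℕ) : ℝ) * (K2 * Real.log ((n + 12 : ℕ) : ℝ) ^ 2) ≤
      9 * (K2 * Real.log ((n + 12 : ℕ) : ℝ) ^ 2) :=
    mul_le_mul_of_nonneg_right h10 (mul_nonneg hK2 h11)
  have h13 : (9 * K2 + (K1 + 21) + 5 * K3) * Real.log ((n + 12 : ℕ) : ℝ) ^ 2 ≤
      (9 * K2 + (K1 + 21) + 5 * K3) * (25 * Real.log n ^ 2) :=
    mul_le_mul_of_nonneg_left h8 (by positivity)
  rw [h7] at h6
  nlinarith

end Pool.Agent.Y981.L2
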