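import Pool.Agent.Y981.L2.Half
import Pool.Agent.Y981.L2.Joint
import Pool.Agent.TH795.EP.Loop

/-!
Self-avoiding polygons of large width and self-avoiding words with given ends.
-/

set_option autoImplicit false

namespace Pool.Agent.Y981.L2

open Pool.Agent.TH795.EP Pool.Agent.TH795.EP2 Pool.Agent.TH795.SE2 Pool.Agent.TH262.SawL H981 Finset

/-- the loop is at least `k` wide -/
def Wd {M : ℕ} (k : ℤ) (f : ZMod M → ℤ × ℤ) : Prop := ∃ i j, k ≤ (f i).1 - (f j).1

/-! ### from loops to words -/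

theorem loop_word {M : ℕ} (hM : 2 ≤ M) {f : ZMod M → ℤ × ℤ} (hf : IsLoop M f) (j : ZMod M) :
    ∃ w : List St, Saw w ∧ w.length = M - 1 ∧ ∀ k : ℕ, k < M → path w k =
      ((f (j + (k : ZMod M))).1 - (f j).1, (f (j + (k : ZMod M))).2 - (f j).2) := by
  obtain ⟨h0, hinj, hadj⟩ := hf
  have : NeZero M := ⟨by omega⟩
  have hval : ∀ k : ℕ, k < M → ((k : ZMod M)).val = k := fun k hk => ZMod.val_cast_of_lt hk
  let g : Fin (M - 1 + 1) → ℤ × ℤ := fun k =>
    ((f (j + ((k : ℕ) : ZMod M))).1 - (f j).1, (f (j + ((k : ℕ) : ZMod M))).2 - (f j).2)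
  have hg : H981.IsSAW (M - 1) g := by
    refine ⟨?_, ?_, ?_⟩
    · simp [g]
    · intro k
      have h := hadj (j + ((k : ℕ) : ZMod M))
      have e : j + ((k : ℕ) : ZMod M) + 1 = j + (((k : ℕ) + 1 : ℕ) : ZMod M) := by
        push_cast; ring
      rw [e] at h
      simp only [g, Fin.val_succ, Fin.val_castSucc]
      rw [sub_sub_sub_cancel_right, sub_sub_sub_cancel_right]
      exact h
    · intro k l hkl
      simp only [g, Prod.mk.injEq] at hkl
      have h1 : f (j + ((k : ℕ) : ZMod M)) = f (j + ((l : ℕ) : ZMod M)) :=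
        Prod.ext (by omega) (by omega)
      have h2 := add_left_cancel (hinj h1)
      have h3 := congrArg ZMod.val h2
      rw [hval _ (by omega), hval _ (by omega)] at h3
      exact Fin.ext h3
  obtain ⟨w, hwl, hw⟩ := exists_word' _ g hg
  refine ⟨w, ?_, hwl, ?_⟩
  · rw [saw_iff _ hwl]
    have : (fun k : Fin (M - 1 + 1) => path w k) = g := funext hw
    rw [this]
    exact hg.2.2
  · intro k hk
    exact hw ⟨k, by omega⟩

/-- decoding of a loop from two arcs -/
def dec2 (M : ℕ) (j : ZMod M) (m : ℕ) (u v : List St) (k : ZMod M) : ℤ × ℤ :=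
  (if (k - j).val ≤ m then path u (k - j).val else path u m + path v ((k - j).val - m)) -
    (if (0 - j).val ≤ m then path u (0 - j).val else path u m + path v ((0 - j).val - m))

theorem loop_two {M : ℕ} (hM : 2 ≤ M) {f : ZMod M → ℤ × ℤ} (hf : IsLoop M f) {k : ℤ}
    (hk : 1 ≤ k) (hw : Wd k f) : ∃ (j : ZMod M) (m : ℕ) (u v : List St), 1 ≤ m ∧ m < M ∧ Saw u ∧
      Saw v ∧ u.length = m ∧ v.length = M - m ∧ k ≤ dx u ∧ dx v = -dx u ∧ dy v = -dy u ∧
      dec2 M j m u v = f := by
  obtain ⟨i, j, hij⟩ := hw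
  have : NeZero M := ⟨by omega⟩
  obtain ⟨wj, h1, h2, h3⟩ := loop_word hM hf j
  obtain ⟨wi, g1, g2, g3⟩ := loop_word hM hf i
  obtain ⟨m, hm⟩ : ∃ m, m = (i - j).val := ⟨_, rfl⟩
  have hmM : m < M := by rw [hm]; exact ZMod.val_lt _
  have hcast : ((m : ℕ) : ZMod M) = i - j := by rw [hm, ZMod.natCast_val, ZMod.cast_id']; rfl
  have hjm : j + (m : ZMod M) = i := by rw [hcast]; ring
  have hm1 : 1 ≤ m := by
    by_contra hcon
    have : m = 0 := by omega
    rw [this, Nat.cast_zero, add_zero] at hjm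
    rw [hjm] at hij
    omega
  have hMc : ((M : ℕ) : ZMod M) = 0 := ZMod.natCast_self M
  have him : i + ((M - m : ℕ) : ZMod M) = j := by
    rw [Nat.cast_sub hmM.le, hMc, hcast]
    ring
  have lu : (wj.take m).length = m := by rw [List.length_take]; omega
  have lv : (wi.take (M - m)).length = M - m := by rw [List.length_take]; omega
  have pu : ∀ t, t ≤ m → path (wj.take m) t =
      ((f (j + (t : ZMod M))).1 - (f j).1, (f (j + (t : ZMod M))).2 - (f j).2) := by
    intro t ht
    rw [path_take ht]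
    exact h3 t (by omega)
  have pv : ∀ t, t ≤ M - m → path (wi.take (M - m)) t =
      ((f (i + (t : ZMod M))).1 - (f i).1, (f (i + (t : ZMod M))).2 - (f i).2) := by
    intro t ht
    rw [path_take ht]
    exact g3 t (by omega)
  have du : (dx (wj.take m), dy (wj.take m)) = ((f i).1 - (f j).1, (f i).2 - (f j).2) := by
    have := pu m le_rfl
    rw [hjm] at this
    rw [← path_len, lu, this]
  have dv : (dx (wi.take (M - m)), dy (wi.take (M - m))) =
      ((f j).1 - (f i).1, (f j).2 - (f i).2) := by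
    have := pv (M - m) le_rfl
    rw [him] at this
    rw [← path_len, lv, this]
  obtain ⟨du1, du2⟩ := Prod.mk.inj du
  obtain ⟨dv1, dv2⟩ := Prod.mk.inj dv
  refine ⟨j, m, wj.take m, wi.take (M - m), hm1, hmM, h1.subw (List.take_prefix _ _).isInfix,
    g1.subw (List.take_prefix _ _).isInfix, lu, lv, by omega, by omega, by omega, ?_⟩
  -- decoding
  have hF : ∀ z : ZMod M, (if (z - j).val ≤ m then path (wj.take m) (z - j).val else
      path (wj.take m) m + path (wi.take (M - m)) ((z - j).val - m)) =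
      ((f z).1 - (f j).1, (f z).2 - (f j).2) := by
    intro z
    have hz : (((z - j).val : ℕ) : ZMod M) = z - j := by
      rw [ZMod.natCast_val, ZMod.cast_id']; rfl
    have hlt := ZMod.val_lt (z - j)
    split_ifs with h
    · rw [pu _ h, hz]
      have : j + (z - j) = z := by ring
      rw [this]
    · push Not at h
      rw [pu m le_rfl, pv _ (by omega), hjm]
      have e : i + (((z - j).val - m : ℕ) : ZMod M) = z := by
        rw [Nat.cast_sub h.le, hz, hcast]; ring
      rw [e]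
      ext <;> simp
  funext z
  unfold dec2
  rw [hF z, hF 0, hf.1]
  ext <;> simp

theorem wide_upper {M : ℕ} (hM : 2 ≤ M) {k : ℤ} (hk : 1 ≤ k) :
    {f : ZMod M → ℤ × ℤ | IsLoop M f ∧ Wd k f}.ncard ≤
      ∑ p ∈ range M ×ˢ (range M ×ˢ (Icc k M ×ˢ Icc (-(M : ℤ)) M)),
        a p.2.1 p.2.2.1 p.2.2.2 * a (M - p.2.1) (-p.2.2.1) (-p.2.2.2) := by
  classical
  have : NeZero M := ⟨by omega⟩
  unfold a
  have e : ∀ p : ℕ × (ℕ × (ℤ × ℤ)),
      (fs (fun w => Saw w ∧ dx w = p.2.2.1 ∧ dy w = p.2.2.2) p.2.1).card *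
      (fs (fun w => Saw w ∧ dx w = -p.2.2.1 ∧ dy w = -p.2.2.2) (M - p.2.1)).card =
      (fs (fun w => Saw w ∧ dx w = p.2.2.1 ∧ dy w = p.2.2.2) p.2.1 ×ˢ
      fs (fun w => Saw w ∧ dx w = -p.2.2.1 ∧ dy w = -p.2.2.2) (M - p.2.1)).card := by
    intro p
    rw [Finset.card_product]
  simp only [e]
  rw [← Finset.card_sigma]
  refine le_trans ?_ (Finset.card_image_le (f := fun q => dec2 M ((q.1.1 : ℕ) : ZMod M) q.1.2.1
    q.2.1 q.2.2))
  rw [← Set.ncard_coe_finset]
  apply Set.ncard_le_ncard _ (Finset.finite_toSet _)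
  rintro f ⟨hf, hw⟩
  obtain ⟨j, m, u, v, hm1, hmM, hu, hv, hul, hvl, hku, hx, hy, hdec⟩ := loop_two hM hf hk hw
  rw [Finset.mem_coe, Finset.mem_image]
  refine ⟨⟨(j.val, (m, (dx u, dy u))), (u, v)⟩, ?_, ?_⟩
  · rw [Finset.mem_sigma]
    simp only [Finset.mem_product, Finset.mem_range, Finset.mem_Icc, mem_fs]
    have h1 := abs_add_abs_le u
    have h2 := abs_le.1 (le_trans (le_add_of_nonneg_right (abs_nonneg (dy u))) h1)
    have h3 := abs_le.1 (le_trans (le_add_of_nonneg_left (abs_nonneg (dx u))) h1)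
    have h4 : (u.length : ℤ) ≤ M := by exact_mod_cast (by omega : u.length ≤ M)
    exact ⟨⟨ZMod.val_lt _, hmM, ⟨hku, by omega⟩, by omega, by omega⟩,
      ⟨⟨hu, trivial, trivial⟩, hul⟩, ⟨hv, hx, hy⟩, hvl⟩
  · simp only
    rw [ZMod.natCast_zmod_val]
    exact hdec

/-! ### from words to loops -/

theorem loop_of {M : ℕ} (hM : 2 ≤ M) {W : List St} (hl : W.length = M) (hx : dx W = 0)
    (hy : dy W = 0) (hinj : ∀ i j, i < j → j < M → path W i ≠ path W j) :
    IsLoop M (fun i : ZMod M => path W i.val) := by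
  have : NeZero M := ⟨by omega⟩
  have : Fact (1 < M) := ⟨by omega⟩
  refine ⟨by simp [path], ?_, ?_⟩
  · intro i j hij
    simp only at hij
    apply ZMod.val_injective
    by_contra hne
    rcases Nat.lt_or_gt_of_ne hne with h | h
    · exact hinj _ _ h (ZMod.val_lt _) hij
    · exact hinj _ _ h (ZMod.val_lt _) hij.symm
  · intro i
    have hi := ZMod.val_lt i
    have hs := path_succ (w := W) (i := i.val) (by omega)
    have key : path W (i + 1).val = path W (i.val + 1) := by
      rcases Nat.lt_or_ge (i.val + 1) M with h | h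
      · rw [ZMod.val_add_of_lt (by rw [ZMod.val_one]; exact h), ZMod.val_one]
      · have h1 : i.val + 1 = M := by omega
        have h2 : i + 1 = 0 := by
          have h3 : ((i.val + 1 : ℕ) : ZMod M) = 0 := by rw [h1]; exact ZMod.natCast_self M
          push_cast at h3
          rwa [ZMod.natCast_zmod_val] at h3
        rw [h2, ZMod.val_zero, h1, ← hl, path_len, hx, hy]
        exact path_zero W
    simp only
    rw [key]
    obtain ⟨h1, h2⟩ := hs
    rw [h1, h2]
    have e1 : (path W i.val).1 + (W[i.val]'(by omega)).x - (path W i.val).1 =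
      (W[i.val]'(by omega)).x := by ring
    have e2 : (path W i.val).2 + (W[i.val]'(by omega)).y - (path W i.val).2 =
      (W[i.val]'(by omega)).y := by ring
    rw [e1, e2]
    cases (W[i.val]'(by omega)) <;> simp

theorem path_rot (t : List St) (k : ℕ) :
    path (ng (sg t)) k = (-(path t k).1, -(path t k).2) := by
  have h1 : (ng (sg t)).take k = ng (sg (t.take k)) := by
    unfold ng sg
    rw [← List.map_take, ← List.map_take]
  unfold path
  rw [h1, dx_ng, dy_ng, dx_sg, dy_sg]

theorem word_ext {u v : List St} (hl : u.length = v.length)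
    (h : ∀ k ≤ u.length, path u k = path v k) : u = v := by
  apply ew_injOn u.length rfl hl.symm
  funext i
  exact h i (by omega)

/-- two arches make a loop -/
theorem wide_lower {m1 m2 : ℕ} {x : ℤ} :
    la m1 x 0 * la m2 x 0 ≤
      {f : ZMod (m1 + m2 + 2) → ℤ × ℤ | IsLoop (m1 + m2 + 2) f ∧ Wd x f}.ncard := by
  classical
  obtain ⟨M, hM⟩ : ∃ M, M = m1 + m2 + 2 := ⟨_, rfl⟩
  rw [← hM]
  have : NeZero M := ⟨by omega⟩
  have hval : ∀ k : ℕ, k < M → ((k : ZMod M)).val = k := fun k hk => ZMod.val_cast_of_lt hk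
  obtain ⟨φ, hφ⟩ : ∃ φ : List St × List St → (ZMod M → ℤ × ℤ), ∀ z i,
      φ z i = path (z.1 ++ (St.N :: (ng (sg z.2) ++ [St.S]))) i.val := ⟨_, fun _ _ => rfl⟩
  have hfin : {f : ZMod M → ℤ × ℤ | IsLoop M f ∧ Wd x f}.Finite := by
    apply Set.Finite.subset _ (s := {f : ZMod M → ℤ × ℤ | IsLoop M f})
      (fun f hf => hf.1)
    apply Set.Finite.subset (Set.Finite.image (fun (w : List St) => fun i : ZMod M => path w i.val)
      (fin_words Saw (M - 1)))
    intro f hf
    obtain ⟨w, h1, h2, h3⟩ := loop_word (by omega) hf 0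
    refine ⟨w, ⟨h1, h2⟩, ?_⟩
    funext i
    simp only
    rw [h3 _ (ZMod.val_lt i), ZMod.natCast_zmod_val, zero_add, hf.1]
    simp
  unfold la
  rw [← Finset.card_product]
  -- the four kinds of positions
  have p1 : ∀ z : List St × List St, z.1.length = m1 → ∀ k ≤ m1,
      path (z.1 ++ (St.N :: (ng (sg z.2) ++ [St.S]))) k = path z.1 k := by
    intro z hz k hk
    exact path_append_left (by omega)
  have p2 : ∀ z : List St × List St, z.1.length = m1 → z.2.length = m2 → ∀ l ≤ m2,
      path (z.1 ++ (St.N :: (ng (sg z.2) ++ [St.S]))) (m1 + (l + 1)) =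
        (dx z.1 - (path z.2 l).1, dy z.1 + 1 - (path z.2 l).2) := by
    intro z hz1 hz2 l hl
    have h1 := path_append_right z.1 (St.N :: (ng (sg z.2) ++ [St.S])) (l + 1)
    rw [hz1] at h1
    have h2 : l ≤ (ng (sg z.2)).length := by rw [length_ng, length_sg]; omega
    rw [h1, path_cons_succ, path_append_left h2, path_rot]
    simp only [St.x_N, St.y_N, Prod.mk.injEq]
    constructor <;> ring
  have hcard : ((fs (fun w => (Saw w ∧ dx w = x ∧ dy w = 0) ∧ Lo w) m1 ×ˢ
      fs (fun w => (Saw w ∧ dx w = x ∧ dy w = 0) ∧ Lo w) m2).image φ).card =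
      (fs (fun w => (Saw w ∧ dx w = x ∧ dy w = 0) ∧ Lo w) m1 ×ˢ
      fs (fun w => (Saw w ∧ dx w = x ∧ dy w = 0) ∧ Lo w) m2).card := by
    apply Finset.card_image_of_injOn
    rintro ⟨u, v⟩ h1 ⟨u', v'⟩ h2 heq
    rw [Finset.mem_coe, Finset.mem_product, mem_fs, mem_fs] at h1 h2
    obtain ⟨⟨⟨⟨hu, hux, huy⟩, hulo⟩, hul⟩, ⟨⟨hv, hvx, hvy⟩, hvlo⟩, hvl⟩ := h1
    obtain ⟨⟨⟨⟨hu', hux', huy'⟩, hulo'⟩, hul'⟩, ⟨⟨hv', hvx', hvy'⟩, hvlo'⟩, hvl'⟩ := h2
    simp only at hu hux huy hulo hul hv hvx hvy hvlo hvl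
    simp only at hu' hux' huy' hulo' hul' hv' hvx' hvy' hvlo' hvl'
    have hk : ∀ k, k < M → path (u ++ (St.N :: (ng (sg v) ++ [St.S]))) k =
        path (u' ++ (St.N :: (ng (sg v') ++ [St.S]))) k := by
      intro k hk
      have := congrFun heq (k : ZMod M)
      rw [hφ, hφ, hval k hk] at this
      exact this
    have e1 : u = u' := by
      apply word_ext (by omega)
      intro k hk'
      have g1 := hk k (by omega)
      have g2 := p1 (u, v) hul k (by omega)
      have g3 := p1 (u', v') hul' k (by omega)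
      simp only at g2 g3
      rw [g2, g3] at g1
      exact g1
    have e2 : v = v' := by
      apply word_ext (by omega)
      intro l hl'
      have g1 := hk (m1 + (l + 1)) (by omega)
      have g2 := p2 (u, v) hul hvl l (by omega)
      have g3 := p2 (u', v') hul' hvl' l (by omega)
      simp only at g2 g3
      rw [g2, g3, hux, hux', huy, huy'] at g1
      obtain ⟨g4, g5⟩ := Prod.mk.inj g1
      exact Prod.ext (by omega) (by omega)
    rw [e1, e2]
  rw [← hcard, ← Set.ncard_coe_finset]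
  apply Set.ncard_le_ncard _ hfin
  intro f hf
  rw [Finset.mem_coe, Finset.mem_image] at hf
  obtain ⟨⟨u, v⟩, h1, rfl⟩ := hf
  rw [Finset.mem_product, mem_fs, mem_fs] at h1
  obtain ⟨⟨⟨⟨hu, hux, huy⟩, hulo⟩, hul⟩, ⟨⟨hv, hvx, hvy⟩, hvlo⟩, hvl⟩ := h1
  simp only at hu hux huy hulo hul hv hvx hvy hvlo hvl
  have q1 := p1 (u, v) hul
  have q2 := p2 (u, v) hul hvl
  simp only at q1 q2
  obtain ⟨W, hW⟩ : ∃ W, W = u ++ (St.N :: (ng (sg v) ++ [St.S])) := ⟨_, rfl⟩
  rw [← hW] at q1 q2
  have hWl : W.length = M := by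
    rw [hW]
    simp only [List.length_append, List.length_cons, length_ng, length_sg, List.length_nil]
    omega
  have hfun : φ (u, v) = fun i : ZMod M => path W i.val := by
    funext i
    rw [hφ, hW]
  refine ⟨?_, ?_⟩
  · rw [hfun]
    apply loop_of (by omega) hWl
    · rw [hW, dx_append, dx_cons, dx_append, dx_ng, dx_sg]
      simp only [dx_cons, dx_nil, St.x_N, St.x_S]
      omega
    · rw [hW, dy_append, dy_cons, dy_append, dy_ng, dy_sg]
      simp only [dy_cons, dy_nil, St.y_N, St.y_S]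
      omega
    · intro i j hij hj
      rcases Nat.lt_or_ge m1 j with h2 | h2
      · obtain ⟨l, rfl⟩ : ∃ l, j = m1 + (l + 1) := ⟨j - m1 - 1, by omega⟩
        rw [q2 l (by omega)]
        rcases Nat.lt_or_ge m1 i with h3 | h3
        · obtain ⟨l', rfl⟩ : ∃ l', i = m1 + (l' + 1) := ⟨i - m1 - 1, by omega⟩
          rw [q2 l' (by omega)]
          intro he
          obtain ⟨e1, e2⟩ := Prod.mk.inj he
          exact saw_iff'.1 hv l' l (by omega) (by omega) (Prod.ext (by omega) (by omega))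
        · rw [q1 i h3]
          intro he
          have e2 := congrArg Prod.snd he
          simp only at e2
          have := hulo i
          have := hvlo l
          omega
      · rw [q1 i (by omega), q1 j h2]
        exact saw_iff'.1 hu i j hij (by omega)
  · refine ⟨(m1 : ZMod M), 0, ?_⟩
    rw [hfun]
    simp only
    rw [hval m1 (by omega), ZMod.val_zero, q1 m1 le_rfl, q1 0 (Nat.zero_le _), path_zero]
    have : path u m1 = (dx u, dy u) := by rw [← hul]; exact path_len u
    rw [this, hux]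
    simp

end Pool.Agent.Y981.L2
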