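import Pool.Agent.Y981.L2.Ldp2

/-!
The free energy of the self-avoiding walk pulled in the horizontal direction and its rate function.
-/

set_option autoImplicit false

namespace Pool.Agent.Y981.L2

open Pool.Agent.TH795.EP Pool.Agent.TH795.EP2 Pool.Agent.TH795.SE2 Pool.Agent.TH262.SawL H981 Finset

/-! ### symmetries -/

theorem Z_sg (h : ℝ × ℝ) (n : ℕ) : Z (-h.1, h.2) n = Z h n := by
  rw [Z_eq, Z_eq]
  apply Finset.sum_nbij' (fun z => (-z.1, z.2)) (fun z => (-z.1, z.2))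
  · intro z hz
    unfold Bx at hz ⊢
    rw [Finset.mem_product, Finset.mem_Icc, Finset.mem_Icc] at hz ⊢
    simp only
    omega
  · intro z hz
    unfold Bx at hz ⊢
    rw [Finset.mem_product, Finset.mem_Icc, Finset.mem_Icc] at hz ⊢
    simp only
    omega
  · intro z _
    simp
  · intro z _
    simp
  · intro z _
    simp only
    rw [a_sg]
    push_cast
    congr 2
    ring

theorem Z_ng (h : ℝ × ℝ) (n : ℕ) : Z (h.1, -h.2) n = Z h n := by
  rw [Z_eq, Z_eq]
  apply Finset.sum_nbij' (fun z => (z.1, -z.2)) (fun z => (z.1, -z.2))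
  · intro z hz
    unfold Bx at hz ⊢
    rw [Finset.mem_product, Finset.mem_Icc, Finset.mem_Icc] at hz ⊢
    simp only
    omega
  · intro z hz
    unfold Bx at hz ⊢
    rw [Finset.mem_product, Finset.mem_Icc, Finset.mem_Icc] at hz ⊢
    simp only
    omega
  · intro z _
    simp
  · intro z _
    simp
  · intro z _
    simp only
    rw [a_ng]
    push_cast
    congr 2
    ring

theorem Lam_tendsto (h : ℝ × ℝ) : Filter.Tendsto (fun n : ℕ => Real.log (Z h n) / n)
    Filter.atTop (nhds (Lam h + Real.log mu)) := by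
  have := (sub_Z h).tendsto_lim (bdd_Z h)
  unfold Lam
  rw [sub_add_cancel]
  exact this

theorem Lam_sg (h : ℝ × ℝ) : Lam (-h.1, h.2) = Lam h := by
  have h1 := Lam_tendsto (-h.1, h.2)
  simp only [Z_sg] at h1
  have h2 := tendsto_nhds_unique h1 (Lam_tendsto h)
  linarith

theorem Lam_ng (h : ℝ × ℝ) : Lam (h.1, -h.2) = Lam h := by
  have h1 := Lam_tendsto (h.1, -h.2)
  simp only [Z_ng] at h1
  have h2 := tendsto_nhds_unique h1 (Lam_tendsto h)
  linarith

/-! ### monotonicity -/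

theorem Z_cosh (h : ℝ) (n : ℕ) :
    Z (h, 0) n = ∑ z ∈ Bx n, (a n z.1 z.2 : ℝ) * Real.cosh (h * z.1) := by
  have h1 := Z_sg (h, 0) n
  have h2 : Z (h, 0) n + Z (h, 0) n =
      ∑ z ∈ Bx n, (a n z.1 z.2 : ℝ) * Real.cosh (h * z.1) +
      ∑ z ∈ Bx n, (a n z.1 z.2 : ℝ) * Real.cosh (h * z.1) := by
    conv_lhs => lhs; rw [← h1]
    rw [Z_eq, Z_eq, ← Finset.sum_add_distrib, ← Finset.sum_add_distrib]
    apply Finset.sum_congr rfl
    intro z _
    simp only [zero_mul, add_zero]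
    rw [Real.cosh_eq]
    rw [show -h * (z.1 : ℝ) = -(h * z.1) by ring]
    ring
  linarith

theorem Z_mono {h h' : ℝ} (h0 : 0 ≤ h) (hh : h ≤ h') (n : ℕ) : Z (h, 0) n ≤ Z (h', 0) n := by
  rw [Z_cosh, Z_cosh]
  apply Finset.sum_le_sum
  intro z _
  apply mul_le_mul_of_nonneg_left _ (Nat.cast_nonneg _)
  rw [Real.cosh_le_cosh, abs_mul, abs_mul, abs_of_nonneg h0, abs_of_nonneg (h0.trans hh)]
  exact mul_le_mul_of_nonneg_right hh (abs_nonneg _)

/-- the excess free energy for a horizontal force -/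
noncomputable def psi (h : ℝ) : ℝ := Lam (h, 0)

theorem psi_mono {h h' : ℝ} (h0 : 0 ≤ h) (hh : h ≤ h') : psi h ≤ psi h' := by
  have h1 := Lam_tendsto (h, 0)
  have h2 := Lam_tendsto (h', 0)
  have h3 := le_of_tendsto_of_tendsto' h1 h2 (fun n => by
    apply div_le_div_of_nonneg_right _ (Nat.cast_nonneg _)
    exact Real.log_le_log (Z_pos _ _) (Z_mono h0 hh n))
  unfold psi
  linarith

theorem psi_nonneg (h : ℝ) : 0 ≤ psi h := Lam_nonneg _

theorem le_psi (h : ℝ) : h - Real.log mu ≤ psi h := by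
  have := (abs_le_Lam (h, 0)).1
  simp only at this
  have h2 := le_abs_self h
  unfold psi
  linarith

/-- logarithms are small -/
theorem le_of_log {t s C : ℝ} (h : ∀ n : ℕ, 2 ≤ n → (n : ℝ) * t ≤ n * s + C * Real.log n ^ 2) :
    t ≤ s := by
  have h1 : Filter.Tendsto (fun n : ℕ => C * (Real.log n ^ 2 / n)) Filter.atTop (nhds (C * 0)) := by
    apply Filter.Tendsto.const_mul
    have h2 : Filter.Tendsto (fun x : ℝ => Real.log x ^ 2 / x) Filter.atTop (nhds 0) :=
      (Real.isLittleO_pow_log_id_atTop (n := 2)).tendsto_div_nhds_zero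
    exact h2.comp tendsto_natCast_atTop_atTop
  rw [mul_zero] at h1
  have h3 : Filter.Tendsto (fun n : ℕ => s + C * (Real.log n ^ 2 / n)) Filter.atTop
      (nhds (s + 0)) := h1.const_add s
  rw [add_zero] at h3
  apply ge_of_tendsto h3
  filter_upwards [Filter.eventually_ge_atTop 2] with n hn
  have hn0 : (0 : ℝ) < n := by exact_mod_cast (by omega : 0 < n)
  have h4 := h n hn
  have h5 : (n : ℝ) * (s + C * (Real.log n ^ 2 / n)) = n * s + C * Real.log n ^ 2 := by
    field_simp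
  rw [← h5] at h4
  exact le_of_mul_le_mul_left h4 hn0

theorem psi_zero : psi 0 = 0 := by
  apply le_antisymm _ (psi_nonneg 0)
  obtain ⟨K, hK, hup, -⟩ := exists_K
  apply le_of_log (C := 2 * K)
  intro n hn
  have h1 := Lam_le (0, 0) (n := n) (by omega)
  have h2 : Z (0, 0) n = c n := by
    unfold Z c
    simp
  rw [h2] at h1
  have hc := c_pos n
  have hmu := mu_pos
  have hc2 : Real.log (c n) ≤ n * Real.log mu + K * Real.log n ^ 2 := by
    have h2 := Real.log_le_log hc (hup n hn n le_rfl)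
    rw [Real.log_mul (pow_pos hmu n).ne' (q_pos _ _).ne', Real.log_pow] at h2
    have h3 : Real.log (q n K) = K * Real.log n ^ 2 := by unfold q; rw [Real.log_exp]
    rwa [h3] at h2
  have h4 := mul_le_mul_of_nonneg_left (pow_le_four hn).1 hK
  unfold psi
  nlinarith

/-! ### the rate function in the horizontal direction -/

noncomputable def R (v : ℝ) : ℝ := Rate (v, 0)

theorem dia_one {v : ℝ} (h0 : 0 ≤ v) (h1 : v ≤ 1) : ((v, 0) : ℝ × ℝ) ∈ Dia := by
  show |v| + |(0 : ℝ)| ≤ 1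
  rw [abs_zero, add_zero, abs_of_nonneg h0]
  exact h1

theorem R_nonneg {v : ℝ} (h0 : 0 ≤ v) (h1 : v ≤ 1) : 0 ≤ R v := by
  have h2 := le_rate (dia_one h0 h1) (0, 0)
  have h3 : Lam (0, 0) = 0 := psi_zero
  rw [h3] at h2
  simpa [R] using h2

theorem R_zero : R 0 = 0 := by
  apply le_antisymm _ (R_nonneg le_rfl zero_le_one)
  apply ciSup_le
  intro h
  have := Lam_nonneg h
  simp only [mul_zero]
  linarith

theorem R_le {v : ℝ} (h0 : 0 ≤ v) (h1 : v ≤ 1) : R v ≤ Real.log mu := rate_le (dia_one h0 h1)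

/-- duality, the trivial half -/
theorem young {v : ℝ} (h0 : 0 ≤ v) (h1 : v ≤ 1) (h : ℝ) : h * v ≤ R v + psi h := by
  have h2 := le_rate (dia_one h0 h1) (h, 0)
  simp only [zero_mul, add_zero] at h2
  unfold R psi
  linarith

theorem R_smul {v t : ℝ} (h0 : 0 ≤ v) (h1 : v ≤ 1) (ht0 : 0 ≤ t) (ht1 : t ≤ 1) :
    R (t * v) ≤ t * R v := by
  have h2 := convex_rate.2 (dia_one h0 h1) (dia_one le_rfl zero_le_one) ht0
    (by linarith : 0 ≤ 1 - t) (by ring)
  have e : t • ((v, 0) : ℝ × ℝ) + (1 - t) • ((0, 0) : ℝ × ℝ) = (t * v, 0) := by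
    ext <;> simp
  rw [e] at h2
  have h3 : Rate (0, 0) = 0 := R_zero
  rw [h3] at h2
  simpa [R] using h2

theorem R_le_rate {v : ℝ × ℝ} (hv : v ∈ Dia) : R |v.1| ≤ Rate v := by
  apply ciSup_le
  intro h
  simp only [mul_zero, add_zero]
  -- choose the signs
  obtain ⟨s, hs, hs2⟩ : ∃ s : ℝ, (s = 1 ∨ s = -1) ∧ |v.1| = s * v.1 := by
    rcases abs_cases v.1 with ⟨h1, _⟩ | ⟨h1, _⟩
    · exact ⟨1, Or.inl rfl, by rw [h1]; ring⟩
    · exact ⟨-1, Or.inr rfl, by rw [h1]; ring⟩
  obtain ⟨t, ht, ht2⟩ : ∃ t : ℝ, (t = 1 ∨ t = -1) ∧ 0 ≤ t * (h.2 * v.2) := by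
    rcases le_total 0 (h.2 * v.2) with h1 | h1
    · exact ⟨1, Or.inl rfl, by linarith⟩
    · exact ⟨-1, Or.inr rfl, by linarith⟩
  have h2 := le_rate hv (s * h.1, t * h.2)
  simp only at h2
  have h3 : Lam (s * h.1, t * h.2) = Lam h := by
    have e1 : Lam (s * h.1, t * h.2) = Lam (h.1, t * h.2) := by
      rcases hs with rfl | rfl
      · rw [one_mul]
      · have := Lam_sg (h.1, t * h.2)
        simp only at this
        rw [neg_one_mul, this]
    rw [e1]
    rcases ht with rfl | rfl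
    · rw [one_mul]
    · have := Lam_ng h
      rw [neg_one_mul, this]
  rw [h3] at h2
  rw [hs2]
  nlinarith

theorem R_mono {v v' : ℝ} (h0 : 0 ≤ v) (hv : v ≤ v') (h1 : v' ≤ 1) : R v ≤ R v' := by
  apply ciSup_le
  intro h
  simp only [mul_zero, add_zero]
  have h2 := le_rate (dia_one (h0.trans hv) h1) (|h.1|, h.2)
  simp only [mul_zero, add_zero] at h2
  have h3 : Lam (|h.1|, h.2) = Lam h := by
    rcases abs_cases h.1 with ⟨h1, _⟩ | ⟨h1, _⟩
    · rw [h1]
    · rw [h1, Lam_sg]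
  rw [h3] at h2
  have h4 : h.1 * v ≤ |h.1| * v' := by
    calc h.1 * v ≤ |h.1| * v := mul_le_mul_of_nonneg_right (le_abs_self _) h0
      _ ≤ _ := mul_le_mul_of_nonneg_left hv (abs_nonneg _)
  unfold R
  linarith

/-- no walk returns to the origin -/
theorem a_origin {n : ℕ} (hn : 1 ≤ n) : a n 0 0 = 0 := by
  by_contra hcon
  obtain ⟨w, hw, hx, hy, hl⟩ := exists_of_a (Nat.pos_of_ne_zero hcon)
  have h1 := one_le_nq hw (by rintro rfl; simp at hl; omega)
  unfold nq at h1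
  rw [hx, hy] at h1
  simp at h1

/-- upper bound for the number of walks to a point -/
theorem a_le : ∃ K : ℝ, 0 ≤ K ∧ ∀ n : ℕ, 2 ≤ n → ∀ x y : ℤ, 0 < a n x y →
    Real.log (a n x y) ≤ n * Real.log mu - n * Rate ((x : ℝ) / n, (y : ℝ) / n) +
      K * Real.log n ^ 2 := by
  obtain ⟨K3, hK3, hZ⟩ := Z_le
  refine ⟨2 * K3, by positivity, ?_⟩
  intro n hn x y ha1
  have hn0 : (0 : ℝ) < n := by exact_mod_cast (by omega : 0 < n)
  have ha : (0 : ℝ) < a n x y := by exact_mod_cast ha1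
  have h1 : Rate ((x : ℝ) / n, (y : ℝ) / n) ≤
      (n * Real.log mu + K3 * Real.log n ^ 2 - Real.log (a n x y)) / n := by
    apply ciSup_le
    intro h
    rw [le_div_iff₀ hn0]
    simp only
    have h2 := Real.log_le_log (mul_pos ha (Real.exp_pos _)) (term_le_Z h n x y)
    rw [Real.log_mul ha.ne' (Real.exp_pos _).ne', Real.log_exp] at h2
    have h3 := hZ n hn h
    have e : (h.1 * ((x : ℝ) / n) + h.2 * ((y : ℝ) / n) - Lam h) * n =
        h.1 * x + h.2 * y - n * Lam h := by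
      field_simp
    rw [e]
    linarith
  rw [le_div_iff₀ hn0] at h1
  have h4 := mul_le_mul_of_nonneg_left (pow_le_four hn).1 hK3
  nlinarith

/-- duality, the other half -/
theorem psi_le {h s : ℝ} (h0 : 0 ≤ h) (hs : ∀ v : ℝ, 0 ≤ v → v ≤ 1 → h * v - R v ≤ s) :
    psi h ≤ s := by
  obtain ⟨K, hK, ha⟩ := a_le
  have hs0 : 0 ≤ s := by
    have := hs 0 le_rfl zero_le_one
    rw [R_zero] at this
    simpa using this
  apply le_of_log (C := K + 24)
  intro n hn
  have hn0 : (0 : ℝ) < n := by exact_mod_cast (by omega : 0 < n)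
  have hlog := log_pos' hn
  have hmu := mu_pos
  have h1 := Lam_le (h, 0) (n := n) (by omega)
  have hterm : ∀ z ∈ Bx n, (a n z.1 z.2 : ℝ) * Real.exp (h * z.1 + 0 * z.2) ≤
      Real.exp (n * Real.log mu + n * s + K * Real.log n ^ 2) := by
    intro z _
    rcases Nat.eq_zero_or_pos (a n z.1 z.2) with h0' | hpos
    · rw [h0']
      simp only [Nat.cast_zero, zero_mul]
      exact (Real.exp_pos _).le
    · have h2 := ha n hn z.1 z.2 hpos
      have h3 : (0 : ℝ) < a n z.1 z.2 := by exact_mod_cast hpos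
      obtain ⟨w, hw, hx, hy, hl⟩ := exists_of_a hpos
      have h4 := abs_add_abs_le w
      rw [hx, hy, hl] at h4
      have hv : (((z.1 : ℝ) / n, (z.2 : ℝ) / n) : ℝ × ℝ) ∈ Dia := by
        show |(z.1 : ℝ) / n| + |(z.2 : ℝ) / n| ≤ 1
        rw [abs_div, abs_div, abs_of_pos hn0, ← add_div, div_le_one hn0]
        exact_mod_cast h4
      have h5 := R_le_rate hv
      simp only at h5
      have h6 : |(z.1 : ℝ) / n| ≤ 1 := by
        have h7 : |(z.1 : ℝ) / n| + |(z.2 : ℝ) / n| ≤ 1 := hv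
        have := abs_nonneg ((z.2 : ℝ) / n)
        linarith
      have h7 := hs _ (abs_nonneg _) h6
      have h8 : h * z.1 ≤ n * (h * |(z.1 : ℝ) / n|) := by
        rw [abs_div, abs_of_pos hn0]
        have e : (n : ℝ) * (h * (|(z.1 : ℝ)| / n)) = h * |(z.1 : ℝ)| := by field_simp
        rw [e]
        exact mul_le_mul_of_nonneg_left (le_abs_self _) h0
      rw [← Real.exp_log h3, ← Real.exp_add]
      apply Real.exp_le_exp.2
      nlinarith
  have hsum := Finset.sum_le_card_nsmul _ _ _ hterm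
  have e : Z (h, 0) n = ∑ z ∈ Bx n, (a n z.1 z.2 : ℝ) * Real.exp (h * z.1 + 0 * z.2) := Z_eq _ _
  rw [← e, card_Bx, nsmul_eq_mul] at hsum
  have h9 := Real.log_le_log (Z_pos _ _) hsum
  rw [Real.log_mul (by positivity) (Real.exp_pos _).ne', Real.log_exp] at h9
  push_cast at h9
  rw [Real.log_pow] at h9
  push_cast at h9
  have h10 := log_two_n hn
  have h11 := (pow_le_four hn).2
  unfold psi
  nlinarith

end Pool.Agent.Y981.L2
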