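import Pool.Agent.Y981.L2.Pieces

/-!
Shortening by two steps.
-/

set_option autoImplicit false

namespace Pool.Agent.Y981.L2

open Pool.Agent.TH795.EP Pool.Agent.TH795.EP2 Pool.Agent.TH795.SE2 Pool.Agent.TH262.SawL H981 Finset

/-- the opposite step -/
def opp : St → St
  | St.E => St.W
  | St.W => St.E
  | St.N => St.S
  | St.S => St.N

theorem opp_x (s : St) : (opp s).x = -s.x := by cases s <;> rfl
theorem opp_y (s : St) : (opp s).y = -s.y := by cases s <;> rfl
theorem opp_opp (s : St) : opp (opp s) = s := by cases s <;> rfl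

theorem straight {σ τ : ℤ} (w : List St) (h : ∀ s ∈ w, σ * s.x + τ * s.y = 1) :
    σ * dx w + τ * dy w = w.length := by
  induction w with
  | nil => simp
  | cons s w ih =>
    have h1 := h s (by simp)
    have h2 := ih (fun t ht => h t (List.mem_cons_of_mem _ ht))
    rw [dx_cons, dy_cons, List.length_cons]
    push_cast
    linarith

theorem exists_opp {w : List St} (h : |dx w| + |dy w| < w.length) :
    ∃ s : St, s ∈ w ∧ opp s ∈ w := by
  by_contra hcon
  push Not at hcon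
  have hE := hcon St.E
  have hN := hcon St.N
  simp only [opp] at hE hN
  obtain ⟨σ, hσ, hσ'⟩ : ∃ σ : ℤ, (σ = 1 ∨ σ = -1) ∧ ∀ s ∈ w, s.x ≠ 0 → s.x = σ := by
    by_cases h1 : St.E ∈ w
    · refine ⟨1, Or.inl rfl, ?_⟩
      intro s hs h0
      have h2 := hE h1
      cases s
      · rfl
      · exact absurd hs h2
      · simp at h0
      · simp at h0
    · refine ⟨-1, Or.inr rfl, ?_⟩
      intro s hs h0
      cases s
      · exact absurd hs h1
      · rfl
      · simp at h0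
      · simp at h0
  obtain ⟨τ, hτ, hτ'⟩ : ∃ τ : ℤ, (τ = 1 ∨ τ = -1) ∧ ∀ s ∈ w, s.y ≠ 0 → s.y = τ := by
    by_cases h1 : St.N ∈ w
    · refine ⟨1, Or.inl rfl, ?_⟩
      intro s hs h0
      have h2 := hN h1
      cases s
      · simp at h0
      · simp at h0
      · rfl
      · exact absurd hs h2
    · refine ⟨-1, Or.inr rfl, ?_⟩
      intro s hs h0
      cases s
      · simp at h0
      · simp at h0
      · exact absurd hs h1
      · rfl
  have h3 := straight (σ := σ) (τ := τ) w (by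
    intro s hs
    have g1 := hσ' s hs
    have g2 := hτ' s hs
    rcases hσ with rfl | rfl <;> rcases hτ with rfl | rfl <;> cases s <;> simp at g1 g2 ⊢)
  have h4 : σ * dx w ≤ |dx w| := by
    rcases hσ with rfl | rfl
    · rw [one_mul]; exact le_abs_self _
    · rw [neg_one_mul]; exact neg_le_abs _
  have h5 : τ * dy w ≤ |dy w| := by
    rcases hτ with rfl | rfl
    · rw [one_mul]; exact le_abs_self _
    · rw [neg_one_mul]; exact neg_le_abs _
  omega

theorem exists_split {w : List St} (h : |dx w| + |dy w| < w.length) :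
    ∃ (u1 u2 u3 : List St) (s : St), w = u1 ++ (s :: (u2 ++ (opp s :: u3))) := by
  obtain ⟨s, h1, h2⟩ := exists_opp h
  obtain ⟨i, hi, hi'⟩ := List.mem_iff_getElem.1 h1
  obtain ⟨j, hj, hj'⟩ := List.mem_iff_getElem.1 h2
  have key : ∀ (i j : ℕ) (s : St) (hi : i < w.length) (hj : j < w.length), i < j →
      w[i] = s → w[j] = opp s → ∃ (u1 u2 u3 : List St) (s : St),
      w = u1 ++ (s :: (u2 ++ (opp s :: u3))) := by
    intro i j s hi hj hij h1 h2
    refine ⟨w.take i, (w.drop (i + 1)).take (j - i - 1), w.drop (j + 1), s, ?_⟩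
    have e1 : w = w.take i ++ w.drop i := (List.take_append_drop i w).symm
    have e2 : w.drop i = w[i] :: w.drop (i + 1) := List.drop_eq_getElem_cons hi
    have e3 : w.drop (i + 1) = (w.drop (i + 1)).take (j - i - 1) ++
        (w.drop (i + 1)).drop (j - i - 1) := (List.take_append_drop _ _).symm
    have e4 : (w.drop (i + 1)).drop (j - i - 1) = w.drop j := by
      rw [List.drop_drop]; congr 1; omega
    have e5 : w.drop j = w[j] :: w.drop (j + 1) := List.drop_eq_getElem_cons hj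
    rw [e4, e5, h2] at e3
    rw [h1] at e2
    conv_lhs => rw [e1, e2, e3]
  have hne : i ≠ j := by
    rintro rfl
    have : s = opp s := hi'.symm.trans hj'
    revert this
    cases s <;> simp [opp]
  rcases Nat.lt_or_gt_of_ne hne with h3 | h3
  · exact key i j s hi hj h3 hi' hj'
  · exact key j i (opp s) hj hi h3 hj' (by rw [opp_opp]; exact hi')

theorem short_card (n : ℕ) (x y : ℤ) (h : |x| + |y| < n) :
    a n x y ≤ ∑ p ∈ (((range n ×ˢ range n).filter (fun m => m.1 + m.2 + 2 ≤ n)) ×ˢ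
      ((Icc (-(n : ℤ)) n ×ˢ Icc (-(n : ℤ)) n) ×ˢ (Icc (-(n : ℤ)) n ×ˢ Icc (-(n : ℤ)) n))) ×ˢ
        (univ : Finset St),
      a p.1.1.1 p.1.2.1.1 p.1.2.1.2 * (a p.1.1.2 p.1.2.2.1 p.1.2.2.2 *
        a (n - 2 - p.1.1.1 - p.1.1.2) (x - p.1.2.1.1 - p.1.2.2.1) (y - p.1.2.1.2 - p.1.2.2.2)) := by
  classical
  unfold a
  have e : ∀ p : ((ℕ × ℕ) × ((ℤ × ℤ) × (ℤ × ℤ))) × St,
      (fs (fun w => Saw w ∧ dx w = p.1.2.1.1 ∧ dy w = p.1.2.1.2) p.1.1.1).card *
      ((fs (fun w => Saw w ∧ dx w = p.1.2.2.1 ∧ dy w = p.1.2.2.2) p.1.1.2).card *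
      (fs (fun w => Saw w ∧ dx w = x - p.1.2.1.1 - p.1.2.2.1 ∧ dy w = y - p.1.2.1.2 - p.1.2.2.2)
        (n - 2 - p.1.1.1 - p.1.1.2)).card) =
      (fs (fun w => Saw w ∧ dx w = p.1.2.1.1 ∧ dy w = p.1.2.1.2) p.1.1.1 ×ˢ
      (fs (fun w => Saw w ∧ dx w = p.1.2.2.1 ∧ dy w = p.1.2.2.2) p.1.1.2 ×ˢ
      (fs (fun w => Saw w ∧ dx w = x - p.1.2.1.1 - p.1.2.2.1 ∧ dy w = y - p.1.2.1.2 - p.1.2.2.2)
        (n - 2 - p.1.1.1 - p.1.1.2)))).card := by
    intro p
    rw [Finset.card_product, Finset.card_product]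
  simp only [e]
  rw [← Finset.card_sigma]
  apply card_le_of_decode (fun q => q.2.1 ++ (q.1.2 :: (q.2.2.1 ++ (opp q.1.2 :: q.2.2.2))))
  intro w hw
  rw [mem_fs] at hw
  obtain ⟨⟨hw1, hwx, hwy⟩, hwl⟩ := hw
  obtain ⟨u1, u2, u3, s, hs⟩ := exists_split (w := w) (by rw [hwx, hwy, hwl]; exact h)
  have hlen : u1.length + u2.length + u3.length + 2 = n := by
    rw [← hwl, hs]
    simp only [List.length_append, List.length_cons]
    omega
  have hdx : dx u1 + dx u2 + dx u3 = x := by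
    rw [← hwx, hs, dx_append, dx_cons, dx_append, dx_cons, opp_x]
    ring
  have hdy : dy u1 + dy u2 + dy u3 = y := by
    rw [← hwy, hs, dy_append, dy_cons, dy_append, dy_cons, opp_y]
    ring
  have i1 : u1 <:+: w := by rw [hs]; exact (List.prefix_append _ _).isInfix
  have i2 : u2 <:+: w := by
    rw [hs]
    refine ⟨u1 ++ [s], opp s :: u3, ?_⟩
    simp
  have i3 : u3 <:+: w := by
    rw [hs]
    refine ⟨u1 ++ s :: (u2 ++ [opp s]), [], ?_⟩
    simp
  have bd : ∀ u : List St, u.length ≤ n → (-(n : ℤ) ≤ dx u ∧ dx u ≤ n) ∧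
      (-(n : ℤ) ≤ dy u ∧ dy u ≤ n) := by
    intro u hu
    have h1 := abs_add_abs_le u
    have h2 := abs_le.1 (le_trans (le_add_of_nonneg_right (abs_nonneg (dy u))) h1)
    have h3 := abs_le.1 (le_trans (le_add_of_nonneg_left (abs_nonneg (dx u))) h1)
    have h4 : (u.length : ℤ) ≤ n := by exact_mod_cast hu
    exact ⟨⟨by omega, by omega⟩, ⟨by omega, by omega⟩⟩
  refine ⟨⟨(((u1.length, u2.length), ((dx u1, dy u1), (dx u2, dy u2))), s), (u1, (u2, u3))⟩,
    ?_, ?_⟩
  · rw [Finset.mem_sigma]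
    simp only [Finset.mem_product, Finset.mem_filter, Finset.mem_range, Finset.mem_Icc, mem_fs,
      Finset.mem_univ, and_true]
    refine ⟨⟨⟨⟨by omega, by omega⟩, by omega⟩, bd u1 (by omega), bd u2 (by omega)⟩,
      hw1.subw i1, hw1.subw i2, ⟨hw1.subw i3, by omega, by omega⟩, by omega⟩
  · simp only
    exact hs.symm

/-- **Shortening by two steps.** -/
theorem shorten : ∃ K : ℝ, 0 ≤ K ∧ ∀ n : ℕ, 2 ≤ n → ∀ m ≤ n, ∀ x y : ℤ, (x, y) ≠ (0, 0) →
    |x| + |y| < m → (a m x y : ℝ) ≤ q n K * a (m - 2) x y := by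
  obtain ⟨K, hK0, hg⟩ := a_glue
  refine ⟨3 * K + 60, by positivity, ?_⟩
  intro n hn m hm x y hz hlt
  have hn0 : (2 : ℝ) ≤ n := by exact_mod_cast hn
  have hcard : (a m x y : ℝ) ≤
      ∑ p ∈ (((range m ×ˢ range m).filter (fun k => k.1 + k.2 + 2 ≤ m)) ×ˢ
      ((Icc (-(m : ℤ)) m ×ˢ Icc (-(m : ℤ)) m) ×ˢ (Icc (-(m : ℤ)) m ×ˢ Icc (-(m : ℤ)) m))) ×ˢ
        (univ : Finset St),
      (a p.1.1.1 p.1.2.1.1 p.1.2.1.2 : ℝ) * (a p.1.1.2 p.1.2.2.1 p.1.2.2.2 *
        a (m - 2 - p.1.1.1 - p.1.1.2) (x - p.1.2.1.1 - p.1.2.2.1)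
          (y - p.1.2.1.2 - p.1.2.2.2)) := by
    exact_mod_cast short_card m x y hlt
  have hA : (0 : ℝ) ≤ a (m - 2) x y := Nat.cast_nonneg _
  have hterm : ∀ p ∈ (((range m ×ˢ range m).filter (fun k => k.1 + k.2 + 2 ≤ m)) ×ˢ
      ((Icc (-(m : ℤ)) m ×ˢ Icc (-(m : ℤ)) m) ×ˢ (Icc (-(m : ℤ)) m ×ˢ Icc (-(m : ℤ)) m))) ×ˢ
        (univ : Finset St),
      (a p.1.1.1 p.1.2.1.1 p.1.2.1.2 : ℝ) * (a p.1.1.2 p.1.2.2.1 p.1.2.2.2 *
        a (m - 2 - p.1.1.1 - p.1.1.2) (x - p.1.2.1.1 - p.1.2.2.1)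
          (y - p.1.2.1.2 - p.1.2.2.2)) ≤ q n (3 * K) * a (m - 2) x y := by
    rintro ⟨⟨⟨m1, m2⟩, ⟨x1, y1⟩, ⟨x2, y2⟩⟩, s⟩ hp
    simp only [Finset.mem_product, Finset.mem_filter, Finset.mem_range] at hp
    obtain ⟨⟨⟨-, hm12⟩, -⟩, -⟩ := hp
    simp only
    rcases Nat.eq_zero_or_pos (a m1 x1 y1) with h1 | h1
    · rw [h1]
      have := q_pos n (3 * K)
      simp only [Nat.cast_zero, zero_mul]
      positivity
    rcases Nat.eq_zero_or_pos (a m2 x2 y2) with h2 | h2
    · rw [h2]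
      have := q_pos n (3 * K)
      simp only [Nat.cast_zero, zero_mul, mul_zero]
      positivity
    rcases Nat.eq_zero_or_pos (a (m - 2 - m1 - m2) (x - x1 - x2) (y - y1 - y2)) with h3 | h3
    · rw [h3]
      have := q_pos n (3 * K)
      simp only [Nat.cast_zero, mul_zero]
      positivity
    obtain ⟨g1, g2⟩ := glue_list hn hK0 (hg n hn) 3
      [(m1, x1, y1), (m2, x2, y2), (m - 2 - m1 - m2, x - x1 - x2, y - y1 - y2)] rfl
      (by
        intro p hp
        simp only [List.mem_cons, List.not_mem_nil, or_false] at hp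
        rcases hp with rfl | rfl | rfl
        · exact h1
        · exact h2
        · exact h3)
      (by simp only [List.map_cons, List.map_nil, List.sum_cons, List.sum_nil]; omega)
      (by
        simp only [List.map_cons, List.map_nil, List.sum_cons, List.sum_nil]
        intro h
        obtain ⟨e1, e2⟩ := Prod.mk.inj h
        apply hz
        rw [Prod.mk.injEq]
        constructor <;> linarith)
    simp only [List.map_cons, List.map_nil, List.sum_cons, List.sum_nil, add_zero] at g1 g2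
    have f1 : m1 + (m2 + (m - 2 - m1 - m2)) = m - 2 := by omega
    have f2 : x1 + (x2 + (x - x1 - x2)) = x := by ring
    have f3 : y1 + (y2 + (y - y1 - y2)) = y := by ring
    rw [f1, f2, f3] at g1 g2
    unfold lg at g2
    simp only at g2
    have c1 : (0 : ℝ) < a m1 x1 y1 := by exact_mod_cast h1
    have c2 : (0 : ℝ) < a m2 x2 y2 := by exact_mod_cast h2
    have c3 : (0 : ℝ) < a (m - 2 - m1 - m2) (x - x1 - x2) (y - y1 - y2) := by exact_mod_cast h3
    have c4 : (0 : ℝ) < a (m - 2) x y := by exact_mod_cast g1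
    rw [← Real.log_mul c2.ne' c3.ne', ← Real.log_mul c1.ne' (mul_pos c2 c3).ne'] at g2
    have g3 := Real.exp_le_exp.2 g2
    rw [Real.exp_log (mul_pos c1 (mul_pos c2 c3)), Real.exp_add, Real.exp_log c4] at g3
    refine g3.trans (le_of_eq ?_)
    unfold q
    congr 2
    push_cast
    ring
  have hsum := Finset.sum_le_card_nsmul _ _ _ hterm
  have hcardS : ((((range m ×ˢ range m).filter (fun k => k.1 + k.2 + 2 ≤ m)) ×ˢ
      ((Icc (-(m : ℤ)) m ×ˢ Icc (-(m : ℤ)) m) ×ˢ (Icc (-(m : ℤ)) m ×ˢ Icc (-(m : ℤ)) m))) ×ˢ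
        (univ : Finset St)).card ≤ n ^ 20 := by
    rw [Finset.card_product, Finset.card_product, Finset.card_product, Finset.card_product,
      Int.card_Icc]
    have h1 : ((range m ×ˢ range m).filter (fun k => k.1 + k.2 + 2 ≤ m)).card ≤ n * n := by
      refine (Finset.card_filter_le _ _).trans ?_
      rw [Finset.card_product, Finset.card_range]
      exact Nat.mul_le_mul hm hm
    have h2 : ((m : ℤ) + 1 - -(m : ℤ)).toNat ≤ n ^ 3 := by
      have h3 : ((m : ℤ) + 1 - -(m : ℤ)).toNat = 2 * m + 1 := by omega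
      rw [h3]
      have h4 : n ^ 3 = n * n * n := by ring
      nlinarith
    have h5 : (univ : Finset St).card = 4 := rfl
    have h6 : 4 ≤ n ^ 2 := by nlinarith
    rw [h5]
    calc _ ≤ n * n * (n ^ 3 * n ^ 3 * (n ^ 3 * n ^ 3)) * n ^ 2 := by gcongr
      _ = n ^ 16 := by ring
      _ ≤ n ^ 20 := Nat.pow_le_pow_right (by omega) (by norm_num)
  rw [nsmul_eq_mul] at hsum
  have hnum : (((((range m ×ˢ range m).filter (fun k => k.1 + k.2 + 2 ≤ m)) ×ˢ
      ((Icc (-(m : ℤ)) m ×ˢ Icc (-(m : ℤ)) m) ×ˢ (Icc (-(m : ℤ)) m ×ˢ Icc (-(m : ℤ)) m))) ×ˢ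
        (univ : Finset St)).card : ℝ) ≤ q n 60 := by
    have h3 := pow_le_q hn 20
    norm_num at h3
    refine le_trans ?_ h3
    exact_mod_cast hcardS
  have hQ := q_pos n (3 * K)
  calc (a m x y : ℝ) ≤ _ := hcard.trans hsum
    _ ≤ q n 60 * (q n (3 * K) * a (m - 2) x y) :=
        mul_le_mul_of_nonneg_right hnum (by positivity)
    _ = (q n 60 * q n (3 * K)) * a (m - 2) x y := by ring
    _ = _ := by rw [q_mul]; congr 2; ring

end Pool.Agent.Y981.L2
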