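import Pool.Agent.Y981.L2.Pull

/-!
The inverse correlation length of the self-avoiding walk.
-/

set_option autoImplicit false

namespace Pool.Agent.Y981.L2

open Pool.Agent.TH795.EP Pool.Agent.TH795.EP2 Pool.Agent.TH795.SE2 Pool.Agent.TH262.SawL H981 Finset

/-- the inverse correlation length as a function of `e = log (z_c / z)` -/
noncomputable def mass (e : ℝ) : ℝ := sSup {h : ℝ | 0 ≤ h ∧ psi h ≤ e}

theorem mass_bdd (e : ℝ) : BddAbove {h : ℝ | 0 ≤ h ∧ psi h ≤ e} := by
  refine ⟨e + Real.log mu, ?_⟩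
  rintro h ⟨-, h2⟩
  have := le_psi h
  linarith

theorem le_mass {e h : ℝ} (h0 : 0 ≤ h) (hh : psi h ≤ e) : h ≤ mass e :=
  le_csSup (mass_bdd e) ⟨h0, hh⟩

theorem zero_mem {e : ℝ} (he : 0 ≤ e) : (0 : ℝ) ∈ {h : ℝ | 0 ≤ h ∧ psi h ≤ e} :=
  ⟨le_rfl, by rw [psi_zero]; exact he⟩

theorem psi_le_of_lt {e h : ℝ} (he : 0 ≤ e) (h0 : 0 ≤ h) (hh : h < mass e) : psi h ≤ e := by
  obtain ⟨h', ⟨h1, h2⟩, h3⟩ := exists_lt_of_lt_csSup ⟨0, zero_mem he⟩ hh
  exact (psi_mono h0 h3.le).trans h2

theorem psi_smul {h t : ℝ} (h0 : 0 ≤ h) (ht0 : 0 ≤ t) (ht1 : t ≤ 1) : psi (t * h) ≤ t * psi h := by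
  apply psi_le (mul_nonneg ht0 h0)
  intro v hv0 hv1
  have h1 := young hv0 hv1 h
  have h2 := R_nonneg hv0 hv1
  have h3 := mul_le_mul_of_nonneg_left h1 ht0
  nlinarith

theorem psi_le_self {h : ℝ} (h0 : 0 ≤ h) : psi h ≤ h := by
  apply psi_le h0
  intro v hv0 hv1
  have h2 := R_nonneg hv0 hv1
  nlinarith

theorem self_le_mass {e : ℝ} (he : 0 ≤ e) : e ≤ mass e := le_mass he (psi_le_self he)

theorem mass_pos {e : ℝ} (he : 0 < e) : 0 < mass e := he.trans_le (self_le_mass he.le)

theorem mass_mono {e e' : ℝ} (he : 0 ≤ e) (hh : e ≤ e') : mass e ≤ mass e' :=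
  csSup_le_csSup (mass_bdd e') ⟨0, zero_mem he⟩ (fun _ ⟨h1, h2⟩ => ⟨h1, h2.trans hh⟩)

/-- the optimal speed -/
theorem exists_speed {e : ℝ} (he : 0 < e) {d : ℝ} (hd : 0 < d) :
    ∃ u : ℝ, 0 < u ∧ u ≤ 1 ∧ e + R u < (mass e + d) * u := by
  by_contra hcon
  push Not at hcon
  have hm := mass_pos he
  have h1 : psi (mass e + d) ≤ e := by
    apply psi_le (by linarith)
    intro v hv0 hv1
    rcases hv0.eq_or_lt with h0 | h0
    · rw [← h0, R_zero]
      linarith
    · have := hcon v h0 hv1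
      linarith
  have h2 := le_mass (by linarith : 0 ≤ mass e + d) h1
  linarith

/-- polylogarithms are dominated -/
theorem log_dom (K : ℝ) {η : ℝ} (hη : 0 < η) :
    ∃ C : ℝ, 0 ≤ C ∧ ∀ n : ℕ, K * Real.log n ^ 2 ≤ η * n + C := by
  have h1 : Filter.Tendsto (fun n : ℕ => K * (Real.log n ^ 2 / n)) Filter.atTop
      (nhds (K * 0)) := by
    apply Filter.Tendsto.const_mul
    have h2 : Filter.Tendsto (fun x : ℝ => Real.log x ^ 2 / x) Filter.atTop (nhds 0) :=
      (Real.isLittleO_pow_log_id_atTop (n := 2)).tendsto_div_nhds_zero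
    exact h2.comp tendsto_natCast_atTop_atTop
  rw [mul_zero] at h1
  have h2 := (h1.eventually (gt_mem_nhds hη)).and (Filter.eventually_ge_atTop 1)
  obtain ⟨N, hN⟩ := Filter.eventually_atTop.1 h2
  refine ⟨∑ i ∈ range N, |K * Real.log i ^ 2|, Finset.sum_nonneg fun _ _ => abs_nonneg _, ?_⟩
  intro n
  have hn0 : (0 : ℝ) ≤ n := Nat.cast_nonneg n
  rcases Nat.lt_or_ge n N with h | h
  · have h3 : |K * Real.log n ^ 2| ≤ ∑ i ∈ range N, |K * Real.log i ^ 2| :=
      Finset.single_le_sum (f := fun i : ℕ => |K * Real.log i ^ 2|)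
        (fun _ _ => abs_nonneg _) (Finset.mem_range.2 h)
    have h4 := le_abs_self (K * Real.log n ^ 2)
    have h5 : 0 ≤ η * n := by positivity
    linarith
  · obtain ⟨h3, h4⟩ := hN n h
    have hn1 : (0 : ℝ) < n := by exact_mod_cast (by omega : 0 < n)
    have h5 : K * Real.log n ^ 2 = K * (Real.log n ^ 2 / n) * n := by field_simp
    have h6 : 0 ≤ ∑ i ∈ range N, |K * Real.log i ^ 2| :=
      Finset.sum_nonneg fun _ _ => abs_nonneg _
    rw [h5]
    nlinarith

/-! ### the two-point function -/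

/-- `G_z(x, y)` -/
noncomputable def Gz (z : ℝ) (x y : ℤ) : ℝ := ∑' n : ℕ, (a n x y : ℝ) * z ^ n

theorem a_le_c (n : ℕ) (x y : ℤ) : (a n x y : ℝ) ≤ c n := by
  unfold a c
  exact_mod_cast Finset.card_le_card (fun w hw => by
    rw [mem_fs] at hw ⊢
    exact ⟨hw.1.1, hw.2⟩)

theorem a_zero_lt {n k : ℕ} (h : n < k) : a n k 0 = 0 := by
  by_contra hcon
  obtain ⟨w, hw, hx, hy, hl⟩ := exists_of_a (Nat.pos_of_ne_zero hcon)
  have h4 := abs_add_abs_le w
  rw [hx, hy, hl] at h4
  simp at h4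
  omega

/-- bound of one term -/
theorem term_bound' : ∃ K : ℝ, 0 ≤ K ∧ ∀ n : ℕ, 2 ≤ n → ∀ (k : ℕ) (h z : ℝ), 0 < z →
    (a n k 0 : ℝ) * z ^ n ≤
      Real.exp (-(h * k)) * Real.exp (n * (psi h + Real.log mu + Real.log z) +
        K * Real.log n ^ 2) := by
  obtain ⟨K, hK, hZ⟩ := Z_le
  refine ⟨2 * K, by positivity, ?_⟩
  intro n hn k h z hz
  have h1 := term_le_Z (h, 0) n k 0
  simp only [Int.cast_natCast, Int.cast_zero, mul_zero, add_zero] at h1
  have h2 := hZ n hn (h, 0)
  have h3 : Z (h, 0) n ≤ Real.exp (n * (Lam (h, 0) + Real.log mu) + K * Real.log n ^ 2) := by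
    rw [← Real.log_le_iff_le_exp (Z_pos _ _)]
    exact h2
  have h4 : z ^ n = Real.exp (n * Real.log z) := by
    rw [mul_comm, Real.exp_mul, Real.exp_log hz, Real.rpow_natCast]
  have h5 : (a n k 0 : ℝ) ≤ Real.exp (-(h * k)) *
      Real.exp (n * (Lam (h, 0) + Real.log mu) + K * Real.log n ^ 2) := by
    have h6 := h1.trans h3
    rw [Real.exp_neg, ← div_eq_inv_mul, le_div_iff₀ (Real.exp_pos _)]
    exact h6
  calc (a n k 0 : ℝ) * z ^ n ≤ (Real.exp (-(h * k)) *
      Real.exp (n * (Lam (h, 0) + Real.log mu) + K * Real.log n ^ 2)) * z ^ n :=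
        mul_le_mul_of_nonneg_right h5 (pow_nonneg hz.le _)
    _ = Real.exp (-(h * k)) * Real.exp (n * (psi h + Real.log mu + Real.log z) +
        K * Real.log n ^ 2) := by
        rw [h4, mul_assoc, ← Real.exp_add]
        unfold psi
        ring_nf
    _ ≤ _ := by
        apply mul_le_mul_of_nonneg_left _ (Real.exp_pos _).le
        apply Real.exp_le_exp.2
        have := mul_le_mul_of_nonneg_left (pow_le_four hn).1 hK
        linarith

theorem summable_aux {C η : ℝ} (hη : 0 < η) :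
    Summable (fun n : ℕ => Real.exp (C - η * n)) := by
  have h1 : Summable (fun n : ℕ => Real.exp C * (Real.exp (-η)) ^ n) := by
    apply Summable.mul_left
    apply summable_geometric_of_lt_one (Real.exp_pos _).le
    rw [Real.exp_lt_one_iff]
    linarith
  refine h1.congr ?_
  intro n
  rw [← Real.exp_nat_mul, ← Real.exp_add]
  congr 1
  ring

theorem summable_G {z : ℝ} (hz : 0 < z) (hz1 : z < 1 / mu) (x y : ℤ) :
    Summable (fun n : ℕ => (a n x y : ℝ) * z ^ n) := by
  obtain ⟨K, hK, hup, -⟩ := exists_K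
  have hmu := mu_pos
  have hη : 0 < -(Real.log mu + Real.log z) := by
    have h1 : z * mu < 1 := by rwa [lt_div_iff₀ hmu] at hz1
    have h2 := Real.log_neg (mul_pos hz hmu) h1
    rw [Real.log_mul hz.ne' hmu.ne'] at h2
    linarith
  obtain ⟨η, hηe⟩ : ∃ η, η = -(Real.log mu + Real.log z) := ⟨_, rfl⟩
  rw [← hηe] at hη
  obtain ⟨C, hC, hlog⟩ := log_dom (2 * K) (half_pos hη)
  rw [← summable_nat_add_iff 2]
  have h1 : Summable (fun n : ℕ => Real.exp (C - η / 2 * ((n + 2 : ℕ) : ℝ))) :=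
    (summable_nat_add_iff 2).2 (summable_aux (half_pos hη))
  apply Summable.of_nonneg_of_le _ _ h1
  · intro n
    positivity
  · intro n
    have h2 := hup (n + 2) (by omega) (n + 2) le_rfl
    have h3 := a_le_c (n + 2) x y
    have h4 : z ^ (n + 2) = Real.exp ((n + 2 : ℕ) * Real.log z) := by
      rw [mul_comm, Real.exp_mul, Real.exp_log hz, Real.rpow_natCast]
    have h5 : mu ^ (n + 2) = Real.exp ((n + 2 : ℕ) * Real.log mu) := by
      rw [mul_comm, Real.exp_mul, Real.exp_log hmu, Real.rpow_natCast]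
    have h6 := hlog (n + 2)
    have h7 := mul_le_mul_of_nonneg_left (pow_le_four (show 2 ≤ n + 2 by omega)).1 hK
    calc (a (n + 2) x y : ℝ) * z ^ (n + 2) ≤ (mu ^ (n + 2) * q (n + 2) K) * z ^ (n + 2) :=
          mul_le_mul_of_nonneg_right (h3.trans h2) (pow_nonneg hz.le _)
      _ = Real.exp ((n + 2 : ℕ) * Real.log mu + K * Real.log (n + 2 : ℕ) ^ 2 +
          (n + 2 : ℕ) * Real.log z) := by
          rw [h4, h5]
          unfold q
          rw [← Real.exp_add, ← Real.exp_add]
      _ ≤ _ := by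
          apply Real.exp_le_exp.2
          have e : ((n + 2 : ℕ) : ℝ) * Real.log mu + ((n + 2 : ℕ) : ℝ) * Real.log z =
            - (((n + 2 : ℕ) : ℝ) * η) := by rw [hηe]; ring
          nlinarith

/-- **The correlation length.** -/
theorem G_tendsto {z : ℝ} (hz : 0 < z) (hz1 : z < 1 / mu) :
    Filter.Tendsto (fun k : ℕ => - Real.log (Gz z k 0) / k) Filter.atTop
      (nhds (mass (-Real.log (z * mu)))) := by
  have hmu := mu_pos
  obtain ⟨e, he⟩ : ∃ e, e = -Real.log (z * mu) := ⟨_, rfl⟩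
  have hlz : Real.log z + Real.log mu = -e := by
    rw [he, Real.log_mul hz.ne' hmu.ne']; ring
  have he0 : 0 < e := by
    have h1 : z * mu < 1 := by rwa [lt_div_iff₀ hmu] at hz1
    have h2 := Real.log_neg (mul_pos hz hmu) h1
    linarith
  rw [← he]
  have hm := mass_pos he0
  obtain ⟨K1, hK1, hterm⟩ := term_bound'
  obtain ⟨K2, hK2, hldp⟩ := ldp_words
  have hGpos : ∀ k : ℕ, 2 ≤ k → 0 < Gz z k 0 := by
    intro k hk
    have h1 : 1 ≤ a k k 0 := one_le_a (by simp; omega) (by simp) (by simp)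
    have h2 : (a k k 0 : ℝ) * z ^ k ≤ Gz z k 0 :=
      (summable_G hz hz1 k 0).le_tsum k (fun j _ => by positivity)
    have h3 : (1 : ℝ) ≤ a k k 0 := by exact_mod_cast h1
    have h4 := pow_pos hz k
    nlinarith
  rw [tendsto_order]
  constructor
  · -- lower bound of the rate
    intro b hb
    obtain ⟨h, hh1, hh2, hh0⟩ : ∃ h, b < h ∧ h < mass e ∧ 0 < h := by
      refine ⟨(max b 0 + mass e) / 2, ?_, ?_, ?_⟩
      · have := le_max_left b 0
        have := max_lt hb hm
        linarith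
      · have := max_lt hb hm
        linarith
      · have := le_max_right b 0
        linarith
    have hpsi : psi h < e := by
      obtain ⟨h', h1, h2⟩ : ∃ h', h < h' ∧ h' < mass e := exists_between hh2
      have h3 := psi_le_of_lt he0.le (by linarith) h2
      have h4 := psi_smul (h := h') (t := h / h') (by linarith)
        (div_nonneg hh0.le (by linarith)) (by rw [div_le_one (by linarith)]; linarith)
      rw [div_mul_cancel₀ h (by linarith : h' ≠ 0)] at h4
      have h5 : h / h' < 1 := by rw [div_lt_one (by linarith)]; exact h1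
      have h6 : 0 < h / h' := div_pos hh0 (by linarith)
      have h7 := psi_nonneg h'
      calc psi h ≤ h / h' * psi h' := h4
        _ ≤ h / h' * e := mul_le_mul_of_nonneg_left h3 h6.le
        _ < 1 * e := mul_lt_mul_of_pos_right h5 he0
        _ = e := one_mul e
    obtain ⟨η, hη⟩ : ∃ η, η = e - psi h := ⟨_, rfl⟩
    have hη0 : 0 < η := by linarith
    obtain ⟨C, hC, hlog⟩ := log_dom K1 (half_pos hη0)
    have hsum := summable_aux (C := C) (half_pos hη0)
    obtain ⟨T, hT⟩ : ∃ T, T = ∑' n : ℕ, Real.exp (C - η / 2 * n) := ⟨_, rfl⟩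
    have hT0 : 0 < T := by
      rw [hT]
      exact hsum.tsum_pos (fun _ => (Real.exp_pos _).le) 0 (Real.exp_pos _)
    have hG : ∀ k : ℕ, 2 ≤ k → Gz z k 0 ≤ Real.exp (-(h * k)) * T := by
      intro k hk
      unfold Gz
      rw [hT, ← tsum_mul_left]
      apply (summable_G hz hz1 k 0).tsum_le_tsum _ (hsum.mul_left _)
      intro n
      rcases Nat.lt_or_ge n k with h1 | h1
      · rw [a_zero_lt h1]
        simp only [Nat.cast_zero, zero_mul]
        positivity
      · have h2 := hterm n (by omega) k h z hz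
        refine h2.trans ?_
        apply mul_le_mul_of_nonneg_left _ (Real.exp_pos _).le
        apply Real.exp_le_exp.2
        have h3 := hlog n
        have h4 : psi h + Real.log mu + Real.log z = -η := by linarith
        rw [h4]
        linarith
    -- conclusion
    have hlim : Filter.Tendsto (fun k : ℕ => h - Real.log T / k) Filter.atTop (nhds (h - 0)) := by
      apply Filter.Tendsto.const_sub
      exact tendsto_const_nhds.div_atTop tendsto_natCast_atTop_atTop
    rw [sub_zero] at hlim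
    filter_upwards [hlim.eventually (lt_mem_nhds hh1), Filter.eventually_ge_atTop 2] with k hk1 hk2
    refine hk1.trans_le ?_
    have hk0 : (0 : ℝ) < k := by exact_mod_cast (by omega : 0 < k)
    have h1 := Real.log_le_log (hGpos k hk2) (hG k hk2)
    rw [Real.log_mul (Real.exp_pos _).ne' hT0.ne', Real.log_exp] at h1
    rw [le_div_iff₀ hk0, sub_mul, div_mul_cancel₀ _ hk0.ne']
    linarith
  · -- upper bound of the rate
    intro b hb
    obtain ⟨d, hd⟩ : ∃ d, d = (b - mass e) / 3 := ⟨_, rfl⟩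
    have hd0 : 0 < d := by rw [hd]; linarith
    obtain ⟨u, hu0, hu1, hu⟩ := exists_speed he0 hd0
    have hR0 := R_nonneg hu0.le hu1
    obtain ⟨C, hC, hlog⟩ := log_dom K2 (mul_pos hd0 hu0)
    obtain ⟨D, hD⟩ : ∃ D, D = 2 * (e + R u) + 2 * (d * u) + C := ⟨_, rfl⟩
    have key : ∀ k : ℕ, 2 ≤ k → - Real.log (Gz z k 0) ≤ (mass e + 2 * d) * k + D := by
      intro k hk
      have hk0 : (0 : ℝ) < k := by exact_mod_cast (by omega : 0 < k)
      obtain ⟨n, hn1, hn2, hn3⟩ : ∃ n : ℕ, (k : ℝ) / u ≤ n ∧ (n : ℝ) ≤ k / u + 2 ∧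
          ((k : ℤ) + 0 - n) % 2 = 0 := by
        obtain ⟨n0, hn0⟩ : ∃ n0, n0 = ⌈(k : ℝ) / u⌉₊ := ⟨_, rfl⟩
        have h1 : (k : ℝ) / u ≤ n0 := by rw [hn0]; exact Nat.le_ceil _
        have h2 : (n0 : ℝ) < k / u + 1 := by rw [hn0]; exact Nat.ceil_lt_add_one (by positivity)
        rcases Int.emod_two_eq_zero_or_one ((k : ℤ) + 0 - n0) with h3 | h3
        · exact ⟨n0, h1, by linarith, h3⟩
        · refine ⟨n0 + 1, ?_, ?_, ?_⟩
          · push_cast; linarith
          · push_cast; linarith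
          · push_cast; omega
      have hku : (k : ℝ) ≤ k / u := by
        rw [le_div_iff₀ hu0]
        nlinarith
      have hkn : k ≤ n := by
        have : (k : ℝ) ≤ n := hku.trans hn1
        exact_mod_cast this
      have hn0 : (0 : ℝ) < n := by exact_mod_cast (by omega : 0 < n)
      have hle : |(k : ℤ)| + |(0 : ℤ)| ≤ n := by simp; exact hkn
      have hne : ((k : ℤ), (0 : ℤ)) ≠ (0, 0) := by simp; omega
      have h1 := hldp n (by omega) k 0 hne hn3 hle
      have h1' := (abs_le.1 h1).1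
      have ha1 := one_le_a hne hn3 hle
      have ha : (0 : ℝ) < a n k 0 := by exact_mod_cast ha1
      have hc := c_pos n
      have hc1 : n * Real.log mu ≤ Real.log (c n) := by
        have h1 : mu ^ n ≤ c n := by rw [c_eq]; exact mu_pow_le n
        have h2 := Real.log_le_log (pow_pos hmu n) h1
        rwa [Real.log_pow] at h2
      rw [Real.log_div ha.ne' hc.ne'] at h1'
      simp only [Int.cast_natCast, Int.cast_zero, zero_div] at h1'
      have hR1 : R ((k : ℝ) / n) ≤ R u := by
        apply R_mono (by positivity) _ hu1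
        rw [div_le_iff₀ hn0]
        rw [div_le_iff₀ hu0] at hn1
        linarith
      have hR2 : Rate ((k : ℝ) / n, 0) = R ((k : ℝ) / n) := rfl
      rw [hR2] at h1'
      have h2 : (a n k 0 : ℝ) * z ^ n ≤ Gz z k 0 :=
        (summable_G hz hz1 k 0).le_tsum n (fun j _ => by positivity)
      have h3 := Real.log_le_log (by positivity) h2
      rw [Real.log_mul ha.ne' (pow_pos hz n).ne', Real.log_pow] at h3
      have h4 := hlog n
      have h5 : (n : ℝ) * R ((k : ℝ) / n) ≤ n * R u := mul_le_mul_of_nonneg_left hR1 hn0.le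
      have h6 : (n : ℝ) * (e + R u) ≤ (k / u + 2) * (e + R u) :=
        mul_le_mul_of_nonneg_right hn2 (by linarith)
      have h7 : (k : ℝ) / u * (e + R u) ≤ (mass e + d) * k := by
        rw [div_mul_eq_mul_div, div_le_iff₀ hu0]
        nlinarith
      have h8 : d * u * n ≤ d * k + 2 * (d * u) := by
        have := mul_le_mul_of_nonneg_left hn2 (mul_pos hd0 hu0).le
        have h9 : d * u * (k / u + 2) = d * k + 2 * (d * u) := by field_simp
        linarith
      have h9 : (n : ℝ) * Real.log z = - (n * e) - n * Real.log mu := by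
        have : Real.log z = -e - Real.log mu := by linarith
        rw [this]; ring
      rw [hD]
      nlinarith
    have hlim : Filter.Tendsto (fun k : ℕ => (mass e + 2 * d) + D / k) Filter.atTop
        (nhds ((mass e + 2 * d) + 0)) := by
      apply Filter.Tendsto.const_add
      exact tendsto_const_nhds.div_atTop tendsto_natCast_atTop_atTop
    rw [add_zero] at hlim
    have hlt : mass e + 2 * d < b := by rw [hd]; linarith
    filter_upwards [hlim.eventually (gt_mem_nhds hlt), Filter.eventually_ge_atTop 2] with k hk1 hk2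
    refine lt_of_le_of_lt ?_ hk1
    have hk0 : (0 : ℝ) < k := by exact_mod_cast (by omega : 0 < k)
    rw [div_le_iff₀ hk0, add_mul, div_mul_cancel₀ _ hk0.ne']
    exact key k hk2

end Pool.Agent.Y981.L2
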